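import Pool.Agent.H580C.CH.Props

set_option autoImplicit false

universe u

namespace Pool.Agent.H580C

open MvPolynomial Pool.Agent.Chud

theorem t_A1 (hAS : St_AS.{u}) : St_A1.{u} := by
  intro k _ N S hN ha
  obtain ⟨⟨F, hF0, hF1, hF2⟩, -⟩ := hAS k N 1 S hN
  have hev : ∀ p ∈ S, eval p.rep F = 0 := by
    intro p hp
    have h := hF2 p hp
    unfold VanishAt at h
    rw [pow_one] at h
    exact (RingHom.mem_ker).1 h
  rcases Nat.le_one_iff_eq_zero_or_eq_one.1 ha with h0 | h1
  · rw [h0] at hF1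
    have hC : F = C (coeff 0 F) := by
      apply totalDegree_eq_zero_iff_eq_C.1
      exact hF1.totalDegree hF0
    obtain ⟨h, -, -, -⟩ := exists_lin (k := k) (F := (X 0 : MvPolynomial (Fin (N + 1)) k))
      (isHomogeneous_X k 0) (X_ne_zero 0)
    refine ⟨h, fun p hp => ?_⟩
    exfalso
    have h3 := hev p hp
    rw [hC, eval_C] at h3
    exact hF0 (by rw [hC, h3, C_0])
  · rw [h1] at hF1
    obtain ⟨h, c, hc, hF⟩ := exists_lin hF1 hF0
    refine ⟨h, fun p hp => ?_⟩
    rw [← eval_lin]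
    have h3 := hev p hp
    rw [hF, map_mul, eval_C] at h3
    exact (mul_eq_zero.1 h3).resolve_left hc

end Pool.Agent.H580C
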