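import Pool.Agent.H580C.CH.Props

set_option autoImplicit false

universe u

namespace Pool.Agent.H580C

open MvPolynomial Pool.Agent.Chud

theorem AS_exists_OnH {k : Type u} [Field k] {N : ℕ} (hN : 1 ≤ N) (p : PP k N) :
    ∃ h : PP k N, OnH h p := by
  obtain ⟨q, hq⟩ : ∃ q : PP k N, p ≠ q := by
    by_contra hcon
    push Not at hcon
    have h0 : (Pi.single (0 : Fin (N + 1)) (1 : k) : Fin (N + 1) → k) ≠ 0 := by
      intro h
      have := congrFun h 0
      simp at this
    have h1 : (Pi.single (Fin.last N) (1 : k) : Fin (N + 1) → k) ≠ 0 := by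
      intro h
      have := congrFun h (Fin.last N)
      simp at this
    have h2 : Projectivization.mk k _ h0 = Projectivization.mk k _ h1 := by
      rw [← hcon (Projectivization.mk k _ h0), ← hcon (Projectivization.mk k _ h1)]
    rw [Projectivization.mk_eq_mk_iff'] at h2
    obtain ⟨a, ha⟩ := h2
    have h3 := congrFun ha 0
    have h4 : (0 : Fin (N + 1)) ≠ Fin.last N := by
      intro h
      have := congrArg Fin.val h
      simp at this
      omega
    simp [Pi.single_eq_of_ne h4] at h3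
  obtain ⟨h, hh, _⟩ := exists_OnH_not hq
  exact ⟨h, hh⟩

theorem t_AS : St_AS.{u} := by
  classical
  intro k _ N m S hN
  have hne : {d | ∃ F : MvPolynomial (Fin (N + 1)) k, F ≠ 0 ∧ F.IsHomogeneous d ∧
      ∀ p ∈ S, VanishAt F m p}.Nonempty := by
    choose H hH using fun p : PP k N => AS_exists_OnH hN p
    refine ⟨∑ p ∈ S, 1 * m, ∏ p ∈ S, (lin (H p)) ^ m, ?_, ?_, ?_⟩
    · exact Finset.prod_ne_zero_iff.2 fun p _ => pow_ne_zero m (lin_ne_zero _)
    · exact IsHomogeneous.prod S _ _ fun p _ => (lin_homog (H p)).pow m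
    · intro p hp
      obtain ⟨G, hG⟩ := Finset.dvd_prod_of_mem (fun p => (lin (H p)) ^ m) hp
      unfold VanishAt
      rw [hG]
      refine Ideal.mul_mem_right _ _ (Ideal.pow_mem_pow ?_ m)
      rw [mI, RingHom.mem_ker]
      exact (eval_lin (H p) p).2 (hH p)
  constructor
  · exact Nat.sInf_mem hne
  · intro F d hF0 hFd hv
    refine Nat.sInf_le ⟨F, hF0, hFd, fun p hp => ?_⟩
    exact hv p.rep ⟨p, hp, rfl⟩

end Pool.Agent.H580C
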