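import Pool.Agent.H580C.CH.Props

set_option autoImplicit false

universe u

namespace Pool.Agent.H580C

open MvPolynomial Pool.Agent.Chud

theorem BL_mu_pow {k : Type u} [Field k] {N : ℕ} (v : Fin N → k) {F : MvPolynomial (Fin N) k}
    (hF : F ≠ 0) (j : ℕ) : mu v (F ^ j) = j * mu v F := by
  induction j with
  | zero =>
    rw [pow_zero, zero_mul]
    have h := mu_pos_iff v (F := (1 : MvPolynomial (Fin N) k)) one_ne_zero
    rw [map_one] at h
    by_contra hne
    exact one_ne_zero (h.1 (Nat.pos_of_ne_zero hne))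
  | succ j ih =>
    rw [pow_succ, mu_mul v (pow_ne_zero _ hF) hF, ih]
    ring

theorem BL_degree_le {n q : ℕ} (b : Fin (n + 1) →₀ ℕ) (hb : ∀ i, b i < q)
    (hb0 : b 0 = 0) : b.degree ≤ n * (q - 1) := by
  rw [Finsupp.degree_eq_sum, Fin.sum_univ_succ, hb0, zero_add]
  calc ∑ i : Fin n, b i.succ ≤ ∑ _i : Fin n, (q - 1) :=
        Finset.sum_le_sum (fun i _ => by have := hb i.succ; omega)
    _ = n * (q - 1) := by simp

theorem t_BL (hHC : St_HC.{u}) (hHM : St_HM.{u}) (hHH : St_HH.{u}) (hMX : St_MX.{u}) (hRT : St_RT.{u}) : St_BL.{u} := by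
  intro k _ _ p e n d m _ _ Z F hZ hF hFd hFm
  have hp : p.Prime := Fact.out
  have hq : 0 < p ^ e := pow_pos hp.pos e
  have hd0 : hd (0 : Fin (n + 1) →₀ ℕ) F = F := by
    ext c
    rw [hHC]
    simp
  obtain ⟨b, -, hb1, hb2, hb3, hb4⟩ := hMX k p e (n + 1) {i | i ≠ 0} F 0
    (fun i => hq) (fun i _ => rfl) (by rw [hd0]; exact hF)
  have hb0 : b 0 = 0 := hb2 0 (by simp)
  have hBd : b.degree ≤ d := by
    obtain ⟨c, hc⟩ := MvPolynomial.ne_zero_iff.1 hb3
    rw [hHC] at hc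
    have hc' : coeff (c + b) F ≠ 0 := right_ne_zero_of_mul hc
    have := hFd hc'
    rw [Pi.one_def] at this
    have h2 : (c + b).degree = d := by
      rw [Finsupp.degree_eq_weight_one]
      exact this
    rw [map_add] at h2
    omega
  obtain ⟨c, d', G, -, hG2, hG3, hG4, -⟩ := hRT k p e (n + 1) (d - b.degree) 0 (hd b F) hb3
    (hHH k (n + 1) b d F hFd) hb4
  have hG0 : G ≠ 0 := by
    intro h
    apply hb3
    rw [hG4, h, zero_pow hq.ne', mul_zero]
  refine ⟨b.degree, d', G, BL_degree_le b hb1 hb0, hG0, hG2, by omega, ?_⟩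
  intro v hv
  have h1 := hHM k (n + 1) b v m F (hFm v hv)
  rw [mem_mI_pow_iff v hb3] at h1
  have hX0 : (X 0 : MvPolynomial (Fin (n + 1)) k) ≠ 0 := X_ne_zero 0
  have hmuX : mu v (X 0 : MvPolynomial (Fin (n + 1)) k) = 0 := by
    have h := mu_pos_iff v hX0
    rw [eval_X] at h
    by_contra hne
    exact hZ v hv (h.1 (Nat.pos_of_ne_zero hne))
  rw [hG4, mu_mul v (pow_ne_zero _ hX0) (pow_ne_zero _ hG0), BL_mu_pow v hX0, BL_mu_pow v hG0,
    hmuX, mul_zero, zero_add] at h1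
  omega

end Pool.Agent.H580C
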