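import Pool.Agent.H580C.CH.Props

set_option autoImplicit false

universe u

namespace Pool.Agent.H580C

open MvPolynomial Pool.Agent.Chud

theorem t_CD (hCP : St_CP.{u}) (hCP0 : St_CP.{0}) (hTR : St_TR.{u}) (hMT : St_MT.{u}) : St_CD.{u} := by
  classical
  intro k _ _ n t a m d Z F hn ht hZf hZn hZ0 hlow hF0 hFh hFv
  obtain ⟨p, hp⟩ := CharP.exists k
  rcases CharP.char_is_prime_or_zero k p with hpp | hp0
  · have : Fact p.Prime := ⟨hpp⟩
    exact hCP k p n t a m d Z F hn ht hZf hZn hZ0 hlow hF0 hFh hFv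
  · subst hp0
    have : CharZero k := CharP.charP_to_charZero k
    have hlow' : LowT ((hZf.toFinset : Finset (Fin (n + 1) → k)) : Set (Fin (n + 1) → k)) t a := by
      rw [Set.Finite.coe_toFinset]
      exact hlow
    obtain ⟨p, hp, k', _, _, _, A, φ, -, hL, hZA, hDA, hDφ, hlowT⟩ :=
      hTR k n t a 0 hZf.toFinset {F}
        ((hZf.toFinset.biUnion fun v => Finset.univ.image v) ∪
          F.support.image (fun m => coeff m F)) hlow'
    have hFA : ∀ m, coeff m F ∈ A := fun m => hL F (Finset.mem_singleton_self F) m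
    have hvA : ∀ v ∈ Z, ∀ i, v i ∈ A := fun v hv i => hZA v (hZf.mem_toFinset.2 hv) i
    set FA : MvPolynomial (Fin (n + 1)) A := ∑ m ∈ F.support, monomial m ⟨coeff m F, hFA m⟩
      with hFAdef
    have hmapF : map A.subtype FA = F := by
      rw [hFAdef, map_sum]
      conv_rhs => rw [← support_sum_monomial_coeff F]
      apply Finset.sum_congr rfl
      intro m _
      rw [map_monomial]
      rfl
    have hcoeff : ∀ m, coeff m FA = ⟨coeff m F, hFA m⟩ := by
      intro m
      apply Subtype.ext
      have := congrArg (coeff m) hmapF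
      rw [coeff_map] at this
      exact this
    have hdegm : ∀ m ∈ F.support, m.degree = d := by
      intro m hm
      have := hFh (mem_support_iff.1 hm)
      rwa [Finsupp.degree_eq_weight_one]
    have hFAh : FA.IsHomogeneous d := by
      rw [hFAdef]
      apply IsHomogeneous.sum
      intro m hm
      exact isHomogeneous_monomial _ (hdegm m hm)
    obtain ⟨m₀, hm₀⟩ := support_nonempty.2 hF0
    have hF'0 : map φ FA ≠ 0 := by
      intro h0
      have h1 := congrArg (coeff m₀) h0
      rw [coeff_map, hcoeff, coeff_zero] at h1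
      refine hDφ (coeff m₀ F) ?_ (mem_support_iff.1 hm₀) (hFA m₀) h1
      rw [Finset.mem_union]
      right
      exact Finset.mem_image_of_mem _ hm₀
    let ψ : (Fin (n + 1) → k) → (Fin (n + 1) → k') := fun v =>
      if h : ∀ i, v i ∈ A then fun i => φ ⟨v i, h i⟩ else 0
    have hψ : ∀ v, ∀ hv : v ∈ Z, ψ v = fun i => φ ⟨v i, hvA v hv i⟩ := by
      intro v hv
      exact dif_pos (hvA v hv)
    refine hCP0 k' p n t a m d (ψ '' Z) (map φ FA) hn ht (hZf.image _) (hZn.image _) ?_ ?_ hF'0
      (hFAh.map φ) ?_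
    · rintro w ⟨v, hv, rfl⟩ h0
      rw [hψ v hv] at h0
      obtain ⟨i, hi⟩ : ∃ i, v i ≠ 0 := by
        by_contra hcon
        push Not at hcon
        exact hZ0 v hv (funext hcon)
      refine hDφ (v i) ?_ hi (hvA v hv i) (congrFun h0 i)
      rw [Finset.mem_union]
      left
      rw [Finset.mem_biUnion]
      exact ⟨v, hZf.mem_toFinset.2 hv, Finset.mem_image_of_mem _ (Finset.mem_univ i)⟩
    · apply hlowT
      intro v hv
      have hv' := hZf.mem_toFinset.1 hv
      exact ⟨hvA v hv', v, hv', hψ v hv'⟩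
    · rintro w ⟨v, hv, rfl⟩
      rw [hψ v hv]
      refine (hMT A k k' A.subtype φ Subtype.val_injective (n + 1)
        (fun i => ⟨v i, hvA v hv i⟩) FA).1 m ?_
      rw [hmapF]
      exact hFv v hv

end Pool.Agent.H580C
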