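import Pool.Agent.H580C.CH.Props

set_option autoImplicit false

universe u

namespace Pool.Agent.H580C

open MvPolynomial Pool.Agent.Chud

theorem t_CE : St_CE.{u} := by
  intro k _ n v hv
  have h0 : e0 k n ≠ 0 := by
    intro h
    have := congrFun h 0
    simp at this
  let e1 := LinearEquiv.toSpanNonzeroSingleton k (Fin (n + 1) → k) (e0 k n) h0
  let e2 := LinearEquiv.toSpanNonzeroSingleton k (Fin (n + 1) → k) v hv
  obtain ⟨g, hg⟩ := Submodule.exists_linearEquiv_restrict_eq (e1.symm.trans e2)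
  refine ⟨g, ?_⟩
  have h1 : ((e1 1 : Submodule.span k {e0 k n}) : Fin (n + 1) → k) = e0 k n := by
    simp [e1, LinearEquiv.toSpanNonzeroSingleton_apply]
  have h2 := hg (e1 1)
  rw [h1] at h2
  rw [← h2]
  simp [e2, LinearEquiv.toSpanNonzeroSingleton_apply]

end Pool.Agent.H580C
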