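import Pool.Agent.H580C.CH.Props

set_option autoImplicit false

universe u

namespace Pool.Agent.H580C

open MvPolynomial Pool.Agent.Chud

/-- a coordinate change that makes a given nonzero linear functional the first coordinate -/
theorem CO_equiv {k : Type u} [Field k] (n : ℕ) (ℓ : (Fin (n + 1) → k) →ₗ[k] k) (hℓ : ℓ ≠ 0) :
    ∃ f : (Fin (n + 1) → k) ≃ₗ[k] (Fin (n + 1) → k), ∀ v, f v 0 = ℓ v := by
  obtain ⟨i, hi⟩ : ∃ i, ℓ (Pi.single i 1) ≠ 0 := by
    by_contra h
    push Not at h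
    apply hℓ
    apply LinearMap.pi_ext'
    intro i
    apply LinearMap.ext_ring
    simpa using h i
  let f : (Fin (n + 1) → k) →ₗ[k] (Fin (n + 1) → k) :=
    LinearMap.pi (fun j => if j = 0 then ℓ else if j = i then LinearMap.proj 0
      else LinearMap.proj j)
  have f0 : ∀ v, f v 0 = ℓ v := by intro v; simp [f]
  have fi : i ≠ 0 → ∀ v, f v i = v 0 := by intro h v; simp [f, h]
  have fj : ∀ j, j ≠ 0 → j ≠ i → ∀ v, f v j = v j := by intro j h h' v; simp [f, h, h']
  have hinj : Function.Injective f := by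
    rw [← LinearMap.ker_eq_bot, LinearMap.ker_eq_bot']
    intro v hv
    have h0 : ∀ j, j ≠ i → v j = 0 := by
      intro j hj
      by_cases hj0 : j = 0
      · subst hj0
        rw [← fi hj.symm v, hv]
        rfl
      · rw [← fj j hj0 hj v, hv]
        rfl
    have hvi : v = v i • Pi.single i (1 : k) := by
      ext j
      by_cases hj : j = i
      · subst hj; simp
      · rw [h0 j hj]; simp [hj]
    have h1 : ℓ v = 0 := by rw [← f0 v, hv]; rfl
    rw [hvi, map_smul, smul_eq_mul] at h1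
    rcases mul_eq_zero.1 h1 with h2 | h2
    · rw [hvi, h2, zero_smul]
    · exact absurd h2 hi
  refine ⟨LinearEquiv.ofInjectiveEndo f hinj, ?_⟩
  intro v
  rw [← f0 v]
  rfl

theorem t_CO : St_CO.{u} := by
  intro k _ _ n Z hZ hv
  rcases Z.eq_empty_or_nonempty with rfl | ⟨z, hz⟩
  · exact ⟨LinearEquiv.refl _ _, by intro v hv; exact absurd hv (Set.notMem_empty v)⟩
  haveI : Finite Z := hZ
  obtain ⟨ℓ, hℓ⟩ := Module.exists_dual_forall_apply_ne_zero (K := k) (fun v : Z => (v : Fin (n + 1) → k))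
    (fun v => hv v v.2)
  have hne : ℓ ≠ 0 := by
    intro h
    apply hℓ ⟨z, hz⟩
    rw [h]; rfl
  obtain ⟨f, hf⟩ := CO_equiv n ℓ hne
  refine ⟨f.symm, ?_⟩
  intro v hv
  rw [LinearEquiv.symm_symm, hf]
  exact hℓ ⟨v, hv⟩

end Pool.Agent.H580C
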