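import Pool.Agent.H580C.CH.Props

set_option autoImplicit false

universe u

namespace Pool.Agent.H580C

open MvPolynomial Pool.Agent.Chud

/-- forms with large orders, for sets outside the hyperplane `x_0 = 0` -/
lemma CP_star (hBL : St_BL.{u}) (hLS : St_LS.{u}) (k : Type u) [Field k] [IsAlgClosed k] (p : ℕ)
    [Fact p.Prime] [CharP k p] (n t a : ℕ) (Z : Set (Fin (n + 1) → k)) (hn : 1 ≤ n) (ht : 1 ≤ t)
    (hZ : Z.Finite) (hZn : Z.Nonempty) (hZ0 : ∀ v ∈ Z, v 0 ≠ 0) (hL : LowT Z t a) (e D : ℕ)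
    (F : MvPolynomial (Fin (n + 1)) k) (hF0 : F ≠ 0) (hF : F.IsHomogeneous D)
    (hFv : ∀ v ∈ Z, F ∈ mI v ^ (p ^ e * (t + n - 1))) : p ^ e * (a + n - 1) ≤ D := by
  obtain ⟨B, d', g, hB, hg0, hg, hD, hmu⟩ :=
    hBL k p e n D (p ^ e * (t + n - 1)) Z F hZ0 hF0 hF hFv
  obtain ⟨v, hv, hmin⟩ := Set.exists_min_image Z (fun v => mu v g) hZ hZn
  have hq : 1 ≤ p ^ e := Nat.one_le_pow _ _ (Fact.out : p.Prime).pos
  obtain ⟨n, rfl⟩ : ∃ n', n = n' + 1 := ⟨n - 1, by omega⟩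
  obtain ⟨t, rfl⟩ : ∃ t', t = t' + 1 := ⟨t - 1, by omega⟩
  have e1 : t + 1 + (n + 1) - 1 = t + (n + 1) := by omega
  have e2 : a + (n + 1) - 1 = a + n := by omega
  rw [e1] at hmu
  rw [e2]
  obtain ⟨q, hq'⟩ : ∃ q', p ^ e = q' + 1 := ⟨p ^ e - 1, by omega⟩
  rw [hq'] at hmu hD hB ⊢
  simp only [Nat.add_sub_cancel] at hB
  have hv1 := hmu v hv
  have hmt : t + 1 ≤ mu v g := by
    by_contra hcon
    have hle : mu v g ≤ t := by omega
    have h1 : (q + 1) * mu v g ≤ (q + 1) * t := Nat.mul_le_mul_left _ hle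
    nlinarith
  obtain ⟨j, hj⟩ := Nat.exists_eq_add_of_le hmt
  have hgv : ∀ w ∈ Z, g ∈ mI w ^ (t + 1 + j) := by
    intro w hw
    rw [mem_mI_pow_iff w hg0, ← hj]
    exact hmin w hw
  have hLj := hLS k (n + 1 + 1) (t + 1) a Z hZn ht hL j
  have haj := hLj g d' hg0 hg hgv
  have h2 : (q + 1) * (t + (n + 1)) ≤ (q + 1) * (t + 1 + j) + B := by rw [← hj]; exact hv1
  have h3 : (q + 1) * n ≤ (q + 1) * j + B := by nlinarith
  have h4 : (q + 1) * (a + j) ≤ (q + 1) * d' := Nat.mul_le_mul_left _ haj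
  nlinarith

/-- sets outside the hyperplane `x_0 = 0` -/
lemma CP_core (hBL : St_BL.{u}) (hLS : St_LS.{u}) (k : Type u) [Field k] [IsAlgClosed k] (p : ℕ)
    [Fact p.Prime] [CharP k p] (n t a m d : ℕ) (Z : Set (Fin (n + 1) → k)) (hn : 1 ≤ n) (ht : 1 ≤ t)
    (hZ : Z.Finite) (hZn : Z.Nonempty) (hZ0 : ∀ v ∈ Z, v 0 ≠ 0) (hL : LowT Z t a)
    (F : MvPolynomial (Fin (n + 1)) k) (hF0 : F ≠ 0) (hF : F.IsHomogeneous d)
    (hFv : ∀ v ∈ Z, F ∈ mI v ^ m) : m * (a + n - 1) ≤ d * (t + n - 1) := by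
  by_contra hcon
  rw [not_le] at hcon
  have hm : 1 ≤ m := by
    rcases Nat.eq_zero_or_pos m with h | h
    · subst h
      omega
    · exact h
  have hp := (Fact.out : p.Prime).one_lt
  have hq : d * m < p ^ (d * m) := Nat.lt_pow_self hp
  set e := d * m with he
  set q := p ^ e with hqd
  set s := t + n - 1 with hs
  set b := a + n - 1 with hb
  set M := (q * s + m - 1) / m with hM
  have hM1 : M * m ≤ q * s + m - 1 := Nat.div_mul_le_self _ _
  have hM2 : q * s ≤ M * m := by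
    have h1 : q * s + m - 1 < m * (M + 1) := by
      rw [hM]
      exact Nat.lt_mul_div_succ _ (by omega)
    have h2 : m * (M + 1) = M * m + m := by ring
    omega
  have h1 := CP_star hBL hLS k p n t a Z hn ht hZ hZn hZ0 hL e (d * M) (F ^ M) (pow_ne_zero _ hF0)
    (hF.pow M) (by
      intro v hv
      have h2 : F ^ M ∈ (mI v ^ m) ^ M := Ideal.pow_mem_pow (hFv v hv) M
      rw [← pow_mul] at h2
      exact Ideal.pow_le_pow_right (by rw [mul_comm m M]; exact hM2) h2)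
  have h2 : m * (q * b) ≤ m * (d * M) := Nat.mul_le_mul_left _ h1
  have h3 : d * (M * m) ≤ d * (q * s + m - 1) := Nat.mul_le_mul_left _ hM1
  obtain ⟨m', rfl⟩ : ∃ m', m = m' + 1 := ⟨m - 1, by omega⟩
  have e3 : q * s + (m' + 1) - 1 = q * s + m' := by omega
  rw [e3] at h3
  -- `q ((m'+1) b - d s) ≤ d m'`
  obtain ⟨c, hc⟩ := Nat.exists_eq_add_of_lt hcon
  have h4 : q * ((m' + 1) * b) ≤ q * (d * s) + d * m' := by nlinarith
  rw [hc] at h4
  have h5 : q ≤ d * m' := by nlinarith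
  have h6 : d * m' ≤ d * (m' + 1) := Nat.mul_le_mul_left _ (by omega)
  omega

theorem t_CP (hBL : St_BL.{u}) (hLS : St_LS.{u}) (hSU : St_SU.{u}) (hCO : St_CO.{u}) : St_CP.{u} := by
  intro k _ _ p _ _ n t a m d Z F hn ht hZ hZn hZ0 hL hF0 hF hFv
  have : Infinite k := IsAlgClosed.instInfinite
  obtain ⟨e, he⟩ := hCO k n Z hZ hZ0
  obtain ⟨s1, s2, -, s4, -, -⟩ := hSU k (n + 1) e
  obtain ⟨r1, r2, -, r4, -, -⟩ := hSU k (n + 1) e.symm
  have hne : ∀ G : MvPolynomial (Fin (n + 1)) k, G ≠ 0 → sub e G ≠ 0 := by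
    intro G hG h
    exact hG (s1 (by rw [h, map_zero]))
  have hne' : ∀ G : MvPolynomial (Fin (n + 1)) k, G ≠ 0 → sub e.symm G ≠ 0 := by
    intro G hG h
    exact hG (r1 (by rw [h, map_zero]))
  apply CP_core hBL hLS k p n t a m d (e.symm '' Z) hn ht (hZ.image _) (hZn.image _) _ _
    (sub e F) (hne F hF0) (s2 F d hF)
  · rintro _ ⟨v, hv, rfl⟩
    rw [s4, LinearEquiv.apply_symm_apply]
    exact hFv v hv
  · rintro _ ⟨v, hv, rfl⟩
    exact he v hv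
  · intro G D hG0 hG hGv
    apply hL (sub e.symm G) D (hne' G hG0) (r2 G D hG)
    intro v hv
    rw [r4]
    exact hGv _ ⟨v, hv, rfl⟩

end Pool.Agent.H580C
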