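import Pool.Agent.H580C.CH.Props

set_option autoImplicit false

universe u

namespace Pool.Agent.H580C

open MvPolynomial Pool.Agent.Chud

namespace DDL

variable {k : Type*} [Field k] {σ : Type*}

/-- bihomogeneity of total degree `d` -/
def P (d : ℕ) (p : Polynomial (MvPolynomial σ k)) : Prop :=
  ∀ (j : ℕ) (m : σ →₀ ℕ), coeff m (p.coeff j) ≠ 0 → m.degree + j = d

theorem P_zero (d : ℕ) : P d (0 : Polynomial (MvPolynomial σ k)) := by
  intro j m h
  simp at h

theorem P_add {d : ℕ} {p q : Polynomial (MvPolynomial σ k)} (hp : P d p) (hq : P d q) :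
    P d (p + q) := by
  intro j m h
  rw [Polynomial.coeff_add, coeff_add] at h
  by_cases h1 : coeff m (p.coeff j) = 0
  · rw [h1, zero_add] at h
    exact hq j m h
  · exact hp j m h1

theorem P_mul {d e : ℕ} {p q : Polynomial (MvPolynomial σ k)} (hp : P d p) (hq : P e q) :
    P (d + e) (p * q) := by
  classical
  intro j m h
  rw [Polynomial.coeff_mul, coeff_sum] at h
  obtain ⟨x, hx, h1⟩ := Finset.exists_ne_zero_of_sum_ne_zero h
  rw [coeff_mul] at h1
  obtain ⟨y, hy, h2⟩ := Finset.exists_ne_zero_of_sum_ne_zero h1
  have h3 := hp _ _ (left_ne_zero_of_mul h2)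
  have h4 := hq _ _ (right_ne_zero_of_mul h2)
  rw [Finset.HasAntidiagonal.mem_antidiagonal] at hx hy
  rw [← hy, ← hx, map_add, ← h3, ← h4]
  ring

theorem P_C (c : k) : P 0 (Polynomial.C (C c : MvPolynomial σ k)) := by
  classical
  intro j m h
  rw [Polynomial.coeff_C] at h
  split_ifs at h with hj
  · rw [coeff_C] at h
    split_ifs at h with hm
    · rw [← hm, hj]; simp
    · exact absurd rfl h
  · simp at h

theorem P_X (v : σ → k) (i : σ) : P 1 (dir v (X i)) := by
  classical
  intro j m h
  unfold dir at h
  rw [aeval_X, Polynomial.coeff_add, coeff_add, Polynomial.coeff_C, Polynomial.coeff_C_mul,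
    Polynomial.coeff_X] at h
  by_cases hj : j = 0
  · subst hj
    simp only [if_true] at h
    rw [if_neg (by norm_num), mul_zero, coeff_zero, add_zero, coeff_X] at h
    split_ifs at h with hm
    · rw [← hm]; simp
    · exact absurd rfl h
  · rw [if_neg hj, coeff_zero, zero_add] at h
    split_ifs at h with hj1
    · rw [mul_one, coeff_C] at h
      split_ifs at h with hm
      · rw [← hm, ← hj1]; simp
      · exact absurd rfl h
    · rw [mul_zero, coeff_zero] at h
      exact absurd rfl h

theorem P_pow (v : σ → k) (i : σ) (n : ℕ) : P n (dir v (X i ^ n)) := by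
  induction n with
  | zero =>
    have := P_C (σ := σ) (1 : k)
    simpa using this
  | succ n ih =>
    rw [pow_succ, map_mul]
    exact P_mul ih (P_X v i)

theorem dir_C (v : σ → k) (c : k) : dir v (C c) = Polynomial.C (C c) := by
  unfold dir
  rw [algHom_C]
  rfl

theorem P_monomial1 (v : σ → k) (s : σ →₀ ℕ) : P s.degree (dir v (monomial s (1 : k))) := by
  induction s using Finsupp.induction_linear with
  | zero =>
    have := P_C (σ := σ) (1 : k)
    simpa using this
  | add s t hs ht =>
    have e : (monomial (s + t) (1 : k)) = monomial s 1 * monomial t 1 := by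
      rw [monomial_mul, one_mul]
    rw [e, map_mul, map_add]
    exact P_mul hs ht
  | single i n =>
    have e : (monomial (Finsupp.single i n) (1 : k)) = X i ^ n := by
      rw [X_pow_eq_monomial]
    rw [e]
    have := P_pow v i n
    simpa using this

theorem P_monomial (v : σ → k) (s : σ →₀ ℕ) (c : k) : P s.degree (dir v (monomial s c)) := by
  have e : (monomial s c) = C c * monomial s 1 := by
    rw [C_mul_monomial, mul_one]
  rw [e, map_mul, dir_C]
  have := P_mul (P_C (σ := σ) c) (P_monomial1 v s)
  simpa using this

theorem P_dir (v : σ → k) {F : MvPolynomial σ k} {d : ℕ} (hF : F.IsHomogeneous d) :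
    P d (dir v F) := by
  classical
  rw [F.as_sum, map_sum]
  have : ∀ s : Finset (σ →₀ ℕ), s ⊆ F.support →
      P d (∑ x ∈ s, dir v (monomial x (coeff x F))) := by
    intro s
    induction s using Finset.induction_on with
    | empty => intro _; simpa using P_zero d
    | insert a s ha ih =>
      intro hs
      rw [Finset.sum_insert ha]
      apply P_add
      · have h1 : a ∈ F.support := hs (Finset.mem_insert_self a s)
        have h2 : a.degree = d := by
          have h3 := hF (mem_support_iff.1 h1)
          rw [← h3, Finsupp.degree_eq_weight_one]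
          rfl
        rw [← h2]
        exact P_monomial v a _
      · exact ih (fun x hx => hs (Finset.mem_insert_of_mem hx))
  exact this _ (Finset.Subset.refl _)

theorem eval_one_dir (v : σ → k) (F : MvPolynomial σ k) :
    Polynomial.eval 1 (dir v F) = Chud.trans v F := by
  have : (Polynomial.evalRingHom (1 : MvPolynomial σ k)).comp (dir v).toRingHom =
      (Chud.trans v).toRingHom := by
    apply MvPolynomial.ringHom_ext
    · intro r
      change Polynomial.eval 1 (dir v (C r)) = Chud.trans v (C r)
      rw [dir_C, Polynomial.eval_C]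
      unfold Chud.trans
      rw [algHom_C]; rfl
    · intro i
      change Polynomial.eval 1 (dir v (X i)) = Chud.trans v (X i)
      unfold dir Chud.trans
      rw [aeval_X, aeval_X]
      simp
  exact DFunLike.congr_fun this F

theorem coeff_trans {v : σ → k} {F : MvPolynomial σ k} {d : ℕ} (hF : F.IsHomogeneous d)
    {m : σ →₀ ℕ} {j : ℕ} (hj : coeff m ((dir v F).coeff j) ≠ 0) :
    coeff m (Chud.trans v F) = coeff m ((dir v F).coeff j) := by
  rw [← eval_one_dir, Polynomial.eval_eq_sum_range, coeff_sum]
  have hP := P_dir v hF
  have hjd := hP j m hj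
  rw [Finset.sum_eq_single j]
  · simp
  · intro i _ hi
    rw [one_pow, mul_one]
    by_contra h
    have := hP i m h
    omega
  · intro h
    exfalso
    apply hj
    rw [Finset.mem_range, not_lt] at h
    rw [Polynomial.coeff_eq_zero_of_natDegree_lt (by omega), coeff_zero]

theorem part1 (v : σ → k) {F : MvPolynomial σ k} {d m : ℕ} (hF : F.IsHomogeneous d)
    (hm : F ∈ mI v ^ m) : (dir v F).natDegree ≤ d - m := by
  rw [Polynomial.natDegree_le_iff_coeff_eq_zero]
  intro j hj
  ext x
  rw [coeff_zero]
  by_contra h
  have h1 := P_dir v hF j x h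
  have h2 := coeff_trans hF h
  rw [mI_pow_eq_comap, Ideal.mem_comap] at hm
  change transE v F ∈ _ at hm
  rw [transE_apply, mem_pow_idealOfVars_iff'] at hm
  have h3 := hm x (by omega)
  rw [h2] at h3
  exact h h3

theorem coeff_zero_dir (v : σ → k) (F : MvPolynomial σ k) : (dir v F).coeff 0 = F := by
  have : (Polynomial.constantCoeff).comp (dir v).toRingHom =
      RingHom.id (MvPolynomial σ k) := by
    apply MvPolynomial.ringHom_ext
    · intro r
      change (dir v (C r)).coeff 0 = C r
      rw [dir_C, Polynomial.coeff_C_zero]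
    · intro i
      change (dir v (X i)).coeff 0 = X i
      unfold dir
      rw [aeval_X]
      simp
  exact DFunLike.congr_fun this F

theorem two_var (v : σ → k) (F : MvPolynomial σ k) :
    (dir v F).map (dir v).toRingHom =
      Polynomial.taylor (Polynomial.X) ((dir v F).map Polynomial.C) := by
  have : (Polynomial.mapRingHom (dir v).toRingHom).comp (dir v).toRingHom =
      (Polynomial.compRingHom (Polynomial.X + Polynomial.C Polynomial.X)).comp
        ((Polynomial.mapRingHom Polynomial.C).comp (dir v).toRingHom) := by
    apply MvPolynomial.ringHom_ext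
    · intro r
      change (dir v (C r)).map (dir v).toRingHom =
        ((dir v (C r)).map Polynomial.C).comp (Polynomial.X + Polynomial.C Polynomial.X)
      rw [dir_C, Polynomial.map_C, Polynomial.map_C, Polynomial.C_comp]
      change Polynomial.C (dir v (C r)) = _
      rw [dir_C]
    · intro i
      change (dir v (X i)).map (dir v).toRingHom =
        ((dir v (X i)).map Polynomial.C).comp (Polynomial.X + Polynomial.C Polynomial.X)
      have e : dir v (X i) = Polynomial.C (X i) + Polynomial.C (C (v i)) * Polynomial.X := by
        unfold dir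
        rw [aeval_X]
      have e1 : (dir v).toRingHom (X i) =
        Polynomial.C (X i) + Polynomial.C (C (v i)) * Polynomial.X := e
      have e2 : (dir v).toRingHom (C (v i)) = Polynomial.C (C (v i)) := dir_C v (v i)
      rw [e]
      simp only [Polynomial.map_add, Polynomial.map_C, Polynomial.map_mul, Polynomial.map_X,
        Polynomial.add_comp, Polynomial.C_comp, Polynomial.mul_comp, Polynomial.X_comp, e1, e2,
        Polynomial.C_add, Polynomial.C_mul]
      ring
  have h := DFunLike.congr_fun this F
  rw [Polynomial.taylor_apply]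
  exact h

theorem part2 (v : σ → k) (F : MvPolynomial σ k) {D : ℕ} (hD : (dir v F).natDegree ≤ D) :
    (dir v ((dir v F).coeff D)).natDegree = 0 := by
  rcases hD.lt_or_eq with h | h
  · rw [Polynomial.coeff_eq_zero_of_natDegree_lt h, map_zero, Polynomial.natDegree_zero]
  · have h1 := two_var v F
    have h2 := congrArg (fun p => Polynomial.coeff p D) h1
    simp only [Polynomial.coeff_map] at h2
    have h3 : ((dir v F).map (Polynomial.C : MvPolynomial σ k →+* _)).natDegree = D := by
      rw [Polynomial.natDegree_map_eq_of_injective Polynomial.C_injective, h]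
    have h4 := Polynomial.coeff_taylor_natDegree (Polynomial.X : Polynomial (MvPolynomial σ k))
      ((dir v F).map (Polynomial.C : MvPolynomial σ k →+* _))
    rw [h3] at h4
    rw [h4, Polynomial.leadingCoeff, h3, Polynomial.coeff_map] at h2
    change dir v ((dir v F).coeff D) = _ at h2
    rw [h2, Polynomial.natDegree_C]

theorem eval_dir (v x : σ → k) (s : k) (F : MvPolynomial σ k) :
    Polynomial.eval₂ (eval x) s (dir v F) = eval (x + s • v) F := by
  have : (Polynomial.eval₂RingHom (eval x) s).comp (dir v).toRingHom =
      eval (x + s • v) := by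
    apply MvPolynomial.ringHom_ext
    · intro r
      change Polynomial.eval₂ (eval x) s (dir v (C r)) = eval (x + s • v) (C r)
      rw [dir_C, Polynomial.eval₂_C, eval_C, eval_C]
    · intro i
      change Polynomial.eval₂ (eval x) s (dir v (X i)) = eval (x + s • v) (X i)
      unfold dir
      rw [aeval_X, Polynomial.eval₂_add, Polynomial.eval₂_C, Polynomial.eval₂_mul,
        Polynomial.eval₂_C, Polynomial.eval₂_X, eval_X, eval_X, eval_C, Pi.add_apply,
        Pi.smul_apply, smul_eq_mul, mul_comm]
  exact DFunLike.congr_fun this F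

end DDL

theorem t_DD : St_DD.{u} := by
  intro k _ N v F
  refine ⟨fun d m _ hF hm => DDL.part1 v hF hm, fun D hD => DDL.part2 v F hD,
    DDL.coeff_zero_dir v F, ?_, ?_⟩
  · rintro G hF0 ⟨H, rfl⟩ h0
    have hG0 : G ≠ 0 := left_ne_zero_of_mul hF0
    have hH0 : H ≠ 0 := right_ne_zero_of_mul hF0
    have hG : dir v G ≠ 0 := fun h => hG0 (by rw [← DDL.coeff_zero_dir v G, h]; simp)
    have hH : dir v H ≠ 0 := fun h => hH0 (by rw [← DDL.coeff_zero_dir v H, h]; simp)
    rw [map_mul, Polynomial.natDegree_mul hG hH] at h0
    omega
  · intro h0 x s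
    rw [← DDL.eval_dir, Polynomial.eq_C_of_natDegree_eq_zero h0, DDL.coeff_zero_dir,
      Polynomial.eval₂_C]

end Pool.Agent.H580C
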