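import Pool.Agent.H580C.CH.Props
import Pool.Agent.Chud.PB2
import Pool.Agent.Chud.PD1

set_option autoImplicit false

universe u

namespace Pool.Agent.H580C

open MvPolynomial Pool.Agent.Chud

theorem t_DL : St_DL.{u} := by
  intro k _ _ N d F hF0 hF hd
  have hnu : ¬ IsUnit F := by
    intro hu
    have h1 : F.totalDegree = d := hF.totalDegree hF0
    have h2 : F.totalDegree = 0 := by
      obtain ⟨c, hc, rfl⟩ := MvPolynomial.isUnit_iff_eq_C_of_isReduced.mp hu
      exact totalDegree_C _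
    omega
  obtain ⟨P, hP, F', hFP⟩ := WfDvdMonoid.exists_irreducible_factor hnu hF0
  obtain ⟨i, hi⟩ := exists_pderiv_ne_zero hP
  have hP0 : P ≠ 0 := hP.ne_zero
  have hF'0 : F' ≠ 0 := by
    rintro rfl
    exact hF0 (by rw [hFP, mul_zero])
  have hPh : P.IsHomogeneous P.totalDegree := homog_of_dvd hF hF0 ⟨F', hFP⟩
  have hF'h : F'.IsHomogeneous F'.totalDegree := homog_of_dvd hF hF0 ⟨P, by rw [hFP, mul_comm]⟩
  have hdeg : P.totalDegree + F'.totalDegree = d := by
    have h1 := hPh.mul hF'h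
    rw [← hFP] at h1
    exact h1.inj_right hF hF0
  have hP1 : P.totalDegree ≠ 0 := by
    intro h0
    apply hi
    rw [totalDegree_eq_zero_iff_eq_C.mp h0, pderiv_C]
  refine ⟨pderiv i P * F', mul_ne_zero hi hF'0, ?_, ?_⟩
  · have h1 := (hPh.pderiv (i := i)).mul hF'h
    have h2 : P.totalDegree - 1 + F'.totalDegree = d - 1 := by omega
    rwa [h2] at h1
  · intro v m hm
    rw [mem_mI_pow_iff v hF0, hFP, mu_mul v hP0 hF'0] at hm
    have h2 : F' ∈ mI v ^ mu v F' := (mem_mI_pow_iff v hF'0 _).mpr le_rfl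
    rcases Nat.eq_zero_or_pos (mu v P) with h0 | h0
    · have h3 : m ≤ mu v F' := by omega
      exact Ideal.mul_mem_left _ _ (Ideal.pow_le_pow_right h3 h2)
    · obtain ⟨a, ha⟩ : ∃ a, mu v P = a + 1 := ⟨mu v P - 1, by omega⟩
      have h3 : P ∈ mI v ^ (a + 1) := (mem_mI_pow_iff v hP0 _).mpr ha.ge
      have h4 := deriv_mem v (pderiv i) a P h3
      have h5 : pderiv i P * F' ∈ mI v ^ (a + mu v F') := by
        rw [pow_add]
        exact Ideal.mul_mem_mul h4 h2
      exact Ideal.pow_le_pow_right (by omega) h5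

end Pool.Agent.H580C
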