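import Pool.Agent.H580C.CH.Props

set_option autoImplicit false

universe u

namespace Pool.Agent.H580C

open MvPolynomial Pool.Agent.Chud

namespace FC

variable {k : Type u} [Field k] {n : ℕ}

/-- the part of `P` with exponents of `x_0` congruent to `D` modulo `q` -/
noncomputable def part (q D : ℕ) (P : MvPolynomial (Fin (n + 1)) k) :
    MvPolynomial (Fin (n + 1)) k :=
  ∑ c ∈ P.support.filter (fun c => c 0 % q = D), monomial c (coeff c P)

theorem coeff_part (q D : ℕ) (P : MvPolynomial (Fin (n + 1)) k) (m : Fin (n + 1) →₀ ℕ) :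
    coeff m (part q D P) = if m 0 % q = D then coeff m P else 0 := by
  classical
  unfold part
  rw [coeff_sum]
  simp only [coeff_monomial]
  rw [Finset.sum_ite_eq']
  by_cases h : m 0 % q = D
  · rw [if_pos h]
    by_cases h' : m ∈ P.support
    · rw [if_pos (Finset.mem_filter.2 ⟨h', h⟩)]
    · rw [if_neg (fun hh => h' (Finset.mem_filter.1 hh).1)]
      exact (notMem_support_iff.1 h').symm
  · have h' : m ∉ P.support.filter (fun c => c 0 % q = D) := fun hh =>
      h (Finset.mem_filter.1 hh).2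
    rw [if_neg h', if_neg h]

theorem part_mul (q D : ℕ) (P U : MvPolynomial (Fin (n + 1)) k) (hU : DvdE q {0} U) :
    part q D (P * U) = part q D P * U := by
  classical
  ext m
  rw [coeff_part, coeff_mul, coeff_mul]
  by_cases h : m 0 % q = D
  · rw [if_pos h]
    refine Finset.sum_congr rfl fun x hx => ?_
    rw [coeff_part]
    by_cases h2 : coeff x.2 U = 0
    · rw [h2, mul_zero, mul_zero]
    · have h3 := hU x.2 (mem_support_iff.2 h2) 0 rfl
      have h4 : x.1 0 + x.2 0 = m 0 := by
        rw [← Finsupp.add_apply, Finset.HasAntidiagonal.mem_antidiagonal.1 hx]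
      obtain ⟨w, hw⟩ := h3
      rw [← h4, hw, Nat.add_mul_mod_self_left] at h
      rw [if_pos h]
  · rw [if_neg h]
    symm
    refine Finset.sum_eq_zero fun x hx => ?_
    rw [coeff_part]
    by_cases h2 : coeff x.2 U = 0
    · rw [h2, mul_zero]
    · have h3 := hU x.2 (mem_support_iff.2 h2) 0 rfl
      have h4 : x.1 0 + x.2 0 = m 0 := by
        rw [← Finsupp.add_apply, Finset.HasAntidiagonal.mem_antidiagonal.1 hx]
      obtain ⟨w, hw⟩ := h3
      rw [← h4, hw, Nat.add_mul_mod_self_left] at h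
      rw [if_neg h, zero_mul]

theorem dir_mono (c : Fin (n + 1) →₀ ℕ) (a : k) :
    dir (e0 k n) (monomial c a) = (Polynomial.X + Polynomial.C (X 0)) ^ (c 0) *
      Polynomial.C (C a * ∏ i : Fin n, X i.succ ^ (c i.succ)) := by
  unfold dir
  rw [aeval_monomial, Finsupp.prod_fintype _ _ (fun i => pow_zero _), Fin.prod_univ_succ]
  have h1 : (e0 k n) 0 = 1 := Pi.single_eq_same _ _
  have h2 : ∀ i : Fin n, (e0 k n) i.succ = 0 := fun i => Pi.single_eq_of_ne (Fin.succ_ne_zero i) _
  have h3 : (algebraMap k (Polynomial (MvPolynomial (Fin (n + 1)) k))) a = Polynomial.C (C a) := rfl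
  rw [h1, h3]
  simp only [h2, map_one, one_mul, map_zero, zero_mul, add_zero, map_mul, map_prod, map_pow]
  ring

theorem mono_eq (c : Fin (n + 1) →₀ ℕ) (a : k) :
    (monomial c a : MvPolynomial (Fin (n + 1)) k) =
      X 0 ^ (c 0) * (C a * ∏ i : Fin n, X i.succ ^ (c i.succ)) := by
  rw [monomial_eq, Finsupp.prod_fintype _ _ (fun i => pow_zero _), Fin.prod_univ_succ]
  ring

theorem part_eq (q D : ℕ) (hD : D < q) (F : MvPolynomial (Fin (n + 1)) k)
    (hF : ∀ c ∈ F.support, c 0 ≤ D) :
    part q D F = X 0 ^ D * (dir (e0 k n) F).coeff D := by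
  classical
  conv_rhs => rw [F.as_sum, map_sum, Polynomial.finsetSum_coeff, Finset.mul_sum]
  unfold part
  rw [Finset.sum_filter]
  refine Finset.sum_congr rfl fun c hc => ?_
  have h1 := hF c hc
  rw [Nat.mod_eq_of_lt (lt_of_le_of_lt h1 hD), dir_mono, Polynomial.coeff_mul_C,
    Polynomial.coeff_X_add_C_pow]
  by_cases h2 : c 0 = D
  · rw [if_pos h2, mono_eq, h2, Nat.choose_self, Nat.sub_self]
    push_cast
    ring
  · rw [if_neg h2, Nat.choose_eq_zero_of_lt (lt_of_le_of_ne h1 h2)]
    push_cast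
    ring

theorem part_hom (q D : ℕ) (hD : D < q) (H : MvPolynomial (Fin (n + 1)) k)
    (hH : H.IsHomogeneous D) : part q D H = X 0 ^ D * C (eval (e0 k n) H) := by
  classical
  conv_rhs => rw [H.as_sum, map_sum, map_sum, Finset.mul_sum]
  unfold part
  rw [Finset.sum_filter]
  refine Finset.sum_congr rfl fun c hc => ?_
  have hdeg : ∑ i, c i = D := by
    have := hH (mem_support_iff.1 hc)
    rw [← this, Finsupp.weight_apply, Finsupp.sum_fintype _ _ (fun i => by simp)]
    simp
  rw [Fin.sum_univ_succ] at hdeg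
  have h1 : c 0 ≤ D := by omega
  rw [Nat.mod_eq_of_lt (lt_of_le_of_lt h1 hD), eval_monomial,
    Finsupp.prod_fintype _ _ (fun i => pow_zero _), Fin.prod_univ_succ, mono_eq]
  have e1 : (e0 k n) 0 = 1 := Pi.single_eq_same _ _
  have e2 : ∀ i : Fin n, (e0 k n) i.succ = 0 := fun i => Pi.single_eq_of_ne (Fin.succ_ne_zero i) _
  rw [e1, one_pow, one_mul]
  simp only [e2]
  by_cases h2 : c 0 = D
  · have h3 : ∀ i : Fin n, c i.succ = 0 := by
      have : ∑ i : Fin n, c i.succ = 0 := by omega
      intro i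
      exact (Finset.sum_eq_zero_iff.1 this) i (Finset.mem_univ i)
    rw [if_pos h2, h2]
    simp [h3]
  · rw [if_neg h2]
    have h3 : ∑ i : Fin n, c i.succ ≠ 0 := by omega
    obtain ⟨i, hi, hi'⟩ := Finset.exists_ne_zero_of_sum_ne_zero h3
    rw [Finset.prod_eq_zero hi (zero_pow hi')]
    simp

end FC

theorem t_FC : St_FC.{u} := by
  intro k _ n q D F H U V hD hE hU hV hF hH
  have h1 := congrArg (FC.part q D) hE
  rw [FC.part_mul q D F U hU, FC.part_mul q D H V hV, FC.part_eq q D hD F hF,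
    FC.part_hom q D hD H hH, mul_assoc, mul_assoc] at h1
  exact mul_left_cancel₀ (pow_ne_zero _ (X_ne_zero 0)) h1

end Pool.Agent.H580C
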