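import Pool.Agent.H580C.CH.Props

set_option autoImplicit false

universe u

namespace Pool.Agent.H580C

open MvPolynomial Pool.Agent.Chud

theorem FE_mul {k : Type u} [Field k] {σ : Type*} {q : ℕ} {T : Set σ} {A B : MvPolynomial σ k}
    (hA : DvdE q T A) (hB : DvdE q T B) : DvdE q T (A * B) := by
  classical
  intro m hm i hi
  have h1 := MvPolynomial.support_mul A B hm
  rw [Finset.mem_add] at h1
  obtain ⟨x, hx, y, hy, rfl⟩ := h1
  rw [Finsupp.add_apply]
  exact dvd_add (hA x hx i hi) (hB y hy i hi)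

theorem FE_one {k : Type u} [Field k] {σ : Type*} {q : ℕ} {T : Set σ} :
    DvdE q T (1 : MvPolynomial σ k) := by
  classical
  intro m hm i _
  have h1 : m = 0 := by
    by_contra hcon
    rw [mem_support_iff, coeff_one, if_neg (Ne.symm hcon)] at hm
    exact hm rfl
  rw [h1]
  exact dvd_zero _

theorem FE_pow {k : Type u} [Field k] {σ : Type*} {q : ℕ} {T : Set σ} {A : MvPolynomial σ k}
    (hA : DvdE q T A) (j : ℕ) : DvdE q T (A ^ j) := by
  induction j with
  | zero => rw [pow_zero]; exact FE_one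
  | succ j ih => rw [pow_succ]; exact FE_mul ih hA

theorem FE_frob {k : Type u} [Field k] {σ : Type*} (p e : ℕ) [Fact p.Prime] [CharP k p]
    (T : Set σ) (F : MvPolynomial σ k) : DvdE (p ^ e) T (F ^ (p ^ e)) := by
  classical
  have h1 : F ^ (p ^ e) = ∑ m ∈ F.support, monomial (p ^ e • m) (coeff m F ^ (p ^ e)) := by
    conv_lhs => rw [F.as_sum]
    rw [sum_pow_char_pow]
    refine Finset.sum_congr rfl fun m _ => ?_
    rw [monomial_pow]
  intro c hc i _
  rw [mem_support_iff, h1, coeff_sum] at hc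
  obtain ⟨m, -, hm⟩ := Finset.exists_ne_zero_of_sum_ne_zero hc
  rw [coeff_monomial] at hm
  have h2 : p ^ e • m = c := by
    by_contra hcon
    rw [if_neg hcon] at hm
    exact hm rfl
  rw [← h2, Finsupp.smul_apply, smul_eq_mul]
  exact dvd_mul_right _ _

theorem FE_exp (p a ν : ℕ) (hp : p.Prime) (hν : 1 ≤ ν) (hpν : ¬ p ∣ ν) :
    ∃ e κ : ℕ, (a - 1) * ν < p ^ e ∧ ν * κ + 1 = p ^ e := by
  have hcop : Nat.Coprime p ν := (Nat.Prime.coprime_iff_not_dvd hp).mpr hpν
  obtain ⟨M, hM⟩ : ∃ M, M = (a - 1) * ν + 1 := ⟨_, rfl⟩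
  have hmod : p ^ (ν.totient * M) ≡ 1 [MOD ν] := by
    have h1 := (Nat.ModEq.pow_totient hcop).pow M
    rwa [← pow_mul, one_pow] at h1
  have hφ : 1 ≤ ν.totient := Nat.totient_pos.mpr hν
  have hbig : (a - 1) * ν < p ^ (ν.totient * M) := by
    have h1 : M < p ^ M := Nat.lt_pow_self hp.one_lt
    have h2 : p ^ M ≤ p ^ (ν.totient * M) := Nat.pow_le_pow_right hp.pos (by nlinarith)
    omega
  have hdvd : ν ∣ p ^ (ν.totient * M) - 1 :=
    (Nat.modEq_iff_dvd' (Nat.one_le_pow _ _ hp.pos)).mp hmod.symm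
  obtain ⟨κ, hκ⟩ := hdvd
  refine ⟨_, κ, hbig, ?_⟩
  have := Nat.one_le_pow (ν.totient * M) p hp.pos
  omega

theorem t_FE (hML : St_ML.{u}) (hFC : St_FC.{u}) (hOE : St_OE.{u}) : St_FE.{u} := by
  intro k _ _ p n a ν _ _ Z ha hν hpν hlow F h hF hFv hh hhv
  have hp : p.Prime := Fact.out
  by_cases hF0 : F = 0
  · rw [hF0, map_zero, mul_zero, Polynomial.coeff_zero, zero_mul]
  obtain ⟨e, κ, hbig, hq⟩ := FE_exp p a ν hp hν hpν
  have hA : DvdE (p ^ e) {0} (h * F ^ κ) := by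
    refine hML k p e n a Z (h * F ^ κ) ha hlow ?_ ?_ ?_
    · have h1 := hh.mul (hF.pow κ)
      have h2 : a - 1 + (a - 1 + n) * ν * κ = (a - 1) * p ^ e + n * (p ^ e - 1) := by
        rw [← hq, Nat.add_sub_cancel]
        ring
      rwa [h2] at h1
    · intro v hv
      have h1 : F ^ κ ∈ mI v ^ (n * (p ^ e - 1)) := by
        have h2 := Ideal.pow_mem_pow (hFv v (Set.mem_insert_of_mem _ hv)) κ
        rw [← pow_mul] at h2
        have h3 : n * ν * κ = n * (p ^ e - 1) := by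
          rw [← hq, Nat.add_sub_cancel]
          ring
        rwa [h3] at h2
      rw [pow_succ, mul_comm h]
      exact Ideal.mul_mem_mul h1 (hhv v hv)
    · refine Ideal.mul_mem_left _ _ ?_
      have h2 := Ideal.pow_mem_pow (hFv _ (Set.mem_insert _ Z)) κ
      rw [← pow_mul] at h2
      have h3 : n * ν * κ = n * (p ^ e - 1) := by
        rw [← hq, Nat.add_sub_cancel]
        ring
      rwa [h3] at h2
  have hU : DvdE (p ^ e) {0} ((h * F ^ κ) ^ ν) := FE_pow hA ν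
  have hV : DvdE (p ^ e) {0} (F ^ (p ^ e)) := FE_frob p e {0} F
  have hid : F * (h * F ^ κ) ^ ν = h ^ ν * F ^ (p ^ e) := by
    rw [← hq, mul_pow, pow_add, pow_one, ← pow_mul, mul_comm κ ν]
    ring
  have hsup : ∀ c ∈ F.support, c 0 ≤ (a - 1) * ν := by
    intro c hc
    have h1 := (hOE k n _ (n * ν) F hF).mp (hFv _ (Set.mem_insert _ Z)) c hc
    rw [add_mul] at h1
    omega
  have hH : (h ^ ν).IsHomogeneous ((a - 1) * ν) := hh.pow ν
  have key := hFC k n (p ^ e) ((a - 1) * ν) F (h ^ ν) _ _ hbig hid hU hV hsup hH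
  have hV0 : F ^ (p ^ e) ≠ 0 := pow_ne_zero _ hF0
  apply mul_right_cancel₀ hV0
  rw [map_pow] at key
  calc C (eval (e0 k n) h ^ ν) * F * F ^ (p ^ e)
      = (C (eval (e0 k n) h ^ ν) * F ^ (p ^ e)) * F := by ring
    _ = ((dir (e0 k n) F).coeff ((a - 1) * ν) * (h * F ^ κ) ^ ν) * F := by rw [key]
    _ = (dir (e0 k n) F).coeff ((a - 1) * ν) * (F * (h * F ^ κ) ^ ν) := by ring
    _ = (dir (e0 k n) F).coeff ((a - 1) * ν) * h ^ ν * F ^ (p ^ e) := by rw [hid]; ring

end Pool.Agent.H580C
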