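import Pool.Agent.H580C.CH.Props

set_option autoImplicit false

universe u

namespace Pool.Agent.H580C

open MvPolynomial Pool.Agent.Chud

theorem t_FP (hFE : St_FE.{u}) (hSU : St_SU.{u}) (hCE : St_CE.{u}) : St_FP.{u} := by
  intro k _ _ p n a ν _ _ v₀ Z hv₀ ha hν hpν
  intro hlow F h hFh hFv hhh hhv
  obtain ⟨e, he⟩ := hCE k n v₀ hv₀
  obtain ⟨hinj, hhom, heval, hord, hdir, -⟩ := hSU k (n + 1) e
  obtain ⟨hinj', hhom', -, hord', -, -⟩ := hSU k (n + 1) e.symm
  have key := hFE k p n a ν (e ⁻¹' Z) ha hν hpν
    (by
      intro G d hG0 hGh hGv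
      refine hlow (sub e.symm G) d ?_ (hhom' G d hGh) ?_
      · intro h0
        exact hG0 (hinj' (by rw [h0, map_zero]))
      · intro v hv
        rw [hord']
        apply hGv
        rcases hv with rfl | hv
        · left
          rw [← he, LinearEquiv.symm_apply_apply]
        · right
          change e (e.symm v) ∈ Z
          rwa [LinearEquiv.apply_symm_apply])
    (sub e F) (sub e h) (hhom F _ hFh)
    (by
      intro v hv
      rw [hord]
      apply hFv
      rcases hv with rfl | hv
      · left
        exact he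
      · right
        exact hv)
    (hhom h _ hhh)
    (by
      intro v hv
      rw [heval]
      exact hhv _ hv)
  rw [heval, he, hdir, he] at key
  apply hinj
  have h1 : sub e (C ((eval v₀ h) ^ ν)) = C ((eval v₀ h) ^ ν) := by
    rw [MvPolynomial.algHom_C, MvPolynomial.algebraMap_eq]
  calc sub e (C ((eval v₀ h) ^ ν) * F) = C ((eval v₀ h) ^ ν) * sub e F := by
        rw [map_mul, h1]
    _ = _ := key
    _ = _ := by rw [map_mul, map_pow]

end Pool.Agent.H580C
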