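import Pool.Agent.H580C.CH.Props

set_option autoImplicit false

universe u

namespace Pool.Agent.H580C

open MvPolynomial Pool.Agent.Chud

namespace FZ

/-- evaluation and a ring homomorphism -/
theorem eval_map_hom {A : Type*} [CommRing A] {B : Type*} [CommRing B] (f : A →+* B) {σ : Type*}
    (v : σ → A) (G : MvPolynomial σ A) : eval (fun i => f (v i)) (map f G) = f (eval v G) := by
  rw [eval_map]
  have := eval₂_comp_left f (RingHom.id A) v G
  rw [RingHom.comp_id] at this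
  rw [show eval v G = eval₂ (RingHom.id A) v G from rfl, this]
  rfl

theorem lift_poly {K : Type*} [Field K] (A : Subring K) {σ : Type*} (F : MvPolynomial σ K)
    (h : ∀ m, coeff m F ∈ A) : ∃ G : MvPolynomial σ A, map A.subtype G = F := by
  have : F ∈ Set.range (MvPolynomial.map (σ := σ) A.subtype) := by
    rw [mem_range_map_iff_coeffs_subset]
    intro x hx
    obtain ⟨m, -, rfl⟩ := mem_coeffs_iff.1 hx
    exact ⟨⟨_, h m⟩, rfl⟩
  exact this

theorem homog_lift {K : Type*} [Field K] (A : Subring K) {σ : Type*} {G : MvPolynomial σ A}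
    {d : ℕ} (h : (map A.subtype G).IsHomogeneous d) : G.IsHomogeneous d := by
  intro m hm
  apply h
  rw [coeff_map]
  intro h0
  apply hm
  exact Subtype.ext h0

end FZ

theorem t_FZ (hFP0 : St_FP.{0}) (hTR : St_TR.{u}) (hMT : St_MT.{u}) : St_FZ.{u} := by
  classical
  intro K _ _ n a ν v₀ Z hZf hv₀ ha hν hLow F h hF hFZ hh hhZ
  by_contra hne
  set P := (dir v₀ F).coeff ((a - 1) * ν) with hP
  have hQ : C ((eval v₀ h) ^ ν) * F - P * h ^ ν ≠ 0 := sub_ne_zero.2 hne
  obtain ⟨m, hm⟩ := MvPolynomial.ne_zero_iff.1 hQ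
  set x : K := coeff m (C ((eval v₀ h) ^ ν) * F - P * h ^ ν) with hx
  let Z1 : Finset (Fin (n + 1) → K) := insert v₀ hZf.toFinset
  have hZ1 : (Z1 : Set (Fin (n + 1) → K)) = insert v₀ Z := by simp [Z1]
  obtain ⟨p, hpF, k, hk, hkA, hkC, A, φ, hpν, hL, hZA, hD, hDne, hLT⟩ :=
    hTR K n 1 a ν Z1 {F, h} (insert x (Finset.univ.image v₀)) (by rw [hZ1]; exact hLow)
  have hinj : Function.Injective A.subtype := Subtype.val_injective
  obtain ⟨FA, hFA⟩ := FZ.lift_poly A F (hL F (by simp))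
  obtain ⟨hA, hhA⟩ := FZ.lift_poly A h (hL h (by simp))
  have hv0A : ∀ i, v₀ i ∈ A := hZA v₀ (Finset.mem_insert_self _ _)
  let w : Fin (n + 1) → A := fun i => ⟨v₀ i, hv0A i⟩
  have hw : (fun i => A.subtype (w i)) = v₀ := rfl
  obtain ⟨PA, hPA1, hPA2⟩ := (hMT A K k A.subtype φ hinj (n + 1) w FA).2 ((a - 1) * ν)
  rw [hw, hFA] at hPA1
  -- the reduced point is not zero
  have hw0 : (fun i => φ (w i)) ≠ 0 := by
    intro h0
    apply hv₀
    funext i
    by_contra hi
    have h1 := hDne (v₀ i) (Finset.mem_insert_of_mem (Finset.mem_image_of_mem _ (Finset.mem_univ i)))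
      hi (hv0A i)
    exact h1 (congrFun h0 i)
  let Z' : Set (Fin (n + 1) → k) :=
    {y | ∃ v ∈ Z, ∃ hv : ∀ i, v i ∈ A, y = fun i => φ ⟨v i, hv i⟩}
  have hLow' : LowT (insert (fun i => φ (w i)) Z') 1 a := by
    apply hLT
    intro v hv
    refine ⟨hZA v hv, ?_⟩
    rcases Finset.mem_insert.1 hv with rfl | hv'
    · exact Set.mem_insert _ _
    · exact Set.mem_insert_of_mem _ ⟨v, hZf.mem_toFinset.1 hv', hZA v hv, rfl⟩
  have hpd : ¬ p ∣ ν := fun hd => by
    have := Nat.le_of_dvd (by omega) hd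
    omega
  have hFAh : FA.IsHomogeneous ((a - 1 + n) * ν) := FZ.homog_lift A (by rw [hFA]; exact hF)
  have hhAh : hA.IsHomogeneous (a - 1) := FZ.homog_lift A (by rw [hhA]; exact hh)
  have key := hFP0 k p n a ν (fun i => φ (w i)) Z' hw0 ha hν hpd hLow' (map φ FA) (map φ hA)
    (hFAh.map φ) (by
      intro y hy
      rcases hy with rfl | ⟨v, hv, hvA, rfl⟩
      · refine (hMT A K k A.subtype φ hinj (n + 1) w FA).1 _ ?_
        rw [hw, hFA]
        exact hFZ v₀ (Set.mem_insert _ _)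
      · refine (hMT A K k A.subtype φ hinj (n + 1) (fun i => ⟨v i, hvA i⟩) FA).1 _ ?_
        rw [hFA]
        exact hFZ v (Set.mem_insert_of_mem _ hv))
    (hhAh.map φ) (by
      rintro y ⟨v, hv, hvA, rfl⟩
      rw [FZ.eval_map_hom φ (fun i => (⟨v i, hvA i⟩ : A)) hA]
      have h1 : A.subtype (eval (fun i => (⟨v i, hvA i⟩ : A)) hA) = 0 := by
        rw [← FZ.eval_map_hom, hhA]
        exact hhZ v hv
      rw [hinj (h1.trans (map_zero _).symm), map_zero])
  -- the identity over `A`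
  set QA : MvPolynomial (Fin (n + 1)) A := C ((eval w hA) ^ ν) * FA - PA * hA ^ ν with hQA
  have h1 : map φ QA = 0 := by
    rw [hQA, map_sub, map_mul, map_mul, map_C, map_pow φ, map_pow (map φ), hPA2, ← FZ.eval_map_hom φ w hA,
      key, sub_self]
  have he : A.subtype (eval w hA) = eval v₀ h := by
    rw [← FZ.eval_map_hom, hhA, hw]
  have h2 : map A.subtype QA = C ((eval v₀ h) ^ ν) * F - P * h ^ ν := by
    rw [hQA, map_sub, map_mul, map_mul, map_C, map_pow A.subtype, map_pow (map A.subtype), hPA1,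
      hFA, hhA, he]
  have h3 : ((coeff m QA : A) : K) = x := by
    rw [hx, ← h2, coeff_map]
    rfl
  have h4 := hDne x (Finset.mem_insert_self _ _) hm (h3 ▸ (coeff m QA).2)
  apply h4
  have h5 : (⟨x, h3 ▸ (coeff m QA).2⟩ : A) = coeff m QA := Subtype.ext h3.symm
  rw [h5, ← coeff_map, h1, coeff_zero]

end Pool.Agent.H580C
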