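import Pool.Agent.H580C.CH.Props

set_option autoImplicit false

universe u

namespace Pool.Agent.H580C

open MvPolynomial Pool.Agent.Chud

theorem t_G1 (hG0 : St_G0.{u}) : St_G1.{u} := by
  classical
  intro k _ _ N a ν S F h FP hE G hG hGF
  obtain ⟨⟨p₀, hp₀, hp₀G⟩, hGν, l, hl0, hl1, hl⟩ := hG0 k N a ν S F h FP hE G hG hGF
  have hprime : Prime G := hG.prime
  have hG0' : G ≠ 0 := hG.ne_zero
  obtain ⟨b, F', hF', hnd⟩ : ∃ (b : ℕ) (F' : MvPolynomial (Fin (N + 1)) k), F = G ^ b * F' ∧ ¬ G ∣ F' := by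
    have hfin : FiniteMultiplicity G F := FiniteMultiplicity.of_prime_left hprime hE.F0
    obtain ⟨c, hc, hc'⟩ := hfin.exists_eq_pow_mul_and_not_dvd
    exact ⟨_, c, hc, hc'⟩
  have hF'0 : F' ≠ 0 := by
    rintro rfl
    exact hnd (dvd_zero _)
  have hGh : G.IsHomogeneous G.totalDegree := homog_of_dvd hE.Fh hE.F0 hGF
  have hF'h : F'.IsHomogeneous F'.totalDegree :=
    homog_of_dvd hE.Fh hE.F0 ⟨G ^ b, by rw [hF']; ring⟩
  have hg1 : 1 ≤ G.totalDegree := by
    by_contra hcon
    have h1 : G.totalDegree = 0 := by omega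
    apply hG.not_isUnit
    rw [totalDegree_eq_zero_iff_eq_C] at h1
    rw [h1]
    refine (IsUnit.mk0 _ ?_).map C
    intro h2
    rw [h2, C_0] at h1
    exact hG0' h1
  have hdeg : (a - 1 + N) * ν = b * G.totalDegree + F'.totalDegree := by
    rw [← hE.Fh.totalDegree hE.F0]
    conv_lhs => rw [hF']
    rw [totalDegree_mul_of_isDomain (pow_ne_zero _ hG0') hF'0, (hGh.pow b).totalDegree (pow_ne_zero _ hG0')]
    ring
  have hbν : ν ≤ b := by
    by_contra hcon
    apply hnd
    have h1 : G ^ (b + 1) ∣ F := (pow_dvd_pow G (by omega)).trans hGν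
    rw [hF', pow_succ] at h1
    exact (mul_dvd_mul_iff_left (pow_ne_zero _ hG0')).mp h1
  have hmupow : ∀ (v : Fin (N + 1) → k), mu v G = 0 → mu v F = mu v F' := by
    intro v hv
    have h1 : ∀ j : ℕ, mu v (G ^ j) = 0 := by
      intro j
      induction j with
      | zero =>
        have h1 := mu_mul v (one_ne_zero (α := MvPolynomial (Fin (N + 1)) k))
          (one_ne_zero (α := MvPolynomial (Fin (N + 1)) k))
        rw [mul_one] at h1
        rw [pow_zero]
        omega
      | succ j ih => rw [pow_succ, mu_mul v (pow_ne_zero _ hG0') hG0', ih, hv]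
    rw [hF', mu_mul v (pow_ne_zero _ hG0') hF'0, h1, zero_add]
  have hchud := hE.chud (S.filter fun p => eval p.rep G ≠ 0)
    ⟨p₀, Finset.mem_filter.mpr ⟨hp₀, hp₀G⟩⟩ (a - 1) (by
      intro f δ hf hfh hfv
      have h1 := hE.low (f * l) (δ + 1) (mul_ne_zero hf hl0) (hfh.mul hl1) (by
        rintro v ⟨p, hp, rfl⟩
        rw [pow_one]
        by_cases hpG : eval p.rep G = 0
        · exact Ideal.mul_mem_left _ _ (hl p hp hpG)
        · refine Ideal.mul_mem_right _ _ ?_
          have h2 := hfv p.rep ⟨p, Finset.mem_filter.mpr ⟨hp, hpG⟩, rfl⟩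
          rwa [pow_one] at h2)
      omega) F' F'.totalDegree (N * ν) hF'0 hF'h (by
      intro p hp
      rw [Finset.mem_filter] at hp
      have h1 := hE.Fv p hp.1
      rw [mem_mI_pow_iff _ hE.F0] at h1
      rw [mem_mI_pow_iff _ hF'0, ← hmupow p.rep ?_]
      · exact h1
      · by_contra hcon
        exact hp.2 ((mu_pos_iff p.rep hG0').mp (Nat.pos_of_ne_zero hcon)))
  have hN := hE.hN
  have ha := hE.ha
  have hν := hE.hν
  have key : b * G.totalDegree ≤ ν := by
    have h1 : N * ν * (a - 1 + N - 1) + N * (b * G.totalDegree) ≤ N * ((a - 1 + N) * ν) := by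
      rw [hdeg]
      nlinarith
    have h2 : N * ((a - 1 + N) * ν) = N * ν * (a - 1 + N - 1) + N * ν := by
      obtain ⟨t, ht⟩ : ∃ t, a - 1 + N = t + 1 := ⟨a - 1 + N - 1, by omega⟩
      rw [ht, Nat.add_sub_cancel]
      ring
    have h3 : N * (b * G.totalDegree) ≤ N * ν := by omega
    exact Nat.le_of_mul_le_mul_left h3 (by omega)
  have hb0 : 0 < b := by omega
  have hg : G.totalDegree = 1 := by
    have h1 : b * G.totalDegree ≤ b * 1 := by omega
    have := Nat.le_of_mul_le_mul_left h1 hb0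
    omega
  have hbeq : b = ν := by
    rw [hg] at key
    omega
  refine ⟨by rw [hg] at hGh; exact hGh, hGν, ?_⟩
  intro h1
  rw [hF', hbeq, pow_succ] at h1
  exact hnd ((mul_dvd_mul_iff_left (pow_ne_zero _ hG0')).mp h1)

end Pool.Agent.H580C
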