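import Pool.Agent.H580C.CH.Props

set_option autoImplicit false

universe u

namespace Pool.Agent.H580C

open MvPolynomial Pool.Agent.Chud

theorem t_G2 : St_G2.{u} := by
  classical
  intro k _ N s
  induction s with
  | zero =>
    intro ν F hν hF0 hF hG
    rw [Nat.zero_mul] at hF
    have h1 : F.totalDegree = 0 := hF.totalDegree hF0
    have h2 := totalDegree_eq_zero_iff_eq_C.1 h1
    refine ⟨∅, coeff 0 F, ?_, Finset.card_empty, ?_⟩
    · intro h3
      rw [h3, C_0] at h2
      exact hF0 h2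
    · rw [Finset.prod_empty, mul_one]
      exact h2
  | succ s ih =>
    intro ν F hν hF0 hF hG
    have hdeg : F.totalDegree = (s + 1) * ν := hF.totalDegree hF0
    have hnu : ¬ IsUnit F := by
      intro hu
      have h2 := (isUnit_iff_totalDegree_of_isReduced.1 hu).2
      rw [hdeg] at h2
      have h3 : 0 < (s + 1) * ν := Nat.mul_pos (Nat.succ_pos _) hν
      omega
    obtain ⟨G, hGi, hGd⟩ := WfDvdMonoid.exists_irreducible_factor hnu hF0
    obtain ⟨l, c', hc', hGl⟩ := exists_lin (hG G hGi hGd).1 hGi.ne_zero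
    have hlG : lin l ∣ G := by
      rw [hGl]
      exact Dvd.intro_left _ rfl
    obtain ⟨_, hl1, hl2⟩ := hG (lin l) (lin_irreducible l) (hlG.trans hGd)
    obtain ⟨F', hF'⟩ := hl1
    have hF'0 : F' ≠ 0 := by
      intro h
      rw [h, mul_zero] at hF'
      exact hF0 hF'
    have hF'd : F' ∣ F := by
      rw [hF']
      exact Dvd.intro_left _ rfl
    have hF'h1 := homog_of_dvd hF hF0 hF'd
    have hlin : (lin l ^ ν).IsHomogeneous (1 * ν) := (lin_homog l).pow ν
    have hmul := hlin.mul hF'h1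
    rw [← hF'] at hmul
    have hdeq := hmul.inj_right hF hF0
    have hdeq2 : F'.totalDegree = s * ν := by
      rw [Nat.add_mul, Nat.one_mul] at hdeq
      omega
    rw [hdeq2] at hF'h1
    have hnl : ¬ lin l ∣ F' := by
      rintro ⟨K, hK⟩
      apply hl2
      refine ⟨K, ?_⟩
      rw [hF', hK]
      ring
    have hyp : ∀ G : MvPolynomial (Fin (N + 1)) k, Irreducible G → G ∣ F' →
        G.IsHomogeneous 1 ∧ G ^ ν ∣ F' ∧ ¬ G ^ (ν + 1) ∣ F' := by
      intro G' hi hd
      obtain ⟨h1, h2, h3⟩ := hG G' hi (hd.trans hF'd)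
      refine ⟨h1, ?_, fun h => h3 (h.trans hF'd)⟩
      have hp : Prime G' := hi.prime
      have hnd : ¬ G' ∣ lin l ^ ν := by
        intro h
        have h4 : G' ∣ lin l := hp.dvd_of_dvd_pow h
        have h5 : lin l ∣ G' := (hi.associated_of_dvd (lin_irreducible l) h4).symm.dvd
        exact hnl (h5.trans hd)
      rw [hF'] at h2
      exact hp.pow_dvd_of_dvd_mul_left ν hnd h2
    obtain ⟨H', c, hc, hcard, hprod⟩ := ih ν F' hν hF'0 hF'h1 hyp
    have hlH : l ∉ H' := by
      intro hl
      apply hnl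
      rw [hprod]
      refine Dvd.dvd.mul_left ?_ _
      refine (dvd_pow_self (lin l) (Nat.one_le_iff_ne_zero.1 hν)).trans ?_
      exact Finset.dvd_prod_of_mem (fun l => lin l ^ ν) hl
    refine ⟨insert l H', c, hc, ?_, ?_⟩
    · rw [Finset.card_insert_of_notMem hlH, hcard]
    · rw [Finset.prod_insert hlH, hF', hprod]
      ring

end Pool.Agent.H580C
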