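import Pool.Agent.H580C.CH.Props

set_option autoImplicit false

universe u

namespace Pool.Agent.H580C

open MvPolynomial Pool.Agent.Chud

theorem G3_dvd {k : Type u} [Field k] {N : ℕ} {l l' : PP k N} (h : lin l ∣ lin l') : l = l' := by
  obtain ⟨u, hu⟩ := h
  have h0 := lin_ne_zero l'
  have hu0 : u ≠ 0 := by
    rintro rfl
    rw [mul_zero] at hu
    exact h0 hu
  have h1 : (lin l').totalDegree = (lin l).totalDegree + u.totalDegree := by
    rw [hu, totalDegree_mul_of_isDomain (lin_ne_zero l) hu0]
  rw [(lin_homog l').totalDegree h0, (lin_homog l).totalDegree (lin_ne_zero l)] at h1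
  have h2 : u.totalDegree = 0 := by omega
  rw [totalDegree_eq_zero_iff_eq_C] at h2
  have h3 : ∀ i, l'.rep i = coeff 0 u * l.rep i := by
    intro i
    rw [h2, mul_comm] at hu
    have h4 := congrArg (coeff (Finsupp.single i 1)) hu
    rw [coeff_C_mul] at h4
    have h5 : ∀ m : PP k N, coeff (Finsupp.single i 1) (lin m) = m.rep i := fun m =>
      coeff_lin_aux m.rep i
    rw [h5, h5] at h4
    exact h4
  refine (eq_of_minors fun i j => ?_)
  rw [h3 i, h3 j]
  ring

theorem t_G3 (hDD : St_DD.{u}) : St_G3.{u} := by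
  classical
  intro k _ _ N a ν S F h FP hE H c hc hF
  have hN := hE.hN
  have ha := hE.ha
  have hν := hE.hν
  have hprime : ∀ l : PP k N, Prime (lin l) := fun l => (lin_irreducible l).prime
  have hdl : ∀ l : PP k N, (lin l).totalDegree = 1 := fun l =>
    (lin_homog l).totalDegree (lin_ne_zero l)
  have hprodh : ∀ (H' : Finset (PP k N)) (j : ℕ), (∏ l ∈ H', lin l ^ j).IsHomogeneous (H'.card * j) := by
    intro H' j
    have h1 : (∏ l ∈ H', lin l ^ j).IsHomogeneous (∑ _l ∈ H', j) := by
      refine IsHomogeneous.prod _ _ _ fun l _ => ?_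
      have := (lin_homog l).pow j
      rwa [one_mul] at this
    rwa [Finset.sum_const, smul_eq_mul] at h1
  have hprod0 : ∀ (H' : Finset (PP k N)) (j : ℕ), (∏ l ∈ H', lin l ^ j) ≠ 0 := fun H' j =>
    Finset.prod_ne_zero_iff.mpr fun l _ => pow_ne_zero _ (lin_ne_zero l)
  have hprodd : ∀ (H' : Finset (PP k N)) (j : ℕ), (∏ l ∈ H', lin l ^ j).totalDegree = H'.card * j :=
    fun H' j => (hprodh H' j).totalDegree (hprod0 H' j)
  have hHcard : H.card = a - 1 + N := by
    have h1 := hE.Fh.totalDegree hE.F0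
    have h2 : F.IsHomogeneous (H.card * ν) := by
      rw [hF]
      have := (isHomogeneous_C (Fin (N + 1)) c).mul (hprodh H ν)
      rwa [zero_add] at this
    rw [h2.totalDegree hE.F0] at h1
    exact Nat.eq_of_mul_eq_mul_right (by omega) h1
  have hdvdF : ∀ l ∈ H, lin l ^ ν ∣ F := by
    intro l hl
    rw [hF]
    exact (Finset.dvd_prod_of_mem (fun l => lin l ^ ν) hl).mul_left _
  have hrel : ∀ (H' : Finset (PP k N)) (j : ℕ), (H' : Set (PP k N)).Pairwise
      (Function.onFun IsRelPrime fun l => lin l ^ j) := by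
    intro H' j l _ l' _ hne
    refine IsRelPrime.pow ?_
    rw [(lin_irreducible l).isRelPrime_iff_not_dvd]
    exact fun hd => hne (G3_dvd hd)
  have main : ∀ p ∈ S, (H.filter (fun l => OnH l p)).card = N ∧
      ∃ t : k, h p = (∏ l ∈ H.filter (fun l => ¬ OnH l p), lin l ^ 1) * C t := by
    intro p hp
    have hh0 : h p ≠ 0 := by
      intro h1
      have h2 := hE.h1 p hp
      rw [h1, map_zero] at h2
      exact zero_ne_one h2
    have hfac := hE.fac p hp
    have hFP0 : FP p ≠ 0 := by
      intro h1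
      rw [h1, zero_mul] at hfac
      exact hE.F0 hfac
    have hdh : (h p).totalDegree = a - 1 := (hE.hh p hp).totalDegree hh0
    have hdFP : (FP p).totalDegree = N * ν := by
      have h1 : F.totalDegree = (FP p).totalDegree + (h p ^ ν).totalDegree := by
        conv_lhs => rw [hfac]
        exact totalDegree_mul_of_isDomain hFP0 (pow_ne_zero _ hh0)
      rw [hE.Fh.totalDegree hE.F0, ((hE.hh p hp).pow ν).totalDegree (pow_ne_zero _ hh0), add_mul] at h1
      omega
    have hα : ∀ l, OnH l p → ¬ lin l ∣ h p := by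
      intro l hl hd
      obtain ⟨t, ht⟩ := hd
      have h1 := hE.h1 p hp
      rw [ht, map_mul, (eval_lin l p).mpr hl, zero_mul] at h1
      exact zero_ne_one h1
    have hβ : ∀ l, ¬ OnH l p → ¬ lin l ∣ FP p := by
      intro l hl hd
      have h1 := (hDD k (N + 1) p.rep (FP p)).2.2.2.1 (lin l) hFP0 hd (hE.dir0 p hp)
      have h2 := (hDD k (N + 1) p.rep (lin l)).2.2.2.2 h1 0 1
      rw [zero_add, one_smul] at h2
      apply hl
      rw [← eval_lin, h2]
      unfold lin
      rw [map_sum]
      refine Finset.sum_eq_zero fun i _ => ?_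
      rw [map_mul, eval_X, Pi.zero_apply, mul_zero]
    have hQ : (∏ l ∈ H.filter (fun l => ¬ OnH l p), lin l ^ 1) ∣ h p := by
      refine Finset.prod_dvd_of_isRelPrime (hrel _ 1) fun l hl => ?_
      rw [Finset.mem_filter] at hl
      rw [pow_one]
      have h1 : lin l ∣ FP p * h p ^ ν := by
        rw [← hfac]
        exact (dvd_pow_self _ (by omega)).trans (hdvdF l hl.1)
      rcases (hprime l).dvd_or_dvd h1 with h2 | h2
      · exact absurd h2 (hβ l hl.2)
      · exact (hprime l).dvd_of_dvd_pow h2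
    have hR : (∏ l ∈ H.filter (fun l => OnH l p), lin l ^ ν) ∣ FP p := by
      refine Finset.prod_dvd_of_isRelPrime (hrel _ ν) fun l hl => ?_
      rw [Finset.mem_filter] at hl
      refine (hprime l).pow_dvd_of_dvd_mul_right (b := h p ^ ν) ν
        (fun h2 => hα l hl.2 ((hprime l).dvd_of_dvd_pow h2)) ?_
      rw [← hfac]; exact hdvdF l hl.1
    have hsum : (H.filter (fun l => OnH l p)).card + (H.filter (fun l => ¬ OnH l p)).card = a - 1 + N := by
      rw [← hHcard]
      exact Finset.card_filter_add_card_filter_not _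
    have h1 := totalDegree_le_of_dvd_of_isDomain hQ hh0
    rw [hprodd, hdh, mul_one] at h1
    have h2 := totalDegree_le_of_dvd_of_isDomain hR hFP0
    rw [hprodd, hdFP] at h2
    have h3 := Nat.le_of_mul_le_mul_right h2 (by omega)
    refine ⟨by omega, ?_⟩
    obtain ⟨t, ht⟩ := hQ
    have ht0 : t ≠ 0 := by
      rintro rfl
      rw [mul_zero] at ht
      exact hh0 ht
    have h4 : (h p).totalDegree = _ + t.totalDegree :=
      (congrArg totalDegree ht).trans (totalDegree_mul_of_isDomain (hprod0 _ 1) ht0)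
    rw [hprodd, hdh, mul_one] at h4
    have h5 : t.totalDegree = 0 := by omega
    rw [totalDegree_eq_zero_iff_eq_C] at h5
    refine ⟨coeff 0 t, ?_⟩
    rw [← h5]
    exact ht
  refine ⟨fun p hp => ?_, fun p hp q hq hpq => ?_⟩
  · exact (main p hp).1
  · by_contra hne
    obtain ⟨t, ht⟩ := (main p hp).2
    obtain ⟨s, hs⟩ := (main q hq).2
    have h1 : H.filter (fun l => ¬ OnH l p) = H.filter (fun l => ¬ OnH l q) := by
      ext l
      have h2 := Finset.ext_iff.mp hpq l
      simp only [Finset.mem_filter] at h2 ⊢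
      tauto
    rw [h1] at ht
    have h2 := hE.h1 p hp
    have h3 := hE.h0 q hq p hp hne
    have h4 := hE.h1 q hq
    rw [hs, map_mul, eval_C] at h3
    rw [ht, map_mul, eval_C] at h2
    rcases mul_eq_zero.mp h3 with h5 | h5
    · rw [h5, zero_mul] at h2
      exact zero_ne_one h2
    · rw [hs, h5, C_0, mul_zero, map_zero] at h4
      exact zero_ne_one h4

end Pool.Agent.H580C
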