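import Pool.Agent.H580C.CH.Props

set_option autoImplicit false

universe u

namespace Pool.Agent.H580C

open MvPolynomial Pool.Agent.Chud

theorem t_G4 : St_G4.{u} := by
  classical
  intro k _ N a S ha hlow
  let I := Sym (Fin (N + 1)) (a - 1)
  let m : I → (Fin (N + 1) →₀ ℕ) := fun s => Multiset.toFinsupp (s : Multiset (Fin (N + 1)))
  have hinj : Function.Injective m := by
    intro s t hst
    exact Subtype.ext (Multiset.toFinsupp.injective hst)
  have hdeg : ∀ s, (m s).degree = a - 1 := by
    intro s
    have h1 := Multiset.toFinsupp_sum_eq (s : Multiset (Fin (N + 1)))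
    have h2 : Multiset.card (s : Multiset (Fin (N + 1))) = a - 1 := s.2
    rw [h2] at h1
    rw [← h1]
    rfl
  have hli : LinearIndependent k (fun (s : I) (p : S) => eval (p : PP k N).rep (monomial (m s) (1 : k))) := by
    rw [Fintype.linearIndependent_iff]
    intro g hg
    by_contra hcon
    push Not at hcon
    obtain ⟨s₀, hs₀⟩ := hcon
    let F : MvPolynomial (Fin (N + 1)) k := ∑ s, monomial (m s) (g s)
    have hF0 : F ≠ 0 := by
      intro h
      have h1 : coeff (m s₀) F = g s₀ := by
        change coeff (m s₀) (∑ s, monomial (m s) (g s)) = g s₀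
        rw [coeff_sum, Finset.sum_eq_single s₀]
        · simp
        · intro s _ hs
          rw [coeff_monomial, if_neg (fun h => hs (hinj h))]
        · simp
      rw [h, coeff_zero] at h1
      exact hs₀ h1.symm
    have hFh : F.IsHomogeneous (a - 1) := by
      refine IsHomogeneous.sum _ _ _ fun s _ => ?_
      exact isHomogeneous_monomial _ (hdeg s)
    have h2 := hlow F (a - 1) hF0 hFh (by
      rintro v ⟨p, hp, rfl⟩
      rw [pow_one]
      change eval p.rep F = 0
      have h3 := congrFun hg ⟨p, hp⟩
      simp only [Finset.sum_apply, Pi.smul_apply, Pi.zero_apply, smul_eq_mul] at h3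
      rw [← h3, map_sum]
      refine Finset.sum_congr rfl fun s _ => ?_
      rw [eval_monomial, eval_monomial, one_mul])
    omega
  have h1 := hli.fintype_card_le_finrank
  rw [Module.finrank_fintype_fun_eq_card, Fintype.card_coe] at h1
  have h2 : Fintype.card I = (N + (a - 1)).choose N := by
    rw [Sym.card_sym_eq_choose, Fintype.card_fin]
    have h3 : N + 1 + (a - 1) - 1 = N + (a - 1) := by omega
    rw [h3]
    exact (Nat.choose_symm_of_eq_add (by omega))
  rw [h2] at h1
  exact h1

end Pool.Agent.H580C
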