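import Pool.Agent.H580C.CH.Props

set_option autoImplicit false

universe u

namespace Pool.Agent.H580C

open MvPolynomial Pool.Agent.Chud

/-- pairing with `w` -/
def G5_dot {k : Type*} [Field k] {N : ℕ} (w : Fin (N + 1) → k) : (Fin (N + 1) → k) →ₗ[k] k where
  toFun v := ∑ i, v i * w i
  map_add' a b := by
    simp only [Pi.add_apply, add_mul, Finset.sum_add_distrib]
  map_smul' c a := by
    simp only [Pi.smul_apply, smul_eq_mul, RingHom.id_apply, Finset.mul_sum, mul_assoc]

theorem G5_dot_apply {k : Type*} [Field k] {N : ℕ} (h p : PP k N) :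
    G5_dot p.rep h.rep = 0 ↔ OnH h p := Iff.rfl

/-- `N` hyperplanes through two points are dependent -/
theorem G5_dep {k : Type*} [Field k] {N : ℕ} (hN : 1 ≤ N) (I : Finset (PP k N)) (hI : I.card = N)
    (p x : PP k N) (hpx : p ≠ x) (hp : ∀ l ∈ I, OnH l p) (hx : ∀ l ∈ I, OnH l x) :
    ¬ LinearIndependent k (fun l : I => (l : PP k N).rep) := by
  intro hli
  obtain ⟨φ, hφ⟩ : ∃ φ : (Fin (N + 1) → k) →ₗ[k] k × k, φ = (G5_dot p.rep).prod (G5_dot x.rep) :=
    ⟨_, rfl⟩
  have hφa : ∀ v, φ v = (G5_dot p.rep v, G5_dot x.rep v) := fun v => by rw [hφ]; rfl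
  have hsurj : Function.Surjective φ := by
    obtain ⟨h1, h1p, h1x⟩ := exists_OnH_not hpx
    obtain ⟨h2, h2x, h2p⟩ := exists_OnH_not hpx.symm
    have a1 : G5_dot p.rep h1.rep = 0 := (G5_dot_apply h1 p).2 h1p
    have a2 : G5_dot x.rep h1.rep ≠ 0 := fun h => h1x ((G5_dot_apply h1 x).1 h)
    have b1 : G5_dot x.rep h2.rep = 0 := (G5_dot_apply h2 x).2 h2x
    have b2 : G5_dot p.rep h2.rep ≠ 0 := fun h => h2p ((G5_dot_apply h2 p).1 h)
    rintro ⟨s, t⟩
    refine ⟨(s / G5_dot p.rep h2.rep) • h2.rep + (t / G5_dot x.rep h1.rep) • h1.rep, ?_⟩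
    rw [hφa, map_add, map_add, map_smul, map_smul, map_smul, map_smul, a1, b1, smul_zero, smul_zero,
      add_zero, zero_add, smul_eq_mul, smul_eq_mul, div_mul_cancel₀ _ b2, div_mul_cancel₀ _ a2]
  have hrk := LinearMap.finrank_range_add_finrank_ker φ
  rw [LinearMap.range_eq_top.2 hsurj, finrank_top, Module.finrank_prod, Module.finrank_self,
    Module.finrank_fin_fun] at hrk
  have hker : ∀ l : I, (l : PP k N).rep ∈ LinearMap.ker φ := by
    intro l
    rw [LinearMap.mem_ker, hφa, (G5_dot_apply _ p).2 (hp l l.2), (G5_dot_apply _ x).2 (hx l l.2)]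
    rfl
  have hli2 : LinearIndependent k (fun l : I => (⟨(l : PP k N).rep, hker l⟩ : LinearMap.ker φ)) := by
    apply LinearIndependent.of_comp (LinearMap.ker φ).subtype
    exact hli
  have hc := hli2.fintype_card_le_finrank
  rw [Fintype.card_coe, hI] at hc
  omega

theorem t_G5 : St_G5.{u} := by
  intro k _ N S H hN hNH hcard hinj hS
  classical
  have hsurj : ∀ I ⊆ H, I.card = N → ∃ p ∈ S, H.filter (fun l => OnH l p) = I := by
    have h1 : Set.MapsTo (fun p : PP k N => H.filter (fun l => OnH l p)) (S : Set (PP k N))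
        ((H.powersetCard N : Finset (Finset (PP k N))) : Set (Finset (PP k N))) := by
      intro p hp
      simp only [Finset.mem_coe, Finset.mem_powersetCard]
      exact ⟨Finset.filter_subset _ _, by convert hcard p hp⟩
    have h2 : Set.InjOn (fun p : PP k N => H.filter (fun l => OnH l p)) (S : Set (PP k N)) := by
      intro p hp q hq h
      apply hinj p hp q hq
      convert h
    have h3 := Finset.surjOn_of_injOn_of_card_le _ h1 h2 (by
      rw [Finset.card_powersetCard]; exact hS)
    intro I hI hIc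
    obtain ⟨p, hp, he⟩ := h3 (Finset.mem_coe.2 (Finset.mem_powersetCard.2 ⟨hI, hIc⟩))
    exact ⟨p, hp, he⟩
  have hclaim : ∀ I ⊆ H, I.card = N → ∀ p ∈ S, H.filter (fun l => OnH l p) = I →
      ∀ x : PP k N, (∀ l ∈ I, OnH l x) → x = p := by
    intro I hI hIc p hp hpI x hx
    by_contra hne
    have hpl : ∀ l ∈ I, OnH l p := by
      intro l hl
      rw [← hpI, Finset.mem_filter] at hl
      exact hl.2
    have hdep := G5_dep hN I hIc p x (fun h => hne h.symm) hpl hx
    rw [linearIndependent_iff_notMem_span] at hdep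
    push Not at hdep
    obtain ⟨l0, hl0⟩ := hdep
    obtain ⟨j, hjH, hjI⟩ : ∃ j ∈ H, j ∉ I := by
      by_contra hcon
      push Not at hcon
      have := Finset.card_le_card (show H ⊆ I from hcon)
      omega
    have hI'H : insert j (I.erase (l0 : PP k N)) ⊆ H := by
      intro l hl
      rcases Finset.mem_insert.1 hl with h | h
      · rw [h]; exact hjH
      · exact hI (Finset.mem_of_mem_erase h)
    have hI'c : (insert j (I.erase (l0 : PP k N))).card = N := by
      rw [Finset.card_insert_of_notMem (fun h => hjI (Finset.mem_of_mem_erase h)),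
        Finset.card_erase_of_mem l0.2]
      omega
    obtain ⟨p', hp', he'⟩ := hsurj _ hI'H hI'c
    have hon : ∀ l ∈ I.erase (l0 : PP k N), OnH l p' := by
      intro l hl
      have : l ∈ H.filter (fun l => OnH l p') := by
        rw [he']; exact Finset.mem_insert_of_mem hl
      exact (Finset.mem_filter.1 this).2
    have hspan : Submodule.span k ((fun l : I => (l : PP k N).rep) '' (Set.univ \ {l0})) ≤
        LinearMap.ker (G5_dot p'.rep) := by
      rw [Submodule.span_le]
      rintro _ ⟨l, hl, rfl⟩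
      rw [SetLike.mem_coe, LinearMap.mem_ker, G5_dot_apply]
      apply hon
      rw [Finset.mem_erase]
      refine ⟨fun h => hl.2 ?_, l.2⟩
      exact Subtype.ext h
    have h0 : OnH (l0 : PP k N) p' := by
      rw [← G5_dot_apply]
      exact LinearMap.mem_ker.1 (hspan hl0)
    have h1 : (l0 : PP k N) ∈ H.filter (fun l => OnH l p') :=
      Finset.mem_filter.2 ⟨hI l0.2, h0⟩
    rw [he', Finset.mem_insert] at h1
    rcases h1 with h1 | h1
    · exact hjI (h1 ▸ l0.2)
    · exact (Finset.notMem_erase _ _) h1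
  intro x
  have hx : N ≤ (H.filter (fun l => OnH l x)).card →
      x ∈ S ∧ (H.filter (fun l => OnH l x)).card = N := by
    intro hle
    obtain ⟨I, hI, hIc⟩ := Finset.exists_subset_card_eq hle
    have hIH : I ⊆ H := hI.trans (Finset.filter_subset _ _)
    obtain ⟨p, hp, he⟩ := hsurj I hIH hIc
    have hxp := hclaim I hIH hIc p hp he x (fun l hl => (Finset.mem_filter.1 (hI hl)).2)
    subst hxp
    exact ⟨hp, by rw [he, hIc]⟩
  constructor
  · rcases Nat.lt_or_ge N (H.filter (fun l => OnH l x)).card with h | h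
    · have := (hx (by convert h.le)).2
      have e : (H.filter (fun l => OnH l x)).card = N := by convert this
      omega
    · exact h
  · intro h
    exact (hx (by convert h.ge)).1

end Pool.Agent.H580C
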