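import Pool.Agent.H580C.CH.Props
import Pool.Agent.Chud.PE3

set_option autoImplicit false

universe u

namespace Pool.Agent.H580C

open MvPolynomial Pool.Agent.Chud

theorem G6_pow {k : Type u} [Field k] {σ : Type*} [Finite σ] (v : σ → k) {F : MvPolynomial σ k}
    (hF : F ≠ 0) (n : ℕ) : mu v (F ^ n) = n * mu v F := by
  induction n with
  | zero =>
    rw [pow_zero, zero_mul]
    by_contra h
    have h1 : 0 < mu v (1 : MvPolynomial σ k) := Nat.pos_of_ne_zero h
    rw [mu_pos_iff v one_ne_zero, map_one] at h1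
    exact one_ne_zero h1
  | succ n ih =>
    rw [pow_succ, mu_mul v (pow_ne_zero n hF) hF, ih]
    ring

open Classical in
theorem G6_prod {k : Type u} [Field k] {N ν : ℕ} (H : Finset (PP k N)) (x : PP k N) :
    (∏ l ∈ H, lin l ^ ν : MvPolynomial (Fin (N + 1)) k) ≠ 0 ∧
    mu x.rep (∏ l ∈ H, lin l ^ ν) = ν * (H.filter (fun l => OnH l x)).card := by
  induction H using Finset.induction_on with
  | empty =>
    rw [Finset.prod_empty]
    refine ⟨one_ne_zero, ?_⟩
    have h := G6_pow x.rep (F := (1 : MvPolynomial (Fin (N + 1)) k)) one_ne_zero 0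
    rw [pow_zero, zero_mul] at h
    rw [h, Finset.filter_empty, Finset.card_empty, mul_zero]
  | insert a H ha ih =>
    rw [Finset.prod_insert ha]
    have h1 := pow_ne_zero ν (lin_ne_zero a)
    refine ⟨mul_ne_zero h1 ih.1, ?_⟩
    rw [mu_mul x.rep h1 ih.1, ih.2, G6_pow x.rep (lin_ne_zero a), Finset.filter_insert]
    by_cases h : OnH a x
    · rw [if_pos h, (mu_lin a x).1 h, Finset.card_insert_of_notMem (fun h' => ha (Finset.mem_filter.1 h').1)]
      ring
    · rw [if_neg h, (mu_lin a x).2 h]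
      ring

theorem t_G6 : St_G6.{u} := by
  intro k _ N ν m H c x hc hν hmem
  obtain ⟨h1, h2⟩ := G6_prod (ν := ν) H x
  have hC : (C c : MvPolynomial (Fin (N + 1)) k) ≠ 0 := by
    rwa [Ne, C_eq_zero]
  rw [mem_mI_pow_iff x.rep (mul_ne_zero hC h1), mu_mul x.rep hC h1, h2] at hmem
  have h3 : mu x.rep (C c : MvPolynomial (Fin (N + 1)) k) = 0 := by
    by_contra h
    have h4 := Nat.pos_of_ne_zero h
    rw [mu_pos_iff x.rep hC, eval_C] at h4
    exact hc h4
  rw [h3, zero_add, mul_comm m ν] at hmem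
  exact Nat.le_of_mul_le_mul_left hmem (by omega)

end Pool.Agent.H580C
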