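import Pool.Agent.H580C.CH.Props

set_option autoImplicit false

universe u

namespace Pool.Agent.H580C

open MvPolynomial Pool.Agent.Chud

theorem HC_pascal {N : ℕ} (m b : Fin N →₀ ℕ) (i : Fin N) :
    (if m i = 0 then 0 else ∏ j, ((m - Finsupp.single i 1 : Fin N →₀ ℕ) j + b j).choose (b j)) +
      (if b i = 0 then 0 else ∏ j, (m j + (b - Finsupp.single i 1 : Fin N →₀ ℕ) j).choose
        ((b - Finsupp.single i 1 : Fin N →₀ ℕ) j)) =
      if m i + b i = 0 then 0 else ∏ j, (m j + b j).choose (b j) := by
  classical
  have hR : ∀ (f : Fin N → ℕ), ∏ j, f j = f i * ∏ j ∈ Finset.univ.erase i, f j :=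
    fun f => (Finset.mul_prod_erase Finset.univ f (Finset.mem_univ i)).symm
  rw [hR (fun j => ((m - Finsupp.single i 1 : Fin N →₀ ℕ) j + b j).choose (b j)),
    hR (fun j => (m j + (b - Finsupp.single i 1 : Fin N →₀ ℕ) j).choose ((b - Finsupp.single i 1 : Fin N →₀ ℕ) j)),
    hR (fun j => (m j + b j).choose (b j))]
  have e1 : ∏ j ∈ Finset.univ.erase i, ((m - Finsupp.single i 1 : Fin N →₀ ℕ) j + b j).choose (b j) =
      ∏ j ∈ Finset.univ.erase i, (m j + b j).choose (b j) := by
    refine Finset.prod_congr rfl fun j hj => ?_
    have hj' : j ≠ i := Finset.ne_of_mem_erase hj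
    rw [Finsupp.tsub_apply, Finsupp.single_eq_of_ne hj', Nat.sub_zero]
  have e2 : ∏ j ∈ Finset.univ.erase i, (m j + (b - Finsupp.single i 1 : Fin N →₀ ℕ) j).choose
        ((b - Finsupp.single i 1 : Fin N →₀ ℕ) j) =
      ∏ j ∈ Finset.univ.erase i, (m j + b j).choose (b j) := by
    refine Finset.prod_congr rfl fun j hj => ?_
    have hj' : j ≠ i := Finset.ne_of_mem_erase hj
    rw [Finsupp.tsub_apply, Finsupp.single_eq_of_ne hj', Nat.sub_zero]
  rw [e1, e2]
  have e3 : (m - Finsupp.single i 1 : Fin N →₀ ℕ) i = m i - 1 := by
    rw [Finsupp.tsub_apply, Finsupp.single_eq_same]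
  have e4 : (b - Finsupp.single i 1 : Fin N →₀ ℕ) i = b i - 1 := by
    rw [Finsupp.tsub_apply, Finsupp.single_eq_same]
  rw [e3, e4]
  generalize ∏ j ∈ Finset.univ.erase i, (m j + b j).choose (b j) = R
  rcases Nat.eq_zero_or_eq_succ_pred (m i) with hm | hm <;>
    rcases Nat.eq_zero_or_eq_succ_pred (b i) with hb | hb
  · simp [hm, hb]
  · generalize (b i).pred = y at hb
    rw [hm, hb]
    simp
  · generalize (m i).pred = x at hm
    rw [hm, hb]
    simp
  · generalize (m i).pred = x at hm
    generalize (b i).pred = y at hb
    rw [hm, hb]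
    simp only [Nat.succ_eq_add_one, Nat.add_one_sub_one, Nat.add_eq_zero_iff, one_ne_zero,
      and_false, if_false]
    rw [show x + 1 + (y + 1) = (x + y + 1) + 1 by ring, Nat.choose_succ_succ (x + y + 1) y,
      show x + (y + 1) = x + y + 1 by ring, show x + 1 + y = x + y + 1 by ring]
    ring

theorem t_HC : St_HC.{u} := by
  classical
  intro k _ N b m F
  induction F using MvPolynomial.induction_on generalizing b m with
  | C a =>
    have h1 : hd b (C a : MvPolynomial (Fin N) k) = if b = 0 then C a else 0 := by
      rw [hd_apply]
      have : taylor (C a : MvPolynomial (Fin N) k) = C (C a) := by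
        unfold taylor
        rw [aeval_C]
        rfl
      rw [this, coeff_C]
      by_cases hb : b = 0
      · rw [if_pos hb, if_pos hb.symm]
      · rw [if_neg hb, if_neg (fun h => hb h.symm)]
    rw [h1, coeff_C]
    by_cases hb : b = 0
    · subst hb
      rw [if_pos rfl, coeff_C, add_zero]
      by_cases hm : m = 0
      · subst hm; simp
      · rw [if_neg (fun h => hm h.symm), mul_zero]
    · rw [if_neg hb, coeff_zero, if_neg, mul_zero]
      intro h
      apply hb
      have := (add_eq_zero.mp h.symm).2
      exact this
  | add F G hF hG =>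
    rw [map_add, coeff_add, hF, hG, coeff_add, mul_add]
  | mul_X F i hF =>
    have h1 : hd b (F * X i) = hd b F * X i +
        (if i ∈ b.support then hd (b - Finsupp.single i 1) F else 0) := by
      rw [hd_apply, hd_apply]
      have : taylor (F * X i) = taylor F * C (X i) + taylor F * X i := by
        rw [map_mul]
        unfold taylor
        rw [aeval_X, mul_add]
      rw [this, coeff_add, mul_comm (taylor F) (C (X i)), coeff_C_mul, coeff_mul_X', mul_comm (X i)]
      rfl
    rw [h1, coeff_add, coeff_mul_X', coeff_mul_X']
    have h2 : coeff m (if i ∈ b.support then hd (b - Finsupp.single i 1) F else 0) =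
        if i ∈ b.support then coeff m (hd (b - Finsupp.single i 1) F) else 0 := by
      split_ifs <;> simp
    rw [h2]
    simp only [hF, Finsupp.mem_support_iff, Finsupp.add_apply]
    have hp := HC_pascal m b i
    have hp' := congrArg (fun n : ℕ => (n : k)) hp
    push_cast [apply_ite] at hp' ⊢
    by_cases hm : m i = 0 <;> by_cases hb : b i = 0
    · simp [hm, hb]
    · have e2 : m + (b - Finsupp.single i 1) = m + b - Finsupp.single i 1 := by
        ext j
        by_cases hj : j = i
        · subst hj
          simp only [Finsupp.add_apply, Finsupp.tsub_apply, Finsupp.single_eq_same]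
          omega
        · simp only [Finsupp.add_apply, Finsupp.tsub_apply, Finsupp.single_eq_of_ne hj]
          omega
      simp only [hm, hb, if_true, not_true, not_false_iff, if_false, zero_add, ne_eq,
        Nat.add_eq_zero_iff, and_false, e2] at hp' ⊢
      rw [hp']
    · have e1 : m - Finsupp.single i 1 + b = m + b - Finsupp.single i 1 := by
        ext j
        by_cases hj : j = i
        · subst hj
          simp only [Finsupp.add_apply, Finsupp.tsub_apply, Finsupp.single_eq_same]
          omega
        · simp only [Finsupp.add_apply, Finsupp.tsub_apply, Finsupp.single_eq_of_ne hj]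
          omega
      simp only [hm, hb, if_true, not_true, not_false_iff, if_false, add_zero, ne_eq,
        e1] at hp' ⊢
      rw [hp']
    · have e1 : m - Finsupp.single i 1 + b = m + b - Finsupp.single i 1 := by
        ext j
        by_cases hj : j = i
        · subst hj
          simp only [Finsupp.add_apply, Finsupp.tsub_apply, Finsupp.single_eq_same]
          omega
        · simp only [Finsupp.add_apply, Finsupp.tsub_apply, Finsupp.single_eq_of_ne hj]
          omega
      have e2 : m + (b - Finsupp.single i 1) = m + b - Finsupp.single i 1 := by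
        ext j
        by_cases hj : j = i
        · subst hj
          simp only [Finsupp.add_apply, Finsupp.tsub_apply, Finsupp.single_eq_same]
          omega
        · simp only [Finsupp.add_apply, Finsupp.tsub_apply, Finsupp.single_eq_of_ne hj]
          omega
      simp only [hm, hb, not_false_iff, if_true, if_false, ne_eq,
        Nat.add_eq_zero_iff, and_false, e1, e2] at hp' ⊢
      rw [← hp']
      ring

end Pool.Agent.H580C
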