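import Pool.Agent.H580C.CH.Props

set_option autoImplicit false

universe u

namespace Pool.Agent.H580C

open MvPolynomial Pool.Agent.Chud

/-- Hasse derivatives of forms are forms. -/
theorem t_HH (hHC : St_HC.{u}) : St_HH.{u} := by
  intro k _ N b d F hF m hm
  have h1 : coeff (m + b) F ≠ 0 := by
    intro h0
    apply hm
    rw [hHC k N b m F, h0, mul_zero]
  have h2 := hF h1
  have h3 : Finsupp.weight (1 : Fin N → ℕ) b = b.degree := by
    rw [Finsupp.degree_eq_weight_one]
    rfl
  rw [map_add] at h2
  omega

end Pool.Agent.H580C
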