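import Pool.Agent.H580C.CH.Props

set_option autoImplicit false

universe u

namespace Pool.Agent.H580C

open MvPolynomial Pool.Agent.Chud

theorem HM_const {k : Type u} [Field k] {N : ℕ} (F : MvPolynomial (Fin N) k) :
    coeff 0 (taylor F) = F := by
  rw [← constantCoeff_eq]
  induction F using MvPolynomial.induction_on with
  | C a =>
    have : taylor (C a : MvPolynomial (Fin N) k) = C (C a) := by
      rw [← MvPolynomial.algebraMap_eq, AlgHom.commutes]
      rfl
    rw [this, constantCoeff_C]
  | add p q hp hq => rw [map_add, map_add, hp, hq]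
  | mul_X p i hp =>
    rw [map_mul, map_mul, hp]
    congr 1
    unfold taylor
    rw [aeval_X, map_add, constantCoeff_C, constantCoeff_X, add_zero]

theorem HM_mul {k : Type u} [Field k] {N : ℕ} (v : Fin N → k) (m m' : ℕ)
    (G G' : MvPolynomial (Fin N) (MvPolynomial (Fin N) k))
    (h : ∀ b, coeff b G ∈ mI v ^ (m - b.degree)) (h' : ∀ b, coeff b G' ∈ mI v ^ (m' - b.degree)) :
    ∀ b, coeff b (G * G') ∈ mI v ^ (m + m' - b.degree) := by
  classical
  intro b
  rw [coeff_mul]
  apply Ideal.sum_mem
  rintro ⟨c, c'⟩ hc
  rw [Finset.HasAntidiagonal.mem_antidiagonal] at hc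
  simp only at hc
  have hd : b.degree = c.degree + c'.degree := by rw [← hc, map_add]
  have h1 : coeff c G * coeff c' G' ∈ mI v ^ ((m - c.degree) + (m' - c'.degree)) := by
    rw [pow_add]
    exact Ideal.mul_mem_mul (h c) (h' c')
  exact Ideal.pow_le_pow_right (by rw [hd]; omega) h1

theorem t_HM : St_HM.{u} := by
  intro k _ N b v m F hF
  rw [hd_apply]
  have key : ∀ (m : ℕ) (F : MvPolynomial (Fin N) k), F ∈ mI v ^ m →
      ∀ b, coeff b (taylor F) ∈ mI v ^ (m - b.degree) := by
    intro m
    induction m with
    | zero =>
      intro F _ b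
      simp
    | succ m ih =>
      intro F hF
      rw [pow_succ] at hF
      refine Submodule.mul_induction_on hF ?_ ?_
      · intro f hf g hg b
        rw [map_mul]
        refine HM_mul v m 1 (taylor f) (taylor g) (ih f hf) ?_ b
        intro c
        by_cases hc : c = 0
        · rw [hc, HM_const, map_zero]
          simpa using hg
        · have : 1 - c.degree = 0 := by
            have : c.degree ≠ 0 := by
              rw [Ne, Finsupp.degree_eq_zero_iff]
              exact hc
            omega
          rw [this, pow_zero, Ideal.one_eq_top]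
          trivial
      · intro x y hx hy b
        rw [map_add, coeff_add]
        exact Ideal.add_mem _ (hx b) (hy b)
  exact key m F hF b

end Pool.Agent.H580C
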