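import Pool.Agent.H580C.CH.Props

set_option autoImplicit false

universe u

namespace Pool.Agent.H580C

open MvPolynomial Pool.Agent.Chud

private lemma HP_coeff_zero {k : Type*} [Field k] {σ : Type*} (G : MvPolynomial σ k) :
    coeff 0 (taylor G) = G := by
  have h : ((constantCoeff (R := MvPolynomial σ k) (σ := σ)).comp
      (taylor (k := k) (σ := σ) : MvPolynomial σ k →+* MvPolynomial σ (MvPolynomial σ k)))
      = RingHom.id _ := by
    apply MvPolynomial.ringHom_ext
    · intro a
      simp [taylor, MvPolynomial.algebraMap_apply]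
    · intro i
      simp [taylor]
  have h2 := RingHom.congr_fun h G
  simpa [constantCoeff_eq] using h2

private lemma HP_coeff_pow {R : Type*} [CommRing R] {σ : Type*} (p e : ℕ) [Fact p.Prime]
    [CharP R p] (P T : MvPolynomial σ R) (b : σ →₀ ℕ) (hb : ∀ i, b i < p ^ e) :
    coeff b (P ^ (p ^ e) * T) = (coeff 0 P) ^ (p ^ e) * coeff b T := by
  classical
  have hq : p ^ e ≠ 0 := pow_ne_zero _ (Fact.out : p.Prime).ne_zero
  have : CharP (MvPolynomial σ R) p := inferInstance
  have : ExpChar (MvPolynomial σ R) p := ExpChar.prime Fact.out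
  have h1 : P ^ (p ^ e) = ∑ m ∈ P.support, monomial ((p ^ e) • m) ((coeff m P) ^ (p ^ e)) := by
    conv_lhs => rw [P.as_sum]
    rw [sum_pow_char_pow]
    refine Finset.sum_congr rfl fun m _ => ?_
    rw [monomial_pow]
  rw [h1, Finset.sum_mul, coeff_sum]
  have h2 : ∀ m ∈ P.support, m ≠ 0 →
      coeff b (monomial ((p ^ e) • m) ((coeff m P) ^ (p ^ e)) * T) = 0 := by
    intro m _ hm
    rw [coeff_monomial_mul', if_neg]
    intro hle
    obtain ⟨i, hi⟩ := Finsupp.ne_iff.mp hm
    have h3 := hle i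
    have h4 := hb i
    simp only [Finsupp.smul_apply, smul_eq_mul, Finsupp.coe_zero, Pi.zero_apply] at h3 hi
    have h5 : p ^ e * 1 ≤ p ^ e * m i := Nat.mul_le_mul_left _ (Nat.one_le_iff_ne_zero.mpr hi)
    omega
  by_cases h0 : (0 : σ →₀ ℕ) ∈ P.support
  · rw [Finset.sum_eq_single_of_mem 0 h0 (fun m hm hne => h2 m hm hne)]
    rw [coeff_monomial_mul']
    simp
  · rw [Finset.sum_eq_zero]
    · rw [notMem_support_iff.mp h0, zero_pow hq, zero_mul]
    · intro m hm
      exact h2 m hm (fun h => h0 (h ▸ hm))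

theorem t_HP : St_HP.{u} := by
  intro k _ p e N _ _ b G X hb
  rw [hd_apply, hd_apply, map_mul, map_pow]
  rw [HP_coeff_pow p e _ _ b hb, HP_coeff_zero]

end Pool.Agent.H580C
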