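import Pool.Agent.H580C.CH.Props

set_option autoImplicit false

universe u

namespace Pool.Agent.H580C

open MvPolynomial Pool.Agent.Chud

theorem HV_map {k : Type u} [Field k] {N : ℕ} (v : Fin N → k) (F : MvPolynomial (Fin N) k) :
    trans v F = map (eval v) (taylor F) := by
  have h : (trans v : MvPolynomial (Fin N) k →ₐ[k] MvPolynomial (Fin N) k).toRingHom =
      (map (eval v)).comp (taylor (k := k) (σ := Fin N)).toRingHom := by
    apply MvPolynomial.ringHom_ext
    · intro r
      simp [Chud.trans, taylor, MvPolynomial.algebraMap_eq]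
    · intro i
      simp [Chud.trans, taylor, add_comm]
  exact RingHom.congr_fun h F

theorem t_HV : St_HV.{u} := by
  intro k _ N v F
  have h1 : ∀ b : Fin N →₀ ℕ, coeff b (trans v F) = eval v (hd b F) := by
    intro b
    rw [HV_map, coeff_map, hd_apply]
  refine ⟨h1, fun m => ?_⟩
  rw [mI_pow_eq_comap, Ideal.mem_comap]
  change transE v F ∈ _ ↔ _
  rw [transE_apply, mem_pow_idealOfVars_iff']
  constructor
  · intro h b hb
    rw [← h1]
    exact h b hb
  · intro h b hb
    rw [h1]
    exact h b hb

end Pool.Agent.H580C
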