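import Pool.Agent.H580C.CH.Props

set_option autoImplicit false

universe u

namespace Pool.Agent.H580C

open MvPolynomial Pool.Agent.Chud

theorem HX_choose (m b c : ℕ) :
    (m + c).choose c * (m + c + b).choose b = (b + c).choose c * (m + (b + c)).choose (b + c) := by
  have h := Nat.choose_mul (n := m + (b + c)) (k := b + c) (s := b) (by omega)
  rw [show m + (b + c) - b = m + c by omega, show b + c - b = c by omega] at h
  rw [show m + c + b = m + (b + c) by omega, mul_comm, ← h, mul_comm, Nat.choose_symm_add]

theorem t_HX (hHC : St_HC.{u}) : St_HX.{u} := by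
  intro k _ N b c F
  ext m
  rw [hHC k N c m, hHC k N b (m + c), coeff_C_mul, hHC k N (b + c) m F, ← mul_assoc, ← mul_assoc,
    show m + c + b = m + (b + c) by rw [add_assoc, add_comm c b]]
  congr 1
  rw [← Nat.cast_mul, ← Nat.cast_mul, ← Finset.prod_mul_distrib, ← Finset.prod_mul_distrib]
  congr 1
  refine Finset.prod_congr rfl fun i _ => ?_
  simp only [Finsupp.add_apply]
  exact HX_choose (m i) (b i) (c i)

end Pool.Agent.H580C
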