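import Pool.Agent.H580C.CH.Props

set_option autoImplicit false

universe u

namespace Pool.Agent.H580C

open MvPolynomial Pool.Agent.Chud

theorem t_KD (hHC : St_HC.{u}) (hLU : St_LU) : St_KD.{u} := by
  intro k _ p e N hp _ T F h m hm i hi
  have hp' : p.Prime := hp.out
  by_contra hq
  have hne : m i % p ^ e ≠ 0 := fun h0 => hq (Nat.dvd_of_mod_eq_zero h0)
  set c : Fin N →₀ ℕ := Finsupp.single i (m i % p ^ e) with hc
  have hcm : c ≤ m := by
    rw [hc, Finsupp.single_le_iff]
    exact Nat.mod_le _ _
  have h0 := h c (by simpa [hc] using hne) (fun j => ?_) (fun j hj => ?_)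
  · have h1 := hHC k N c (m - c) F
    rw [h0, coeff_zero, tsub_add_cancel_of_le hcm] at h1
    have h2 : coeff m F ≠ 0 := mem_support_iff.1 hm
    have h3 : ((∏ j, ((m - c) j + c j).choose (c j) : ℕ) : k) = 0 := by
      rcases mul_eq_zero.1 h1.symm with h4 | h4
      · exact h4
      · exact absurd h4 h2
    rw [CharP.cast_eq_zero_iff k p, Prime.dvd_finsetProd_iff hp'.prime] at h3
    obtain ⟨j, -, hj⟩ := h3
    have h5 : (m - c) j + c j = m j := by
      have := congrArg (fun f : Fin N →₀ ℕ => f j) (tsub_add_cancel_of_le hcm)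
      simpa using this
    rw [h5] at hj
    by_cases hij : j = i
    · subst hij
      rw [hc, Finsupp.single_eq_same] at hj
      exact (hLU p hp' e).2.1 (m j) hj
    · rw [hc, Finsupp.single_eq_of_ne hij, Nat.choose_zero_right] at hj
      exact hp'.one_lt.ne' (Nat.dvd_one.1 hj)
  · by_cases hij : j = i
    · subst hij
      rw [hc, Finsupp.single_eq_same]
      exact Nat.mod_lt _ (pow_pos hp'.pos e)
    · rw [hc, Finsupp.single_eq_of_ne hij]
      exact pow_pos hp'.pos e
  · have hij : j ≠ i := fun hij => hj (hij ▸ hi)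
    rw [hc, Finsupp.single_eq_of_ne hij]

end Pool.Agent.H580C
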