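import Pool.Agent.H580C.CH.Props

set_option autoImplicit false

universe u

namespace Pool.Agent.H580C

open MvPolynomial Pool.Agent.Chud

theorem LU_digit (p a i n : ℕ) (hi : i < a) : n % p ^ a / p ^ i % p = n / p ^ i % p := by
  obtain ⟨j, rfl⟩ := Nat.exists_eq_add_of_lt hi
  have e : p ^ (i + j + 1) = p ^ i * p ^ (j + 1) := by rw [← pow_add]; congr 1
  rw [e, Nat.mod_mul_right_div_self, Nat.mod_mod_of_dvd]
  exact dvd_pow_self p (Nat.succ_ne_zero j)

theorem LU_lucas (p : ℕ) (hp : p.Prime) (a n k : ℕ) :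
    (n.choose k : ℤ) ≡ ((n / p ^ a).choose (k / p ^ a) : ℕ) *
      ((n % p ^ a).choose (k % p ^ a) : ℕ) [ZMOD p] := by
  have := Fact.mk hp
  have hq : 0 < p ^ a := pow_pos hp.pos a
  have h1 := Choose.choose_modEq_choose_mul_prod_range_choose (p := p) (n := n) (k := k) a
  have h2 := Choose.choose_modEq_prod_range_choose (p := p) (a := a) (Nat.mod_lt n hq)
    (Nat.mod_lt k hq)
  have e : ∏ i ∈ Finset.range a, ((n % p ^ a / p ^ i % p).choose (k % p ^ a / p ^ i % p)) =
      ∏ i ∈ Finset.range a, ((n / p ^ i % p).choose (k / p ^ i % p)) := by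
    refine Finset.prod_congr rfl fun i hi => ?_
    rw [LU_digit p a i n (Finset.mem_range.1 hi), LU_digit p a i k (Finset.mem_range.1 hi)]
  rw [← Nat.cast_prod, e] at h2
  exact h1.trans (Int.ModEq.mul_left _ h2.symm)

theorem LU_two (p : ℕ) (hp : p.Prime) (e m : ℕ) : ¬ p ∣ m.choose (m % p ^ e) := by
  have hq : 0 < p ^ e := pow_pos hp.pos e
  have h := LU_lucas p hp e m (m % p ^ e)
  rw [Nat.div_eq_of_lt (Nat.mod_lt m hq), Nat.mod_mod, Nat.choose_self, Nat.choose_zero_right] at h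
  intro hd
  have h3 : ((m.choose (m % p ^ e) : ℕ) : ℤ) ≡ 0 [ZMOD p] :=
    (Int.modEq_zero_iff_dvd).2 (by exact_mod_cast hd)
  have h4 : (1 : ℤ) ≡ 0 [ZMOD p] := by
    have := h.symm.trans h3
    simpa using this
  have h5 := (Int.modEq_zero_iff_dvd).1 h4
  have h6 : p ∣ 1 := by exact_mod_cast h5
  exact hp.one_lt.ne' (Nat.dvd_one.1 h6)

theorem t_LU : St_LU := by
  intro p hp e
  have hq : 0 < p ^ e := pow_pos hp.pos e
  refine ⟨?_, LU_two p hp e, ?_⟩
  · intro b c hb hc hbc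
    have h := LU_lucas p hp e (b + c) c
    have h1 : (b + c) % p ^ e = b + c - p ^ e := by
      rw [Nat.mod_eq_sub_mod hbc, Nat.mod_eq_of_lt (by omega)]
    rw [h1, Nat.mod_eq_of_lt hc, Nat.choose_eq_zero_of_lt (by omega : b + c - p ^ e < c)] at h
    have h2 : ((b + c).choose c : ℤ) ≡ 0 [ZMOD p] := by simpa using h
    have h3 := (Int.modEq_zero_iff_dvd).1 h2
    exact_mod_cast h3
  · intro e'
    have h := LU_two p hp e (p ^ (e' + e) - 1)
    have h1 : (p ^ (e' + e) - 1) % p ^ e = p ^ e - 1 := by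
      have hq' : 0 < p ^ e' := pow_pos hp.pos e'
      have e1 : p ^ (e' + e) - 1 = (p ^ e - 1) + p ^ e * (p ^ e' - 1) := by
        rw [pow_add]
        obtain ⟨x, hx⟩ := Nat.exists_eq_succ_of_ne_zero hq.ne'
        obtain ⟨y, hy⟩ := Nat.exists_eq_succ_of_ne_zero hq'.ne'
        rw [hx, hy]
        simp only [Nat.succ_eq_add_one, Nat.add_sub_cancel]
        have : (y + 1) * (x + 1) = x + (x + 1) * y + 1 := by ring
        rw [this]
        rfl
      rw [e1, Nat.add_mul_mod_self_left, Nat.mod_eq_of_lt (by omega)]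
    rw [h1] at h
    exact h

end Pool.Agent.H580C
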