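import Pool.Agent.H580C.CH.Props

set_option autoImplicit false

universe u

namespace Pool.Agent.H580C

open MvPolynomial Pool.Agent.Chud

theorem MD_dir_coeff_one {k : Type u} [Field k] (p q n : ℕ) [CharP k p] (hpq : p ∣ q)
    (F : MvPolynomial (Fin (n + 1)) k) (hF : DvdE q {0} F) :
    (dir (e0 k n) F).coeff 1 = 0 := by
  classical
  rw [← MvPolynomial.support_sum_monomial_coeff F, map_sum, Polynomial.finsetSum_coeff]
  refine Finset.sum_eq_zero fun m hm => ?_
  have hq : q ∣ m 0 := hF m hm 0 rfl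
  have hp : p ∣ m 0 := dvd_trans hpq hq
  have hcast : ((m 0 : ℕ) : MvPolynomial (Fin (n + 1)) k) = 0 := by
    have h1 : ((m 0 : ℕ) : k) = 0 := (CharP.cast_eq_zero_iff k p (m 0)).mpr hp
    have h2 : ((m 0 : ℕ) : MvPolynomial (Fin (n + 1)) k) = C ((m 0 : ℕ) : k) := by
      simp
    rw [h2, h1, C_0]
  have hmon : dir (e0 k n) (monomial m (coeff m F)) =
      Polynomial.C (C (coeff m F)) * ((Polynomial.X + Polynomial.C (X 0)) ^ (m 0) *
        Polynomial.C (∏ i : Fin n, (X i.succ) ^ (m i.succ))) := by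
    have ha : algebraMap k (Polynomial (MvPolynomial (Fin (n + 1)) k)) (coeff m F) =
        Polynomial.C (C (coeff m F)) := by
      rw [IsScalarTower.algebraMap_apply k (MvPolynomial (Fin (n + 1)) k)
        (Polynomial (MvPolynomial (Fin (n + 1)) k)), Polynomial.algebraMap_eq,
        MvPolynomial.algebraMap_eq]
    have h0 : Polynomial.C (X 0 : MvPolynomial (Fin (n + 1)) k) +
        Polynomial.C (C (e0 k n 0)) * Polynomial.X = Polynomial.X + Polynomial.C (X 0) := by
      rw [show e0 k n 0 = 1 from Pi.single_eq_same 0 1, C_1, Polynomial.C_1, one_mul]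
      exact add_comm _ _
    have h1 : ∀ i : Fin n, Polynomial.C (X i.succ : MvPolynomial (Fin (n + 1)) k) +
        Polynomial.C (C (e0 k n i.succ)) * Polynomial.X = Polynomial.C (X i.succ) := by
      intro i
      rw [show e0 k n i.succ = 0 from Pi.single_eq_of_ne (Fin.succ_ne_zero i) 1, C_0,
        Polynomial.C_0, zero_mul, add_zero]
    unfold dir
    rw [aeval_monomial, Finsupp.prod_fintype _ _ (fun i => pow_zero _), Fin.prod_univ_succ,
      map_prod, ha, h0]
    simp only [h1, Polynomial.C_pow]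
  rw [hmon, Polynomial.coeff_C_mul, Polynomial.coeff_mul_C, Polynomial.coeff_X_add_C_pow,
    Nat.choose_one_right, hcast]
  simp

theorem t_MD (hML : St_ML.{u}) (hSU : St_SU.{u}) (hCE : St_CE.{u}) : St_MD.{u} := by
  intro k _ _ p e n a _ _ v₀ Z A he ha hv0 hlow hA hZ hv
  obtain ⟨f, hf⟩ := hCE k n v₀ hv0
  obtain ⟨inj, hom, -, ord, dr, -⟩ := hSU k (n + 1) f
  obtain ⟨inj', hom', -, ord', -, -⟩ := hSU k (n + 1) f.symm
  have hfs : f.symm v₀ = e0 k n := by rw [← hf, LinearEquiv.symm_apply_apply]
  have hlow' : LowT (insert (e0 k n) {w | f w ∈ Z}) 1 a := by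
    intro G d hG0 hGd hGv
    refine hlow (sub f.symm G) d ?_ (hom' G d hGd) ?_
    · intro h0
      apply hG0
      apply inj'
      rw [h0, map_zero]
    · intro v hvm
      rw [ord']
      apply hGv
      rcases hvm with h | h
      · left
        rw [h, hfs]
      · right
        show f (f.symm v) ∈ Z
        rw [LinearEquiv.apply_symm_apply]
        exact h
  have hdvd : DvdE (p ^ e) {0} (sub f A) := by
    refine hML k p e n a {w | f w ∈ Z} (sub f A) ha hlow' (hom _ _ hA) ?_ ?_
    · intro w hw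
      rw [ord]
      exact hZ _ hw
    · rw [ord, hf]
      exact hv
  have h1 := MD_dir_coeff_one p (p ^ e) n (dvd_pow_self p (by omega)) (sub f A) hdvd
  rw [dr, hf] at h1
  apply inj
  rw [h1, map_zero]

end Pool.Agent.H580C
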