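import Pool.Agent.H580C.CH.Props

set_option autoImplicit false

universe u

namespace Pool.Agent.H580C

open MvPolynomial Pool.Agent.Chud

theorem ML_mu_pow {k : Type u} [Field k] {N : ℕ} (v : Fin N → k) {G : MvPolynomial (Fin N) k}
    (hG : G ≠ 0) (q : ℕ) : mu v (G ^ q) = q * mu v G := by
  induction q with
  | zero =>
    have h := mu_mul v (one_ne_zero : (1 : MvPolynomial (Fin N) k) ≠ 0) one_ne_zero
    rw [mul_one] at h
    rw [pow_zero]
    omega
  | succ q ih =>
    rw [pow_succ, mu_mul v (pow_ne_zero q hG) hG, ih]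
    ring

theorem ML_coeff_pow {k : Type u} [Field k] (p e N : ℕ) [Fact p.Prime] [CharP k p]
    (G : MvPolynomial (Fin N) k) (m : Fin N →₀ ℕ) :
    coeff ((p ^ e) • m) (G ^ (p ^ e)) = (coeff m G) ^ (p ^ e) := by
  classical
  have : CharP (MvPolynomial (Fin N) k) p := inferInstance
  have : ExpChar (MvPolynomial (Fin N) k) p := ExpChar.prime (Fact.out)
  have hq : 0 < p ^ e := pow_pos (Fact.out : p.Prime).pos e
  conv_lhs => rw [G.as_sum]
  rw [sum_pow_char_pow p e, coeff_sum]
  simp only [monomial_pow, coeff_monomial]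
  rw [Finset.sum_eq_single m]
  · simp
  · intro b _ hb
    rw [if_neg]
    intro h
    apply hb
    ext i
    have := DFunLike.congr_fun h i
    simp only [Finsupp.coe_smul, Pi.smul_apply, smul_eq_mul] at this
    exact Nat.eq_of_mul_eq_mul_left hq this
  · intro h
    rw [notMem_support_iff.1 h, zero_pow hq.ne']
    simp

theorem t_ML (hHC : St_HC.{u}) (hHM : St_HM.{u}) (hHH : St_HH.{u}) (hMX : St_MX.{u}) (hKD : St_KD.{u}) (hRT : St_RT.{u}) (hLS : St_LS.{u}) (hOE : St_OE.{u}) : St_ML.{u} := by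
  intro k _ _ p e n a _ _ Z A ha hlow hA hZ he0
  have hp : p.Prime := Fact.out
  have hq : 0 < p ^ e := pow_pos hp.pos e
  apply hKD k p e (n + 1) {0} A
  intro c hc0 hcq hcT
  by_contra hne
  have hc00 : 1 ≤ c 0 := by
    rcases Nat.eq_zero_or_pos (c 0) with h | h
    · exfalso
      apply hc0
      ext i
      by_cases hi : i = 0
      · rw [hi, h]; rfl
      · rw [hcT i (by simpa using hi)]; rfl
    · exact h
  obtain ⟨b, hcb, hbq, -, hbne, hbd⟩ := hMX k p e (n + 1) Set.univ A c hcq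
    (fun i hi => absurd (Set.mem_univ i) hi) hne
  -- degree of `b`
  have hdegb : b.degree ≤ (n + 1) * (p ^ e - 1) := by
    rw [Finsupp.degree_eq_sum]
    calc ∑ i, b i ≤ ∑ _i : Fin (n + 1), (p ^ e - 1) :=
          Finset.sum_le_sum fun i _ => Nat.le_sub_one_of_lt (hbq i)
      _ = (n + 1) * (p ^ e - 1) := by simp
  -- monomials of `hd b A`
  have hmon : ∀ m, coeff m (hd b A) ≠ 0 → coeff (m + b) A ≠ 0 := by
    intro m hm h
    apply hm
    rw [hHC k (n + 1) b m A, h, mul_zero]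
  have hdegsum : b.degree ≤ (a - 1) * p ^ e + n * (p ^ e - 1) := by
    obtain ⟨m, hm⟩ := ne_zero_iff.1 hbne
    have h1 := hmon m hm
    have h2 := hA h1
    have h3 : (m + b).degree = m.degree + b.degree := map_add _ _ _
    have h4 : (m + b).degree = (a - 1) * p ^ e + n * (p ^ e - 1) := by
      rw [← h2, Finsupp.degree_eq_weight_one]; rfl
    omega
  obtain ⟨c', d', G, -, hGh, hdd, hbG, hc'⟩ := hRT k p e (n + 1) _ 0 (hd b A) hbne
    (hHH k (n + 1) b _ A hA) (fun m hm i _ => hbd m hm i (Set.mem_univ i))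
  have hc'0 := hc' hbd
  subst hc'0
  rw [pow_zero, one_mul] at hbG
  rw [zero_add] at hdd
  have hG0 : G ≠ 0 := by
    intro h
    rw [h, zero_pow hq.ne'] at hbG
    exact hbne hbG
  have hsum : p ^ e * d' + b.degree = (a - 1) * p ^ e + n * (p ^ e - 1) := by omega
  have hd' : a - 1 ≤ d' := by
    by_contra hlt
    push Not at hlt
    have h1 : p ^ e * (d' + 1) ≤ p ^ e * (a - 1) := Nat.mul_le_mul_left _ hlt
    have h2 : (n + 1) * (p ^ e - 1) = n * (p ^ e - 1) + (p ^ e - 1) := by ring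
    rw [Nat.mul_comm (a - 1)] at hsum
    rw [Nat.mul_add, Nat.mul_one] at h1
    omega
  -- orders at the points of `Z`
  have hGZ : ∀ v ∈ Z, G ∈ mI v ^ (1 + (d' + 1 - a)) := by
    intro v hv
    have h1 := hHM k (n + 1) b v _ A (hZ v hv)
    rw [hbG, mem_mI_pow_iff v (pow_ne_zero _ hG0), ML_mu_pow v hG0] at h1
    rw [mem_mI_pow_iff v hG0]
    by_contra hlt
    push Not at hlt
    have h2 : mu v G ≤ d' - (a - 1) := by omega
    have h3 : p ^ e * mu v G ≤ p ^ e * (d' - (a - 1)) := Nat.mul_le_mul_left _ h2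
    have h4 : p ^ e * (d' - (a - 1)) + p ^ e * (a - 1) = p ^ e * d' := by
      rw [← Nat.mul_add]; congr 1; omega
    rw [Nat.mul_comm (a - 1)] at hsum
    omega
  -- order at `e₀`
  have hGe : (2 ≤ a ∨ a = 1) := by omega
  have hsup : ∀ m ∈ G.support, m 0 + 2 ≤ a := by
    intro m hm
    have h1 : coeff ((p ^ e) • m) (hd b A) ≠ 0 := by
      rw [hbG, ML_coeff_pow]
      exact pow_ne_zero _ (mem_support_iff.1 hm)
    have h2 := hmon _ h1
    have h3 := (hOE k n _ _ A hA).1 he0 _ (mem_support_iff.2 h2)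
    have h4 : ((p ^ e) • m + b) 0 = p ^ e * m 0 + b 0 := by
      simp
    rw [h4] at h3
    have h5 : 1 ≤ b 0 := le_trans hc00 (hcb 0)
    by_contra hlt
    have h6 : a - 1 ≤ m 0 := by omega
    have h7 : p ^ e * (a - 1) ≤ p ^ e * m 0 := Nat.mul_le_mul_left _ h6
    rw [Nat.mul_comm (a - 1)] at h3
    omega
  have hGe0 : G ∈ mI (e0 k n) ^ (1 + (d' + 1 - a)) := by
    rw [hOE k n d' _ G hGh]
    intro m hm
    have := hsup m hm
    omega
  have ha2 : 2 ≤ a := by
    obtain ⟨m, hm⟩ := ne_zero_iff.1 hG0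
    have := hsup m (mem_support_iff.2 hm)
    omega
  have hfin := hLS k (n + 1) 1 a (insert (e0 k n) Z) (Set.insert_nonempty _ _) le_rfl hlow
    (d' + 1 - a) G d' hG0 hGh (by
      intro v hv
      rcases hv with hv | hv
      · rw [hv]; exact hGe0
      · exact hGZ v hv)
  omega

end Pool.Agent.H580C
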