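import Pool.Agent.H580C.CH.Props

set_option autoImplicit false

universe u

namespace Pool.Agent.H580C

open MvPolynomial Pool.Agent.Chud

namespace MT

theorem mem_iff {k : Type*} [Field k] {σ : Type*} (v : σ → k) (F : MvPolynomial σ k) (m : ℕ) :
    F ∈ mI v ^ m ↔ ∀ x : σ →₀ ℕ, x.degree < m → coeff x (trans v F) = 0 := by
  rw [mI_pow_eq_comap, Ideal.mem_comap]
  change transE v F ∈ _ ↔ _
  rw [transE_apply, mem_pow_idealOfVars_iff']

/-- translation over a ring -/
noncomputable def transA {A : Type*} [CommRing A] {σ : Type*} (v : σ → A) :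
    MvPolynomial σ A →ₐ[A] MvPolynomial σ A :=
  aeval (fun i => X i + C (v i))

theorem map_transA {A : Type*} [CommRing A] {K : Type*} [Field K] {σ : Type*} (ι : A →+* K)
    (v : σ → A) (F : MvPolynomial σ A) :
    map ι (transA v F) = trans (fun i => ι (v i)) (map ι F) := by
  have h : (map ι).comp (transA v : MvPolynomial σ A →ₐ[A] MvPolynomial σ A).toRingHom =
      (trans (fun i => ι (v i)) : MvPolynomial σ K →ₐ[K] MvPolynomial σ K).toRingHom.comp
        (map ι) := by
    apply MvPolynomial.ringHom_ext
    · intro r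
      simp [transA, Chud.trans, MvPolynomial.algebraMap_eq]
    · intro i
      simp [transA, Chud.trans]
  exact DFunLike.congr_fun h F

/-- directional expansion over a ring -/
noncomputable def dirA {A : Type*} [CommRing A] {σ : Type*} (v : σ → A) :
    MvPolynomial σ A →ₐ[A] Polynomial (MvPolynomial σ A) :=
  aeval (fun i => Polynomial.C (X i) + Polynomial.C (C (v i)) * Polynomial.X)

theorem map_dirA {A : Type*} [CommRing A] {K : Type*} [Field K] {σ : Type*} (ι : A →+* K)
    (v : σ → A) (F : MvPolynomial σ A) :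
    Polynomial.map (map ι) (dirA v F) = dir (fun i => ι (v i)) (map ι F) := by
  have h : (Polynomial.mapRingHom (map ι)).comp
      (dirA v : MvPolynomial σ A →ₐ[A] Polynomial (MvPolynomial σ A)).toRingHom =
      (dir (fun i => ι (v i)) : MvPolynomial σ K →ₐ[K] Polynomial (MvPolynomial σ K)).toRingHom.comp
        (map ι) := by
    apply MvPolynomial.ringHom_ext
    · intro r
      simp [dirA, dir, Polynomial.algebraMap_apply, MvPolynomial.algebraMap_eq]
    · intro i
      simp [dirA, dir]
  exact DFunLike.congr_fun h F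

end MT

theorem t_MT (_hHV : St_HV.{u}) : St_MT.{u} := by
  intro A _ K _ k _ ι φ hι N v F
  refine ⟨fun m h => ?_, fun D => ⟨(MT.dirA v F).coeff D, ?_, ?_⟩⟩
  · rw [MT.mem_iff] at h ⊢
    intro x hx
    have h1 := h x hx
    rw [← MT.map_transA, coeff_map] at h1
    have h2 : coeff x (MT.transA v F) = 0 := hι (by rw [h1, map_zero])
    rw [← MT.map_transA, coeff_map, h2, map_zero]
  · rw [← MT.map_dirA, Polynomial.coeff_map]
  · rw [← MT.map_dirA, Polynomial.coeff_map]

end Pool.Agent.H580C
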