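import Pool.Agent.H580C.CH.Props

set_option autoImplicit false

universe u

namespace Pool.Agent.H580C

open MvPolynomial Pool.Agent.Chud

theorem t_MX (hHX : St_HX.{u}) (hLU : St_LU) (hKD : St_KD.{u}) : St_MX.{u} := by
  classical
  intro k _ p e N _ _ T F b₀ hb₀ hT₀ hF₀
  set q := p ^ e with hq
  let U : Fin N →₀ ℕ := Finsupp.equivFunOnFinite.symm (fun _ => q)
  let S : Finset (Fin N →₀ ℕ) := (Finset.Iic U).filter
    (fun b => b₀ ≤ b ∧ (∀ i, b i < q) ∧ (∀ i, i ∉ T → b i = 0) ∧ hd b F ≠ 0)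
  have hS : ∀ b : Fin N →₀ ℕ, b ∈ S ↔
      b₀ ≤ b ∧ (∀ i, b i < q) ∧ (∀ i, i ∉ T → b i = 0) ∧ hd b F ≠ 0 := by
    intro b
    simp only [S, Finset.mem_filter, Finset.mem_Iic]
    constructor
    · rintro ⟨-, h⟩; exact h
    · intro h
      refine ⟨fun i => ?_, h⟩
      exact (h.2.1 i).le
  have hne : S.Nonempty := ⟨b₀, (hS b₀).2 ⟨le_refl _, hb₀, hT₀, hF₀⟩⟩
  obtain ⟨b, hbS, hmax⟩ := Finset.exists_max_image S (fun b => b.degree) hne
  obtain ⟨h1, h2, h3, h4⟩ := (hS b).1 hbS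
  refine ⟨b, h1, h2, h3, h4, ?_⟩
  refine hKD k p e N T (hd b F) ?_
  intro c hc0 hcq hcT
  rw [hHX]
  by_cases hex : ∃ i, q ≤ b i + c i
  · obtain ⟨i, hi⟩ := hex
    have hd1 : p ∣ (b i + c i).choose (c i) :=
      (hLU p (Fact.out) e).1 (b i) (c i) (h2 i) (hcq i) hi
    have hd2 : p ∣ ∏ i, (b i + c i).choose (c i) :=
      hd1.trans (Finset.dvd_prod_of_mem _ (Finset.mem_univ i))
    have hz : ((∏ i, (b i + c i).choose (c i) : ℕ) : k) = 0 := (CharP.cast_eq_zero_iff k p _).2 hd2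
    rw [hz, C_0, zero_mul]
  · push Not at hex
    have hz : hd (b + c) F = 0 := by
      by_contra hne0
      have hm : b + c ∈ S := by
        refine (hS _).2 ⟨h1.trans (le_add_of_nonneg_right (zero_le)), ?_, ?_, hne0⟩
        · intro i; simpa using hex i
        · intro i hi; simp [h3 i hi, hcT i hi]
      have h5 := hmax _ hm
      rw [map_add] at h5
      have h6 : c.degree = 0 := by omega
      exact hc0 ((Finsupp.degree_eq_zero_iff c).1 h6)
    rw [hz, mul_zero]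

end Pool.Agent.H580C
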