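import Pool.Agent.H580C.CH.Props

set_option autoImplicit false

universe u

namespace Pool.Agent.H580C

open MvPolynomial Pool.Agent.Chud

lemma OE_X_mem (k : Type u) [Field k] (n : ℕ) (i : Fin (n + 1)) (hi : i ≠ 0) :
    (X i : MvPolynomial (Fin (n + 1)) k) ∈ mI (e0 k n) := by
  unfold mI
  rw [RingHom.mem_ker, eval_X]
  simp [e0, hi]

lemma OE_trans_X (k : Type u) [Field k] (n : ℕ) (i : Fin (n + 1)) :
    trans (e0 k n) (X i : MvPolynomial (Fin (n + 1)) k) = if i = 0 then X 0 + 1 else X i := by
  unfold Pool.Agent.Chud.trans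
  rw [aeval_X]
  by_cases hi : i = 0
  · subst hi; simp [e0]
  · simp [e0, hi]

lemma OE_trans_monomial (k : Type u) [Field k] (n : ℕ) (b : Fin (n + 1) →₀ ℕ) (a : k) :
    trans (e0 k n) (monomial b a) = ∑ j ∈ Finset.range (b 0 + 1),
      monomial (Finsupp.single 0 j + b.erase 0) (a * ((b 0).choose j : k)) := by
  rw [monomial_eq, map_mul, algHom_C, Finsupp.prod_fintype _ _ (by simp), map_prod,
    ← Finset.mul_prod_erase Finset.univ _ (Finset.mem_univ (0 : Fin (n+1)))]
  have e1 : ∏ x ∈ Finset.univ.erase (0 : Fin (n+1)), (trans (e0 k n)) (X x ^ b x) =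
      (monomial (b.erase 0) (1:k) : MvPolynomial (Fin (n + 1)) k) := by
    rw [monomial_eq, C_1, one_mul, Finsupp.prod_fintype _ _ (by simp),
      ← Finset.mul_prod_erase Finset.univ _ (Finset.mem_univ (0 : Fin (n+1)))]
    simp only [Finsupp.erase_same, pow_zero, one_mul]
    refine Finset.prod_congr rfl fun i hi => ?_
    have hi' : i ≠ 0 := (Finset.mem_erase.mp hi).1
    rw [map_pow, OE_trans_X, if_neg hi', Finsupp.erase_ne hi']
  rw [e1, map_pow, OE_trans_X, if_pos rfl, add_pow, Finset.sum_mul, Finset.mul_sum]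
  refine Finset.sum_congr rfl fun j _ => ?_
  rw [one_pow, mul_one]
  have e2 : (X 0 : MvPolynomial (Fin (n + 1)) k) ^ j = monomial (Finsupp.single 0 j) 1 := by
    rw [X_pow_eq_monomial]
  have e3 : (((b 0).choose j : ℕ) : MvPolynomial (Fin (n + 1)) k) = C (((b 0).choose j : ℕ) : k) := by
    simp
  rw [e2, e3, algebraMap_eq]
  rw [show (monomial (Finsupp.single 0 j) (1:k) : MvPolynomial (Fin (n + 1)) k) *
    C (((b 0).choose j : ℕ) : k) = C (((b 0).choose j : ℕ) : k) * monomial (Finsupp.single 0 j) (1:k) by ring]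
  rw [mul_assoc, monomial_mul, C_mul_monomial, C_mul_monomial]
  simp

lemma OE_coeff (k : Type u) [Field k] (n : ℕ) (b c : Fin (n + 1) →₀ ℕ) (a : k)
    (hbc : b.degree = c.degree) :
    coeff (c.erase 0) (trans (e0 k n) (monomial b a)) = if b = c then a else 0 := by
  classical
  rw [OE_trans_monomial, coeff_sum]
  simp only [coeff_monomial]
  split_ifs with h
  · subst h
    rw [Finset.sum_eq_single 0]
    · simp
    · intro j _ hj
      rw [if_neg]
      intro h2
      have := DFunLike.congr_fun h2 0
      simp at this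
      exact hj this
    · intro h2; exact absurd (Finset.mem_range.mpr (Nat.succ_pos _)) h2
  · apply Finset.sum_eq_zero
    intro j _
    rw [if_neg]
    intro h2
    apply h
    have h3 : ∀ i, i ≠ 0 → b i = c i := by
      intro i hi
      have := DFunLike.congr_fun h2 i
      rw [Finsupp.add_apply, Finsupp.single_apply, if_neg (Ne.symm hi), zero_add,
        Finsupp.erase_ne hi, Finsupp.erase_ne hi] at this
      exact this
    ext i
    by_cases hi : i = 0
    · subst hi
      rw [Finsupp.degree_eq_sum, Finsupp.degree_eq_sum, Fin.sum_univ_succ, Fin.sum_univ_succ] at hbc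
      have : ∑ i : Fin n, b i.succ = ∑ i : Fin n, c i.succ :=
        Finset.sum_congr rfl fun i _ => h3 _ (Fin.succ_ne_zero i)
      omega
    · exact h3 i hi

theorem t_OE : St_OE.{u} := by
  intro k _ n d m F hF
  have hdeg : ∀ c ∈ F.support, c.degree = d := by
    intro c hc
    have := hF (mem_support_iff.mp hc)
    rw [Finsupp.degree_eq_weight_one]
    exact this
  constructor
  · intro h c hc
    by_contra hcon
    push Not at hcon
    rw [mI_pow_eq_comap, Ideal.mem_comap] at h
    change transE _ F ∈ _ at h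
    rw [transE_apply, mem_pow_idealOfVars_iff'] at h
    have hd' : (c.erase 0).degree < m := by
      have h1 := hdeg c hc
      rw [Finsupp.degree_eq_sum, Fin.sum_univ_succ] at h1 ⊢
      rw [Finsupp.erase_same]
      have : ∑ i : Fin n, (c.erase 0) i.succ = ∑ i : Fin n, c i.succ :=
        Finset.sum_congr rfl fun i _ => Finsupp.erase_ne (Fin.succ_ne_zero i)
      omega
    have h2 := h (c.erase 0) hd'
    have h3 : trans (e0 k n) F = ∑ b ∈ F.support, trans (e0 k n) (monomial b (coeff b F)) := by
      conv_lhs => rw [F.as_sum]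
      rw [map_sum]
    rw [h3, coeff_sum, Finset.sum_eq_single c] at h2
    · rw [OE_coeff k n c c _ rfl, if_pos rfl] at h2
      exact (mem_support_iff.mp hc) h2
    · intro b hb hbc
      rw [OE_coeff k n b c _ (by rw [hdeg b hb, hdeg c hc]), if_neg hbc]
    · intro h4; exact absurd hc h4
  · intro h
    rw [F.as_sum]
    apply Ideal.sum_mem
    intro c hc
    have hc0 := h c hc
    have hcd := hdeg c hc
    rw [monomial_eq, Finsupp.prod_fintype _ _ (by simp)]
    apply Ideal.mul_mem_left
    rw [← Finset.mul_prod_erase Finset.univ _ (Finset.mem_univ (0 : Fin (n+1)))]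
    apply Ideal.mul_mem_left
    have h5 : ∏ x ∈ Finset.univ.erase (0 : Fin (n+1)), (X x : MvPolynomial (Fin (n + 1)) k) ^ c x ∈
        mI (e0 k n) ^ (∑ x ∈ Finset.univ.erase (0 : Fin (n+1)), c x) := by
      rw [← Finset.prod_pow_eq_pow_sum]
      apply Ideal.prod_mem_prod
      intro i hi
      exact Ideal.pow_mem_pow (OE_X_mem k n i (Finset.mem_erase.mp hi).1) _
    apply Ideal.pow_le_pow_right _ h5
    rw [Finsupp.degree_eq_sum, ← Finset.add_sum_erase Finset.univ _ (Finset.mem_univ (0 : Fin (n+1)))] at hcd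
    omega

end Pool.Agent.H580C
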