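import Pool.Agent.H580C.CH.Props

set_option autoImplicit false

universe u

namespace Pool.Agent.H580C

open MvPolynomial Pool.Agent.Chud

namespace PA

theorem arith_deg (n a q1 q' c d' : ℕ) (ha : 2 ≤ a) (h1 : 1 ≤ q1) (h' : 1 ≤ q')
    (haq : a ≤ q') (hc : c < q')
    (h : (q' - (a - 1)) * 1 + (a - 1) + ((a - 1 + n) * (q1 * q' - 1) + (a - 2)) =
      c + q' * d' + n * (q' - 1)) : d' = (a - 1) * q1 + n * (q1 - 1) := by
  obtain ⟨b, rfl⟩ : ∃ b, a = b + 2 := ⟨a - 2, by omega⟩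
  obtain ⟨x, rfl⟩ : ∃ x, q1 = x + 1 := ⟨q1 - 1, by omega⟩
  obtain ⟨y, rfl⟩ : ∃ y, q' = y + 1 := ⟨q' - 1, by omega⟩
  have e1 : (x + 1) * (y + 1) - 1 = x * y + x + y := by
    have : (x + 1) * (y + 1) = x * y + x + y + 1 := by ring
    omega
  have e2 : b + 2 - 1 = b + 1 := rfl
  have e3 : b + 2 - 2 = b := rfl
  have e4 : y + 1 - 1 = y := rfl
  have e5 : x + 1 - 1 = x := rfl
  rw [e1, e2, e3, e4] at h
  rw [e2, e5]
  have e6 : (y + 1 - (b + 1)) * 1 + (b + 1) = y + 1 := by omega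
  rw [e6] at h
  have e7 : c + (y + 1) * d' = y + (y + 1) * ((b + 1) * (x + 1) + n * x) := by
    have h8 : y + 1 + ((b + 1 + n) * (x * y + x + y) + b) =
        y + (y + 1) * ((b + 1) * (x + 1) + n * x) + n * y := by ring
    omega
  have e8 : (c + (y + 1) * d') / (y + 1) = d' := by
    rw [Nat.add_mul_div_left _ _ (Nat.succ_pos y), Nat.div_eq_of_lt hc, zero_add]
  have e9 : (y + (y + 1) * ((b + 1) * (x + 1) + n * x)) / (y + 1) =
      (b + 1) * (x + 1) + n * x := by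
    rw [Nat.add_mul_div_left _ _ (Nat.succ_pos y), Nat.div_eq_of_lt (Nat.lt_succ_self y),
      zero_add]
  rw [← e8, e7, e9]

theorem arith_ord1 (n q1 q' m : ℕ) (h1 : 1 ≤ q1) (h' : 1 ≤ q')
    (h : n * (q1 * q' - 1) + 1 ≤ q' * m + n * (q' - 1)) : n * (q1 - 1) + 1 ≤ m := by
  obtain ⟨x, rfl⟩ : ∃ x, q1 = x + 1 := ⟨q1 - 1, by omega⟩
  obtain ⟨y, rfl⟩ : ∃ y, q' = y + 1 := ⟨q' - 1, by omega⟩
  have e1 : (x + 1) * (y + 1) - 1 = x * y + x + y := by
    have : (x + 1) * (y + 1) = x * y + x + y + 1 := by ring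
    omega
  have e4 : y + 1 - 1 = y := rfl
  have e5 : x + 1 - 1 = x := rfl
  rw [e1, e4] at h
  rw [e5]
  by_contra hcon
  have h2 : m ≤ n * x := by omega
  have h3 : (y + 1) * m ≤ (y + 1) * (n * x) := Nat.mul_le_mul_left _ h2
  nlinarith

theorem arith_ord0 (n q1 q' m : ℕ) (h1 : 1 ≤ q1) (h' : 1 ≤ q')
    (h : n * (q1 * q' - 1) ≤ q' * m + n * (q' - 1)) : n * (q1 - 1) ≤ m := by
  obtain ⟨x, rfl⟩ : ∃ x, q1 = x + 1 := ⟨q1 - 1, by omega⟩
  obtain ⟨y, rfl⟩ : ∃ y, q' = y + 1 := ⟨q' - 1, by omega⟩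
  have e1 : (x + 1) * (y + 1) - 1 = x * y + x + y := by
    have : (x + 1) * (y + 1) = x * y + x + y + 1 := by ring
    omega
  have e4 : y + 1 - 1 = y := rfl
  have e5 : x + 1 - 1 = x := rfl
  rw [e1, e4] at h
  rw [e5]
  by_contra hcon
  have h2 : m + 1 ≤ n * x := by omega
  have h3 : (y + 1) * (m + 1) ≤ (y + 1) * (n * x) := Nat.mul_le_mul_left _ h2
  nlinarith

end PA

theorem t_PA (hHX : St_HX.{u}) (hHP : St_HP.{u}) (hLU : St_LU) (hTN : St_TN.{u}) (hTS : St_TS.{u}) : St_PA.{u} := by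
  intro k _ _ p r e n a _ _ Z h Y l hn ha hae hZ hZ0 hlow hh hY0 hYh hYv hl0 hlh
  have hp : p.Prime := Fact.out
  have hq' : 1 ≤ p ^ e := Nat.one_le_pow _ _ hp.pos
  have hq1 : 1 ≤ p ^ r := Nat.one_le_pow _ _ hp.pos
  have hqq : p ^ (r + e) = p ^ r * p ^ e := pow_add p r e
  have hqge : p ^ e ≤ p ^ (r + e) := by
    rw [hqq]
    exact Nat.le_mul_of_pos_left _ hq1
  -- Step 1
  have hdeg : (a - 1 + n) * (p ^ (r + e) - 1) + (a - 2) <
      p ^ (r + e) * (a - 1) + n * (p ^ (r + e) - 1) := by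
    obtain ⟨b, rfl⟩ : ∃ b, a = b + 2 := ⟨a - 2, by omega⟩
    obtain ⟨x, hx⟩ : ∃ x, p ^ (r + e) = x + 1 := ⟨p ^ (r + e) - 1, by omega⟩
    rw [hx]
    have e2 : b + 2 - 1 = b + 1 := rfl
    have e3 : b + 2 - 2 = b := rfl
    have e4 : x + 1 - 1 = x := rfl
    rw [e2, e3, e4]
    nlinarith
  have hTop : hd (topI n (p ^ (r + e) - 1)) Y ≠ 0 :=
    hTN k p (r + e) n _ a (Z : Set (Fin (n + 1) → k)) Y Z.finite_toSet
      (by simpa using hZ) (by omega) hlow (fun v hv => hZ0 v (by simpa using hv)) hY0 hYh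
      (fun v hv => hYv v (by simpa using hv)) hdeg
  -- Step 2
  have hb : hd (topI n (p ^ e - 1)) Y ≠ 0 := by
    intro h0
    have h1 := hHX k (n + 1) (topI n (p ^ e - 1)) (topI n (p ^ (r + e) - p ^ e)) Y
    rw [h0, map_zero] at h1
    have h2 : topI n (p ^ e - 1) + topI n (p ^ (r + e) - p ^ e) = topI n (p ^ (r + e) - 1) := by
      ext i
      simp only [topI, Finsupp.add_apply, Finsupp.equivFunOnFinite_symm_apply_apply]
      split_ifs with hi
      · rfl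
      · omega
    rw [h2] at h1
    rcases mul_eq_zero.1 h1.symm with h3 | h3
    · rw [C_eq_zero, CharP.cast_eq_zero_iff k p] at h3
      rw [(Nat.Prime.prime hp).dvd_finset_prod_iff] at h3
      obtain ⟨i, -, hi⟩ := h3
      simp only [topI, Finsupp.equivFunOnFinite_symm_apply_apply] at hi
      by_cases hi0 : i = 0
      · rw [if_pos hi0, if_pos hi0] at hi
        simp at hi
        exact hp.one_lt.ne' hi
      · rw [if_neg hi0, if_neg hi0] at hi
        have h4 := (hLU p hp e).2.2 r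
        apply h4
        have h5 : p ^ e - 1 + (p ^ (r + e) - p ^ e) = p ^ (r + e) - 1 := by omega
        rw [h5] at hi
        rw [← Nat.choose_symm (by omega)]
        have h6 : p ^ (r + e) - 1 - (p ^ e - 1) = p ^ (r + e) - p ^ e := by omega
        rw [h6]
        exact hi
    · exact hTop h3
  -- Step 3
  have hinter : l ^ (a - 1) = ∑ v ∈ Z, C ((eval v l) ^ (a - 1)) * h v := by
    by_contra hne
    have h1 : l ^ (a - 1) - ∑ v ∈ Z, C ((eval v l) ^ (a - 1)) * h v ≠ 0 := sub_ne_zero.2 hne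
    have h2 : (l ^ (a - 1) - ∑ v ∈ Z, C ((eval v l) ^ (a - 1)) * h v).IsHomogeneous (a - 1) := by
      apply IsHomogeneous.sub
      · have := hlh.pow (a - 1)
        rwa [one_mul] at this
      · apply IsHomogeneous.sum
        intro v hv
        have := (isHomogeneous_C (Fin (n + 1)) ((eval v l) ^ (a - 1))).mul (hh v hv).1
        rwa [zero_add] at this
    have h3 := hlow _ _ h1 h2 (by
      intro w hw
      have hw' : w ∈ Z := by simpa using hw
      rw [pow_one]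
      apply RingHom.mem_ker.2
      rw [map_sub, map_sum, map_pow]
      rw [Finset.sum_eq_single w]
      · rw [map_mul, eval_C, (hh w hw').2.1, mul_one, sub_self]
      · intro v hv hvw
        rw [map_mul, (hh v hv).2.2 w hw' (Ne.symm hvw), mul_zero]
      · intro hw2
        exact absurd hw' hw2)
    omega
  -- Step 4
  have hsum : l ^ (p ^ e) * Y =
      ∑ v ∈ Z, ((eval v l) ^ (a - 1)) • (l ^ (p ^ e - (a - 1)) * h v * Y) := by
    have h1 : l ^ (p ^ e) = l ^ (p ^ e - (a - 1)) * l ^ (a - 1) := by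
      rw [← pow_add]
      congr 1
      omega
    rw [h1, hinter, Finset.mul_sum, Finset.sum_mul]
    refine Finset.sum_congr rfl fun v _ => ?_
    rw [smul_eq_C_mul]
    ring
  have hne : hd (topI n (p ^ e - 1)) (l ^ (p ^ e) * Y) ≠ 0 := by
    rw [hHP k p e (n + 1) (topI n (p ^ e - 1)) l Y (by
      intro i
      simp only [topI, Finsupp.equivFunOnFinite_symm_apply_apply]
      split_ifs
      · omega
      · omega)]
    exact mul_ne_zero (pow_ne_zero _ hl0) hb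
  rw [hsum, map_sum] at hne
  obtain ⟨v, hv, hvne⟩ := Finset.exists_ne_zero_of_sum_ne_zero hne
  rw [map_smul] at hvne
  have hc0 : (eval v l) ^ (a - 1) ≠ 0 := left_ne_zero_of_smul hvne
  have hd0 : hd (topI n (p ^ e - 1)) (l ^ (p ^ e - (a - 1)) * h v * Y) ≠ 0 :=
    right_ne_zero_of_smul hvne
  have hlv : eval v l ≠ 0 := by
    intro h0
    apply hc0
    rw [h0, zero_pow (by omega)]
  -- Step 5
  obtain ⟨c, d', A, hc, hA0, hAh, hdd, -, hAv⟩ := hTS k p e n _ _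
    (((hlh.pow (p ^ e - (a - 1))).mul (hh v hv).1).mul hYh) hd0
  rw [one_mul] at hdd
  have hd' : d' = (a - 1) * p ^ r + n * (p ^ r - 1) := by
    apply PA.arith_deg n a (p ^ r) (p ^ e) c d' ha hq1 hq' hae hc
    rw [← hqq, mul_one]
    exact hdd
  refine ⟨v, hv, hlv, A, hA0, hd' ▸ hAh, ?_, ?_⟩
  · intro w hw hwv
    rw [mem_mI_pow_iff w hA0]
    apply PA.arith_ord1 n (p ^ r) (p ^ e) _ hq1 hq'
    rw [← hqq]
    apply hAv w _ (hZ0 w hw)
    rw [pow_add, pow_one, mul_comm]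
    apply Ideal.mul_mem_mul
    · apply Ideal.mul_mem_left
      exact RingHom.mem_ker.2 ((hh v hv).2.2 w hw hwv)
    · exact hYv w hw
  · rw [mem_mI_pow_iff v hA0]
    apply PA.arith_ord0 n (p ^ r) (p ^ e) _ hq1 hq'
    rw [← hqq]
    apply hAv v _ (hZ0 v hv)
    exact Ideal.mul_mem_left _ _ (hYv v hv)

end Pool.Agent.H580C
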