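import Pool.Agent.H580C.CH.Props

set_option autoImplicit false

universe u

namespace Pool.Agent.H580C

open MvPolynomial Pool.Agent.Chud

theorem PD_coeff_zero {k : Type*} [Field k] {σ : Type*} (v : σ → k) (G : MvPolynomial σ k) :
    (dir v G).coeff 0 = G := by
  rw [Polynomial.coeff_zero_eq_eval_zero]
  induction G using MvPolynomial.induction_on with
  | C a =>
    have : dir v (C a : MvPolynomial σ k) = Polynomial.C (C a) := by
      unfold dir
      rw [aeval_C]
      rfl
    rw [this, Polynomial.eval_C]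
  | add f g hf hg => rw [map_add, Polynomial.eval_add, hf, hg]
  | mul_X f i hf =>
    rw [map_mul, Polynomial.eval_mul, hf]
    have : dir v (X i : MvPolynomial σ k) =
        Polynomial.C (X i) + Polynomial.C (C (v i)) * Polynomial.X := by
      unfold dir
      rw [aeval_X]
    rw [this]
    simp

theorem PD_coeff_one_pow {R : Type*} [CommRing R] (P : Polynomial R) (κ : ℕ) :
    (P ^ κ).coeff 1 = (κ : R) * P.coeff 0 ^ (κ - 1) * P.coeff 1 := by
  have h : ∀ Q : Polynomial R, Q.coeff 1 = Q.derivative.coeff 0 := by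
    intro Q
    rw [Polynomial.coeff_derivative]
    simp
  rw [h, h P, Polynomial.derivative_pow]
  rw [Polynomial.mul_coeff_zero, Polynomial.mul_coeff_zero, Polynomial.coeff_C_zero]
  congr 2
  rw [Polynomial.coeff_zero_eq_eval_zero, Polynomial.eval_pow, ← Polynomial.coeff_zero_eq_eval_zero]

theorem t_PD (hMD : St_MD.{u}) : St_PD.{u} := by
  intro k _ _ p r e n a ν κ _ _ Z v F A hr ha hvZ hv0 hlow hF0 hF hFv hA0 hA hAw hAv hνκ hpκ
  have hp : 0 < p := (Fact.out : p.Prime).pos
  have hq : 1 ≤ p ^ r := Nat.one_le_pow _ _ hp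
  have hins : insert v ((Z : Set (Fin (n + 1) → k)) \ {v}) = Z := by
    rw [Set.insert_sdiff_singleton]
    exact Set.insert_eq_of_mem (by exact_mod_cast hvZ)
  have h1 : (dir v A).coeff 1 = 0 := by
    refine hMD k p r n a v ((Z : Set (Fin (n + 1) → k)) \ {v}) A hr ha hv0 ?_ hA ?_ hAv
    · rw [hins]; exact hlow
    · rintro w ⟨hw, hwv⟩
      exact hAw w (by exact_mod_cast hw) (by simpa using hwv)
  have hFk : ∀ w ∈ Z, F ^ κ ∈ mI w ^ (n * ν * κ) := by
    intro w hw
    rw [pow_mul]
    exact Ideal.pow_mem_pow (hFv w hw) κ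
  have e2 : n * (p ^ (r + e) - 1) = n * (p ^ r - 1) + n * ν * κ := by
    rw [← hνκ]
    have : ν * κ + p ^ r - 1 = (p ^ r - 1) + ν * κ := by omega
    rw [this]
    ring
  have h2 : (dir v (A * F ^ κ)).coeff 1 = 0 := by
    refine hMD k p (r + e) n a v ((Z : Set (Fin (n + 1) → k)) \ {v}) (A * F ^ κ) (by omega) ha hv0
      ?_ ?_ ?_ ?_
    · rw [hins]; exact hlow
    · have := hA.mul (hF.pow κ)
      have he : (a - 1) * p ^ r + n * (p ^ r - 1) + (a - 1 + n) * ν * κ =
          (a - 1) * p ^ (r + e) + n * (p ^ (r + e) - 1) := by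
        rw [e2, ← hνκ]
        ring
      rw [he] at this
      exact this
    · rintro w ⟨hw, hwv⟩
      have hw' : w ∈ Z := by exact_mod_cast hw
      have h3 := Ideal.mul_mem_mul (hAw w hw' (by simpa using hwv)) (hFk w hw')
      rw [← pow_add] at h3
      have h4 : n * (p ^ r - 1) + 1 + n * ν * κ = n * (p ^ (r + e) - 1) + 1 := by
        rw [e2]; ring
      rwa [h4] at h3
    · have h3 := Ideal.mul_mem_mul hAv (hFk v hvZ)
      rw [← pow_add, ← e2] at h3
      exact h3
  rw [map_mul, map_pow, Polynomial.mul_coeff_one, PD_coeff_one_pow, h1, zero_mul, add_zero,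
    PD_coeff_zero, PD_coeff_zero] at h2
  have h3 := (mul_eq_zero.1 h2).resolve_left hA0
  rcases mul_eq_zero.1 h3 with h4 | h4
  · exfalso
    rcases mul_eq_zero.1 h4 with h5 | h5
    · apply hpκ
      rw [← CharP.cast_eq_zero_iff k p κ]
      have h6 : (C ((κ : ℕ) : k) : MvPolynomial (Fin (n + 1)) k) = 0 := by
        rw [map_natCast]; exact h5
      exact (C_eq_zero).1 h6
    · exact pow_ne_zero _ hF0 h5
  · exact h4

end Pool.Agent.H580C
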