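import Pool.Agent.H580C.CH.Props

set_option autoImplicit false

universe u

namespace Pool.Agent.H580C

open MvPolynomial Pool.Agent.Chud

theorem PP_aux (hPX : St_PX.{u}) (hPA : St_PA.{u}) (hPD : St_PD.{u}) (hPZ : St_PZ.{u})
    (k : Type u) [Field k] [IsAlgClosed k] (p n a ν : ℕ) [Fact p.Prime]
    [CharP k p] (Z : Finset (Fin (n + 1) → k)) (h : (Fin (n + 1) → k) → MvPolynomial (Fin (n + 1)) k)
    (F : MvPolynomial (Fin (n + 1)) k)
    (hn : 1 ≤ n) (ha : 2 ≤ a) (hν : 1 ≤ ν) (hpν : p ∣ ν) (hZ : Z.Nonempty) (hZ0 : ∀ v ∈ Z, v 0 ≠ 0)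
    (hlow : LowT (Z : Set (Fin (n + 1) → k)) 1 a)
    (hh : ∀ v ∈ Z, (h v).IsHomogeneous (a - 1) ∧ eval v (h v) = 1 ∧
      ∀ w ∈ Z, w ≠ v → eval w (h v) = 0)
    (hF : F ≠ 0) (hFh : F.IsHomogeneous ((a - 1 + n) * ν)) (hFv : ∀ v ∈ Z, F ∈ mI v ^ (n * ν)) :
    ∃ G : MvPolynomial (Fin (n + 1)) k, F = G ^ p := by
  have hp : p.Prime := Fact.out
  have hZn : ∀ v ∈ Z, v ≠ 0 := fun v hv h0 => hZ0 v hv (by rw [h0]; rfl)
  obtain ⟨r, ν', hν', hνe⟩ := Nat.exists_eq_pow_mul_and_not_dvd (by omega : ν ≠ 0) p hp.ne_one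
  have hr : 1 ≤ r := by
    rcases Nat.eq_zero_or_pos r with h0 | h0
    · rw [h0, pow_zero, one_mul] at hνe
      exact absurd (hνe ▸ hpν) hν'
    · exact h0
  have hν'0 : 0 < ν' := by
    rcases Nat.eq_zero_or_pos ν' with h0 | h0
    · exact absurd (h0 ▸ dvd_zero p) hν'
    · exact h0
  have hcop : Nat.Coprime p ν' := (Nat.Prime.coprime_iff_not_dvd hp).2 hν'
  have htot : 1 ≤ Nat.totient ν' := Nat.totient_pos.2 hν'0
  set e := Nat.totient ν' * a with he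
  have he1 : 1 ≤ e := Nat.mul_pos htot (by omega)
  have hae : a ≤ p ^ e := by
    have h1 : a ≤ e := Nat.le_mul_of_pos_left a htot
    exact h1.trans (Nat.lt_pow_self hp.one_lt).le
  have hmod : p ^ e ≡ 1 [MOD ν'] := by
    have := (Nat.ModEq.pow_totient hcop).pow a
    rwa [← pow_mul, one_pow] at this
  have hpe : 1 ≤ p ^ e := Nat.one_le_pow _ _ hp.pos
  have hdvd : ν' ∣ p ^ e - 1 := (Nat.modEq_iff_dvd' hpe).1 hmod.symm
  obtain ⟨κ, hκ⟩ := hdvd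
  have hκ' : ν' * κ + 1 = p ^ e := by omega
  have hpκ : ¬ p ∣ κ := by
    intro hd
    have h1 : p ∣ ν' * κ + 1 := by
      rw [hκ']
      exact dvd_pow_self p (by omega)
    have h2 : p ∣ 1 := (Nat.dvd_add_right (hd.mul_left ν')).1 h1
    exact hp.one_lt.ne' (Nat.dvd_one.1 h2)
  have hνκ : ν * κ + p ^ r = p ^ (r + e) := by
    rw [hνe, pow_add, ← hκ']
    ring
  obtain ⟨Y, hY0, hYh, hYv⟩ := hPX k p (r + e) n a ν Z F hn ha hν (by omega) hZ hZn hF hFh hFv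
  refine hPZ k p n _ F hF hFh ?_
  intro l hl hlh
  obtain ⟨v, hv, hvl, A, hA0, hAh, hAw, hAv⟩ := hPA k p r e n a Z h Y l hn ha hae hZ hZ0 hlow hh
    hY0 hYh hYv hl hlh
  exact ⟨v, hvl, hPD k p r e n a ν κ Z v F A hr (by omega) hv (hZn v hv) hlow hF hFh hFv hA0 hAh
    hAw hAv hνκ hpκ⟩

theorem t_PP (hPX : St_PX.{u}) (hPA : St_PA.{u}) (hPD : St_PD.{u}) (hPZ : St_PZ.{u})
    (hSU : St_SU.{u}) (hCO : St_CO.{u}) : St_PP.{u} := by
  classical
  intro k _ _ p n a ν _ _ Z h F hn ha hν hpν hZ hZ0 hlow hh hF hFh hFv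
  have : Infinite k := IsAlgClosed.instInfinite
  obtain ⟨e, he⟩ := hCO k n (Z : Set (Fin (n + 1) → k)) Z.finite_toSet (fun v hv => hZ0 v hv)
  obtain ⟨s1, s2, s3, s4, -, s6⟩ := hSU k (n + 1) e
  obtain ⟨t1, t2, t3, t4, -, t6⟩ := hSU k (n + 1) e.symm
  have hmem : ∀ w ∈ Z.image e.symm, e w ∈ Z := by
    intro w hw
    obtain ⟨v, hv, rfl⟩ := Finset.mem_image.1 hw
    rwa [LinearEquiv.apply_symm_apply]
  obtain ⟨G, hG⟩ := PP_aux hPX hPA hPD hPZ k p n a ν (Z.image e.symm)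
    (fun w => sub e (h (e w))) (sub e F) hn ha hν hpν (hZ.image _) (by
      intro w hw
      obtain ⟨v, hv, rfl⟩ := Finset.mem_image.1 hw
      exact he v hv) (by
      intro G d hG0 hGh hGv
      refine hlow (sub e.symm G) d (fun h0 => hG0 (t1 (by rw [h0, map_zero]))) (t2 G d hGh) ?_
      intro v hv
      rw [t4]
      exact hGv _ (Finset.mem_coe.2 (Finset.mem_image_of_mem _ hv))) (by
      intro w hw
      obtain ⟨h1, h2, h3⟩ := hh (e w) (hmem w hw)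
      refine ⟨s2 _ _ h1, by rw [s3]; exact h2, ?_⟩
      intro w' hw' hne
      rw [s3]
      exact h3 (e w') (hmem w' hw') (fun h0 => hne (e.injective h0)))
    (fun h0 => hF (s1 (by rw [h0, map_zero]))) (s2 _ _ hFh) (by
      intro w hw
      rw [s4]
      exact hFv _ (hmem w hw))
  refine ⟨sub e.symm G, ?_⟩
  rw [← map_pow, ← hG, s6]

end Pool.Agent.H580C
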