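import Pool.Agent.H580C.CH.Props

set_option autoImplicit false

universe u

namespace Pool.Agent.H580C

open MvPolynomial Pool.Agent.Chud

theorem t_PX (hCP : St_CP.{u}) : St_PX.{u} := by
  intro k _ _ p e n a ν _ _ Z F hn ha hν he hZ hZ0 hF0 hFh hFv
  classical
  have hp : 2 ≤ p := (Fact.out : p.Prime).two_le
  have hq : 2 ≤ p ^ e := le_trans hp (Nat.le_self_pow (by omega) p)
  obtain ⟨q', hq'⟩ : ∃ q', p ^ e = q' + 1 := ⟨p ^ e - 1, by omega⟩
  have hq1 : 1 ≤ q' := by omega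
  have hpe : p ^ e - 1 = q' := by omega
  rw [hpe]
  obtain ⟨a', rfl⟩ : ∃ a', a = a' + 2 := ⟨a - 2, by omega⟩
  obtain ⟨n', rfl⟩ : ∃ n', n = n' + 1 := ⟨n - 1, by omega⟩
  have ht : 1 ≤ (n' + 1) * q' := Nat.mul_pos (by omega) hq1
  set t := (n' + 1) * q' with ht_def
  let P : ℕ → Prop := fun b => ∃ G : MvPolynomial (Fin (n' + 1 + 1)) k, G ≠ 0 ∧
    G.IsHomogeneous b ∧ ∀ v ∈ Z, G ∈ mI v ^ t
  have hP : ∃ b, P b := by
    refine ⟨((a' + 2 - 1 + (n' + 1)) * ν) * t, F ^ t, pow_ne_zero _ hF0, hFh.pow t, ?_⟩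
    intro v hv
    have h1 : F ^ t ∈ (mI v ^ ((n' + 1) * ν)) ^ t := Ideal.pow_mem_pow (hFv v hv) t
    rw [← pow_mul] at h1
    refine Ideal.pow_le_pow_right ?_ h1
    exact Nat.le_mul_of_pos_left _ (Nat.mul_pos (by omega) hν)
  obtain ⟨G, hG0, hGh, hGv⟩ := Nat.find_spec hP
  set b := Nat.find hP with hb
  have hlow : LowT (Z : Set (Fin (n' + 1 + 1) → k)) t b := by
    intro G' d hG'0 hG'h hG'v
    exact Nat.find_min' hP ⟨G', hG'0, hG'h, fun v hv => hG'v v (by exact_mod_cast hv)⟩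
  have hcp := hCP k p (n' + 1) t b ((n' + 1) * ν) ((a' + 2 - 1 + (n' + 1)) * ν)
    (Z : Set (Fin (n' + 1 + 1) → k)) F (by omega) ht Z.finite_toSet (by exact_mod_cast hZ)
    (fun v hv => hZ0 v (by exact_mod_cast hv)) hlow hF0 hFh
    (fun v hv => hFv v (by exact_mod_cast hv))
  have hle : b ≤ (a' + 2 - 1 + (n' + 1)) * q' + (a' + 2 - 2) := by
    have e1 : a' + 2 - 1 = a' + 1 := by omega
    have e2 : a' + 2 - 2 = a' := by omega
    have e3 : b + (n' + 1) - 1 = b + n' := by omega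
    have e4 : t + (n' + 1) - 1 = t + n' := by omega
    rw [e1, e3, e4] at hcp
    rw [e1, e2]
    by_contra hcon
    have hcon' : (a' + 1 + (n' + 1)) * q' + a' + 1 ≤ b := by omega
    have h1 : (n' + 1) * ν * (b + n') = ν * ((n' + 1) * (b + n')) := by ring
    have h2 : (a' + 1 + (n' + 1)) * ν * (t + n') = ν * ((a' + 1 + (n' + 1)) * (t + n')) := by ring
    rw [h1, h2] at hcp
    have h3 : (n' + 1) * (b + n') ≤ (a' + 1 + (n' + 1)) * (t + n') :=
      Nat.le_of_mul_le_mul_left hcp hν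
    rw [ht_def] at h3
    have h4 : (n' + 1) * (((a' + 1 + (n' + 1)) * q' + a' + 1) + n') ≤ (n' + 1) * (b + n') :=
      Nat.mul_le_mul_left _ (by omega)
    nlinarith [h3, h4]
  refine ⟨X 0 ^ ((a' + 2 - 1 + (n' + 1)) * q' + (a' + 2 - 2) - b) * G, ?_, ?_, ?_⟩
  · exact mul_ne_zero (pow_ne_zero _ (X_ne_zero _)) hG0
  · have := (isHomogeneous_X_pow (R := k) (0 : Fin (n' + 1 + 1))
      ((a' + 2 - 1 + (n' + 1)) * q' + (a' + 2 - 2) - b)).mul hGh
    rwa [Nat.sub_add_cancel hle] at this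
  · intro v hv
    exact Ideal.mul_mem_left _ _ (hGv v hv)

end Pool.Agent.H580C
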