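import Pool.Agent.H580C.CH.Props

set_option autoImplicit false

universe u

namespace Pool.Agent.H580C

open MvPolynomial Pool.Agent.Chud

theorem PZ_coeff_zero {k : Type*} [Field k] {σ : Type*} (v : σ → k) (F : MvPolynomial σ k) :
    (dir v F).coeff 0 = F := by
  induction F using MvPolynomial.induction_on with
  | C a =>
    unfold dir
    rw [← MvPolynomial.algebraMap_eq, AlgHom.commutes, IsScalarTower.algebraMap_apply k
      (MvPolynomial σ k) (Polynomial (MvPolynomial σ k))]
    rw [Polynomial.algebraMap_apply, Algebra.algebraMap_self, RingHom.id_apply,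
      Polynomial.coeff_C_zero]
  | add p q hp hq => rw [map_add, Polynomial.coeff_add, hp, hq]
  | mul_X p i hp =>
    rw [map_mul, Polynomial.mul_coeff_zero, hp]
    congr 1
    unfold dir
    rw [aeval_X]
    simp

theorem PZ_coeff_one {k : Type*} [Field k] {n : ℕ} (v : Fin n → k)
    (F : MvPolynomial (Fin n) k) :
    (dir v F).coeff 1 = ∑ i, C (v i) * pderiv i F := by
  induction F using MvPolynomial.induction_on with
  | C a =>
    unfold dir
    rw [← MvPolynomial.algebraMap_eq, AlgHom.commutes, IsScalarTower.algebraMap_apply k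
      (MvPolynomial (Fin n) k) (Polynomial (MvPolynomial (Fin n) k))]
    rw [Polynomial.algebraMap_apply, Algebra.algebraMap_self, RingHom.id_apply,
      Polynomial.coeff_C_succ]
    simp [MvPolynomial.algebraMap_eq]
  | add p q hp hq =>
    rw [map_add, Polynomial.coeff_add, hp, hq, ← Finset.sum_add_distrib]
    refine Finset.sum_congr rfl (fun i _ => ?_)
    rw [map_add, mul_add]
  | mul_X p i hp =>
    have hX : (dir v (X i : MvPolynomial (Fin n) k)) =
        Polynomial.C (X i) + Polynomial.C (C (v i)) * Polynomial.X := by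
      unfold dir
      rw [aeval_X]
    have h0 : (dir v (X i : MvPolynomial (Fin n) k)).coeff 1 = C (v i) := by
      rw [hX]
      rw [Polynomial.coeff_add, Polynomial.coeff_C_mul, Polynomial.coeff_X_one, mul_one,
        Polynomial.coeff_C_succ, zero_add]
    rw [map_mul, Polynomial.mul_coeff_one, hp, PZ_coeff_zero, PZ_coeff_zero, h0]
    have h1 : ∀ j, C (v j) * pderiv j (p * X i) = C (v j) * pderiv j p * X i +
        (if j = i then p * C (v i) else 0) := by
      intro j
      rw [pderiv_mul, pderiv_X]
      by_cases hj : j = i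
      · subst hj
        rw [if_pos rfl, Pi.single_eq_same]
        ring
      · rw [if_neg hj, Pi.single_eq_of_ne (Ne.symm hj)]
        ring
    rw [Finset.sum_congr rfl (fun j _ => h1 j), Finset.sum_add_distrib, ← Finset.sum_mul,
      Finset.sum_ite_eq' Finset.univ i]
    simp
    ring

theorem t_PZ (hRT : St_RT.{u}) : St_PZ.{u} := by
  intro k _ _ p n d _ _ F hF0 hF h
  let V : Submodule k (Fin (n + 1) → k) :=
    { carrier := {v | (dir v F).coeff 1 = 0}
      add_mem' := by
        intro a b ha hb
        simp only [Set.mem_ofPred_eq, PZ_coeff_one] at ha hb ⊢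
        simp only [Pi.add_apply, map_add, add_mul, Finset.sum_add_distrib, ha, hb, add_zero]
      zero_mem' := by
        simp only [Set.mem_ofPred_eq, PZ_coeff_one]
        simp
      smul_mem' := by
        intro c a ha
        simp only [Set.mem_ofPred_eq, PZ_coeff_one] at ha ⊢
        simp only [Pi.smul_apply, smul_eq_mul, map_mul, mul_assoc, ← Finset.mul_sum, ha, mul_zero] }
  have hVmem : ∀ v, v ∈ V ↔ (dir v F).coeff 1 = 0 := fun v => Iff.rfl
  have hV : V = ⊤ := by
    by_contra hne
    obtain ⟨f, hf0, hf⟩ := Submodule.exists_le_ker_of_lt_top V (lt_top_iff_ne_top.2 hne)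
    have hfv : ∀ v : Fin (n + 1) → k, f v = ∑ i, f (Pi.single i 1) * v i := by
      intro v
      conv_lhs => rw [pi_eq_sum_univ' v]
      rw [map_sum]
      refine Finset.sum_congr rfl (fun i _ => ?_)
      rw [map_smul, smul_eq_mul, mul_comm]
    set l : MvPolynomial (Fin (n + 1)) k := ∑ i, C (f (Pi.single i 1)) * X i with hl
    have hev : ∀ v, eval v l = f v := by
      intro v
      rw [hl, map_sum, hfv]
      refine Finset.sum_congr rfl (fun i _ => ?_)
      simp
    have hl0 : l ≠ 0 := by
      intro h0
      apply hf0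
      refine LinearMap.ext (fun v => ?_)
      rw [← hev, h0]
      simp
    have hlh : l.IsHomogeneous 1 := by
      rw [hl]
      apply MvPolynomial.IsHomogeneous.sum
      intro i _
      have := (isHomogeneous_C (Fin (n + 1)) (f (Pi.single i 1))).mul (isHomogeneous_X k i)
      simpa using this
    obtain ⟨v, hv1, hv2⟩ := h l hl0 hlh
    apply hv1
    rw [hev]
    exact hf hv2
  have hpd : ∀ i, pderiv i F = 0 := by
    intro i
    have h1 : (Pi.single i 1 : Fin (n + 1) → k) ∈ V := by rw [hV]; trivial
    rw [hVmem, PZ_coeff_one] at h1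
    rw [Finset.sum_eq_single i] at h1
    · simpa using h1
    · intro j _ hj
      rw [Pi.single_eq_of_ne hj]
      simp
    · intro h2; exact absurd (Finset.mem_univ i) h2
  have hdvd : DvdE (p ^ 1) Set.univ F := by
    intro m hm i _
    rw [pow_one]
    rcases Nat.eq_zero_or_pos (m i) with h0 | h0
    · rw [h0]; exact dvd_zero _
    set m' : Fin (n + 1) →₀ ℕ := m - Finsupp.single i 1 with hm'
    have h1 := coeff_pderiv (i := i) F m'
    have h2 : m' + Finsupp.single i 1 = m := by
      rw [hm']
      ext j
      simp only [Finsupp.coe_add, Finsupp.coe_tsub, Pi.add_apply, Pi.sub_apply]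
      by_cases hj : j = i
      · subst hj; rw [Finsupp.single_eq_same]; omega
      · rw [Finsupp.single_eq_of_ne hj]; omega
    rw [h2, hpd, coeff_zero] at h1
    have h3 : coeff m F ≠ 0 := MvPolynomial.mem_support_iff.1 hm
    have h4 : ((m' i : ℕ) : k) + 1 = 0 := by
      rcases mul_eq_zero.1 h1.symm with h5 | h5
      · exact absurd h5 h3
      · exact h5
    have h5 : ((m i : ℕ) : k) = 0 := by
      have e : m i = m' i + 1 := by
        rw [hm']
        simp only [Finsupp.coe_tsub, Pi.sub_apply, Finsupp.single_eq_same]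
        omega
      rw [e, Nat.cast_add, Nat.cast_one]
      exact h4
    exact (CharP.cast_eq_zero_iff k p (m i)).1 h5
  obtain ⟨c, d', G, -, -, -, hG, hc⟩ := hRT k p 1 (n + 1) d 0 F hF0 hF
    (fun m hm i _ => hdvd m hm i trivial)
  refine ⟨G, ?_⟩
  rw [hc hdvd, pow_zero, one_mul, pow_one] at hG
  exact hG

end Pool.Agent.H580C
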