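import Pool.Agent.H580C.CH.Props

set_option autoImplicit false

universe u

namespace Pool.Agent.H580C

open MvPolynomial Pool.Agent.Chud

theorem RD_jac_int : IsJacobsonRing ℤ := by
  rw [isJacobsonRing_iff_prime_eq]
  intro P hP
  by_cases h : P = ⊥
  · subst h
    rw [eq_bot_iff]
    intro x hx
    rw [Ideal.mem_jacobson_bot] at hx
    have h1 := hx x
    rw [Int.isUnit_iff] at h1
    rw [Ideal.mem_bot]
    rcases h1 with h1 | h1
    · have : x * x = 0 := by linarith
      exact mul_self_eq_zero.1 this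
    · exfalso
      nlinarith [mul_self_nonneg x]
  · have : P.IsMaximal := IsPrime.to_maximal_ideal h
    exact Ideal.jacobson_eq_self_of_isMaximal

/-- residue fields of finitely generated commutative rings are finite -/
theorem RD_residue_finite (S : Type*) [CommRing S] [Algebra.FiniteType ℤ S] (m : Ideal S)
    [hm : m.IsMaximal] : Finite (S ⧸ m) := by
  let F : Field (S ⧸ m) := Ideal.Quotient.field m
  have h0 : Algebra.FiniteType ℤ (S ⧸ m) :=
    Algebra.FiniteType.of_surjective ((Ideal.Quotient.mkₐ S m).restrictScalars ℤ)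
      Ideal.Quotient.mk_surjective
  have hJ : IsJacobsonRing ℤ := RD_jac_int
  have h1 : Module.Finite ℤ (S ⧸ m) := finite_of_finite_type_of_isJacobsonRing ℤ (S ⧸ m)
  obtain ⟨p, hp⟩ := CharP.exists (S ⧸ m)
  rcases Nat.eq_zero_or_pos p with h2 | h2
  · exfalso
    subst h2
    have hc : CharZero (S ⧸ m) := CharP.charP_to_charZero (S ⧸ m)
    have h3 : Function.Injective (algebraMap ℤ (S ⧸ m)) := by
      have : (algebraMap ℤ (S ⧸ m)) = Int.castRingHom (S ⧸ m) := RingHom.ext_int _ _
      rw [this]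
      exact RingHom.injective_int _
    have hi : Algebra.IsIntegral ℤ (S ⧸ m) := Algebra.IsIntegral.of_finite ℤ (S ⧸ m)
    have h4 : IsField ℤ := isField_of_isIntegral_of_isField h3 (Field.toIsField _)
    exact Int.not_isField h4
  · apply Module.finite_of_fg_torsion (S ⧸ m)
    intro x
    refine ⟨⟨(p : ℤ), ?_⟩, ?_⟩
    · rw [mem_nonZeroDivisors_iff_ne_zero]
      exact_mod_cast h2.ne'
    · change (p : ℤ) • x = 0
      rw [zsmul_eq_mul]
      simp

/-- finite fields embed into the algebraic closure of the prime field -/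
theorem RD_embed (F : Type u) [Field F] [Finite F] (p : ℕ) [CharP F p] [Fact p.Prime] :
    Nonempty (F →+* AlgebraicClosure (ZMod p)) := by
  letI : Algebra (ZMod p) F := ZMod.algebra F p
  haveI : Module.Finite (ZMod p) F := Module.Finite.of_finite
  haveI : Algebra.IsAlgebraic (ZMod p) F := Algebra.IsAlgebraic.of_finite (ZMod p) F
  exact ⟨(IsAlgClosed.lift : F →ₐ[ZMod p] AlgebraicClosure (ZMod p)).toRingHom⟩

theorem t_RD : St_RD.{u} := by
  classical
  intro K _ _ T N
  have hN0 : ((Nat.factorial N : ℕ) : K) ≠ 0 := Nat.cast_ne_zero.2 (Nat.factorial_ne_zero N)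
  let x : K := ((Nat.factorial N : ℕ) : K)⁻¹
  let S : Subalgebra ℤ K := Algebra.adjoin ℤ ((insert x T : Finset K) : Set K)
  haveI : Algebra.FiniteType ℤ S := (Subalgebra.fg_iff_finiteType _).1 ⟨insert x T, rfl⟩
  have hle : Algebra.adjoin ℤ (T : Set K) ≤ S := by
    apply Algebra.adjoin_mono
    intro y hy
    rw [Finset.coe_insert]
    exact Set.mem_insert_of_mem _ hy
  have hxS : x ∈ S := by
    apply Algebra.subset_adjoin
    rw [Finset.coe_insert]
    exact Set.mem_insert _ _
  obtain ⟨m, hm⟩ := Ideal.exists_maximal S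
  haveI := hm
  letI : Field (S ⧸ m) := Ideal.Quotient.field m
  haveI hfin : Finite (S ⧸ m) := RD_residue_finite S m
  obtain ⟨p, hp⟩ := CharP.exists (S ⧸ m)
  haveI := hp
  haveI hpp : Fact p.Prime := ⟨CharP.char_is_prime (S ⧸ m) p⟩
  obtain ⟨ψ⟩ := RD_embed (S ⧸ m) p
  refine ⟨p, hpp, AlgebraicClosure (ZMod p), inferInstance, inferInstance, inferInstance, ?_,
    ⟨ψ.comp ((Ideal.Quotient.mk m).comp (Subalgebra.inclusion hle).toRingHom)⟩⟩
  by_contra hlt
  have hdvd : p ∣ Nat.factorial N := (Nat.Prime.dvd_factorial hpp.out).2 (not_lt.1 hlt)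
  have h0 : ((Nat.factorial N : ℕ) : S ⧸ m) = 0 := (CharP.cast_eq_zero_iff (S ⧸ m) p _).2 hdvd
  have h1 : ((Nat.factorial N : ℕ) : S) * ⟨x, hxS⟩ = 1 := by
    apply Subtype.ext
    show (((Nat.factorial N : ℕ) : S) : K) * x = 1
    rw [show (((Nat.factorial N : ℕ) : S) : K) = ((Nat.factorial N : ℕ) : K) from
      map_natCast (S.val) _]
    exact mul_inv_cancel₀ hN0
  have h2 := congrArg (Ideal.Quotient.mk m) h1
  rw [map_mul, map_natCast, h0, zero_mul, map_one] at h2
  exact zero_ne_one h2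

end Pool.Agent.H580C
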