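import Pool.Agent.H580C.CH.Props

set_option autoImplicit false

universe u

namespace Pool.Agent.H580C

open MvPolynomial Pool.Agent.Chud

theorem t_RT : St_RT.{u} := by
  intro k _ _ p e N d _ _ i₀ F hF0 hFh hdvd
  have hp : p.Prime := Fact.out
  set q := p ^ e with hq
  have hq0 : 0 < q := pow_pos hp.pos e
  -- degree of a monomial
  have hdeg : ∀ m ∈ F.support, m.degree = d := by
    intro m hm
    have := hFh (mem_support_iff.1 hm)
    rwa [Finsupp.degree_eq_weight_one]
  have hmod : ∀ m ∈ F.support, m i₀ % q = d % q := by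
    intro m hm
    have h1 := hdeg m hm
    rw [Finsupp.degree_eq_sum, ← Finset.add_sum_erase _ _ (Finset.mem_univ i₀)] at h1
    have h2 : q ∣ ∑ i ∈ Finset.univ.erase i₀, m i := by
      apply Finset.dvd_sum
      intro i hi
      exact hdvd m hm i (Finset.ne_of_mem_erase hi)
    obtain ⟨t, ht⟩ := h2
    rw [← h1, ht, Nat.add_mul_mod_self_left]
  have hle : ∀ m ∈ F.support, d % q ≤ m i₀ := by
    intro m hm
    rw [← hmod m hm]
    exact Nat.mod_le _ _
  let g : (Fin N →₀ ℕ) → (Fin N →₀ ℕ) := fun m =>
    Finsupp.equivFunOnFinite.symm (fun i => (m i - if i = i₀ then d % q else 0) / q)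
  have hg : ∀ m ∈ F.support, Finsupp.single i₀ (d % q) + q • g m = m := by
    intro m hm
    ext i
    rw [Finsupp.add_apply, Finsupp.smul_apply, smul_eq_mul]
    change (Finsupp.single i₀ (d % q)) i + q * ((m i - if i = i₀ then d % q else 0) / q) = m i
    by_cases hi : i = i₀
    · subst hi
      rw [Finsupp.single_eq_same, if_pos rfl]
      have h1 := hmod m hm
      have h2 : q ∣ m i - d % q := by
        rw [← h1]
        exact Nat.dvd_sub_mod _
      rw [Nat.mul_div_cancel' h2]
      have := hle m hm
      omega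
    · rw [Finsupp.single_eq_of_ne hi, if_neg hi, Nat.sub_zero,
        Nat.mul_div_cancel' (hdvd m hm i hi), zero_add]
  choose r hr using fun x : k => IsAlgClosed.exists_pow_nat_eq x hq0
  have hGdeg : ∀ m ∈ F.support, (g m).degree = d / q := by
    intro m hm
    have h1 := congrArg Finsupp.degree (hg m hm)
    rw [map_add, map_nsmul, hdeg m hm, Finsupp.degree_single, smul_eq_mul] at h1
    have h2 := Nat.mod_add_div d q
    have h3 : q * (g m).degree = q * (d / q) := by omega
    exact Nat.eq_of_mul_eq_mul_left hq0 h3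
  refine ⟨d % q, d / q, ∑ m ∈ F.support, monomial (g m) (r (coeff m F)), Nat.mod_lt _ hq0,
    ?_, (Nat.mod_add_div d q).symm, ?_, ?_⟩
  · apply IsHomogeneous.sum
    intro m hm
    exact isHomogeneous_monomial _ (hGdeg m hm)
  · rw [sum_pow_char_pow, Finset.mul_sum, X_pow_eq_monomial]
    conv_lhs => rw [← support_sum_monomial_coeff F]
    apply Finset.sum_congr rfl
    intro m hm
    rw [← hq, monomial_pow, monomial_mul, hr, one_mul, hg m hm]
  · intro huniv
    obtain ⟨m, hm⟩ := support_nonempty.2 hF0
    rw [← hmod m hm]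
    exact Nat.mod_eq_zero_of_dvd (huniv m hm i₀ (Set.mem_univ _))

end Pool.Agent.H580C
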