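import Pool.Agent.H580C.CH.Props

set_option autoImplicit false

universe u

namespace Pool.Agent.H580C

open MvPolynomial Pool.Agent.Chud

section

variable {k : Type u} [Field k] {N : ℕ}

theorem SU_sum (e : (Fin N → k) ≃ₗ[k] (Fin N → k)) (v : Fin N → k) (i : Fin N) :
    e v i = ∑ j, e (Pi.single j 1) i * v j := by
  have h : v = ∑ j, v j • (Pi.single j 1 : Fin N → k) := by
    ext l
    simp [Finset.sum_apply, Pi.single_apply]
  conv_lhs => rw [h]
  rw [map_sum, Finset.sum_apply]
  refine Finset.sum_congr rfl fun j _ => ?_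
  rw [map_smul, Pi.smul_apply, smul_eq_mul, mul_comm]

theorem SU_X (e : (Fin N → k) ≃ₗ[k] (Fin N → k)) (i : Fin N) :
    sub e (X i) = ∑ j, C (e (Pi.single j 1) i) * X j := by
  rw [sub, aeval_X]

theorem SU_C (e : (Fin N → k) ≃ₗ[k] (Fin N → k)) (c : k) : sub e (C c) = C c := by
  rw [sub, aeval_C]; rfl

theorem SU_symm (e : (Fin N → k) ≃ₗ[k] (Fin N → k)) (F : MvPolynomial (Fin N) k) :
    sub e.symm (sub e F) = F := by
  have h : (sub e.symm).comp (sub e) = AlgHom.id k _ := by
    apply algHom_ext
    intro i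
    rw [AlgHom.comp_apply, SU_X, map_sum, AlgHom.id_apply]
    have h1 : ∀ j, sub e.symm (C (e (Pi.single j 1) i) * X j) =
        ∑ l, C (e (Pi.single j 1) i * e.symm (Pi.single l 1) j) * X l := by
      intro j
      rw [map_mul, SU_C, SU_X, Finset.mul_sum]
      refine Finset.sum_congr rfl fun l _ => ?_
      rw [C_mul, mul_assoc]
    rw [Finset.sum_congr rfl fun j _ => h1 j, Finset.sum_comm]
    have h2 : ∀ l, ∑ j, C (e (Pi.single j 1) i * e.symm (Pi.single l 1) j) * X l =
        (C ((Pi.single l 1 : Fin N → k) i) * X l : MvPolynomial (Fin N) k) := by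
      intro l
      rw [← Finset.sum_mul, ← map_sum, ← SU_sum, LinearEquiv.apply_symm_apply]
    rw [Finset.sum_congr rfl fun l _ => h2 l, Finset.sum_eq_single i]
    · simp
    · intro l _ hl
      simp [hl.symm]
    · simp
  exact congrArg (fun f => f F) h

theorem SU_eval (e : (Fin N → k) ≃ₗ[k] (Fin N → k)) (F : MvPolynomial (Fin N) k)
    (v : Fin N → k) : eval v (sub e F) = eval (e v) F := by
  have h : (aeval v).comp (sub e) = (aeval (e v) : MvPolynomial (Fin N) k →ₐ[k] k) := by
    apply algHom_ext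
    intro i
    rw [AlgHom.comp_apply, SU_X, map_sum, aeval_X, SU_sum]
    refine Finset.sum_congr rfl fun j _ => ?_
    rw [map_mul, aeval_X, aeval_C]; rfl
  have := congrArg (fun f => f F) h
  simpa [aeval_eq_eval] using this

theorem SU_mem (e : (Fin N → k) ≃ₗ[k] (Fin N → k)) {F : MvPolynomial (Fin N) k}
    {v : Fin N → k} {m : ℕ} (h : F ∈ mI (e v) ^ m) : sub e F ∈ mI v ^ m := by
  have h1 : Ideal.map (sub e) (mI (e v)) ≤ mI v := by
    rw [Ideal.map_le_iff_le_comap]
    intro G hG
    rw [Ideal.mem_comap, mI, RingHom.mem_ker, SU_eval]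
    exact hG
  have h2 : Ideal.map (sub e) (mI (e v) ^ m) ≤ mI v ^ m := by
    rw [Ideal.map_pow]
    exact Ideal.pow_right_mono h1 m
  exact h2 (Ideal.mem_map_of_mem _ h)

theorem SU_dir (e : (Fin N → k) ≃ₗ[k] (Fin N → k)) (F : MvPolynomial (Fin N) k)
    (v : Fin N → k) (j : ℕ) :
    (dir v (sub e F)).coeff j = sub e ((dir (e v) F).coeff j) := by
  have h : (dir v).comp (sub e) = (Polynomial.mapAlgHom (sub e)).comp (dir (e v)) := by
    apply algHom_ext
    intro i
    rw [AlgHom.comp_apply, AlgHom.comp_apply, SU_X, map_sum, dir, dir, aeval_X]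
    simp only [Polynomial.coe_mapAlgHom, Polynomial.map_add, Polynomial.map_mul,
      Polynomial.map_C, Polynomial.map_X, RingHom.coe_coe]
    rw [SU_X, SU_C, SU_sum e v i, map_sum, map_sum, map_sum, Finset.sum_mul,
      ← Finset.sum_add_distrib]
    refine Finset.sum_congr rfl fun j _ => ?_
    rw [map_mul, aeval_X, aeval_C]
    simp only [Polynomial.algebraMap_apply, map_mul, MvPolynomial.algebraMap_eq]
    ring
  have h1 := congrArg (fun f => (f F).coeff j) h
  simpa [Polynomial.coeff_map] using h1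

end

theorem t_SU : St_SU.{u} := by
  intro k _ N e
  refine ⟨fun F G h => ?_, fun F d hF => ?_, fun F v => SU_eval e F v, fun F v m => ?_,
    fun F v j => SU_dir e F v j, fun F => SU_symm e F⟩
  · rw [← SU_symm e F, ← SU_symm e G, h]
  · have h := hF.aeval (fun i => ∑ j, C (e (Pi.single j 1) i) * X j) (n := 1) (fun i => by
      apply IsHomogeneous.sum
      intro j _
      have := (isHomogeneous_C (Fin N) (e (Pi.single j 1) i)).mul (isHomogeneous_X k j)
      simpa using this)
    rw [one_mul] at h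
    exact h
  · constructor
    · intro h
      have h1 := SU_mem e.symm (v := e v) (m := m) (F := sub e F)
        (by rwa [LinearEquiv.symm_apply_apply])
      rwa [SU_symm] at h1
    · exact SU_mem e

end Pool.Agent.H580C
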