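import Pool.Agent.H580C.CH.Props

set_option autoImplicit false

universe u

namespace Pool.Agent.H580C

open MvPolynomial Pool.Agent.Chud

theorem TI_mem_bx (N t : ℕ) (b : Fin N →₀ ℕ) : b ∈ bx N t ↔ b.degree < t := by
  unfold bx
  simp only [Finset.mem_biUnion, Finset.mem_range, Finset.mem_finsuppAntidiag]
  constructor
  · rintro ⟨d, hd, h1, -⟩
    rw [Finsupp.degree_eq_sum]
    exact h1 ▸ hd
  · intro h
    refine ⟨b.degree, h, ?_, Finset.subset_univ _⟩
    rw [Finsupp.degree_eq_sum]

theorem TI_hd_monomial (hHC : St_HC.{u}) (K : Type u) [Field K] (N : ℕ) (b m' : Fin N →₀ ℕ) :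
    hd b (monomial m' (1 : K)) =
      monomial (m' - b) (((∏ i, (m' i).choose (b i) : ℕ) : K)) := by
  ext m
  rw [hHC, coeff_monomial, coeff_monomial]
  by_cases hb : b ≤ m'
  · by_cases h : m' = m + b
    · subst h
      have h1 : m + b - b = m := by
        ext i
        simp
      rw [if_pos rfl, if_pos h1]
      simp
    · rw [if_neg h, if_neg, mul_zero]
      intro h2
      apply h
      rw [← h2, tsub_add_cancel_of_le hb]
  · have hz : ∏ i, (m' i).choose (b i) = 0 := by
      obtain ⟨i, hi⟩ : ∃ i, ¬ b i ≤ m' i := by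
        by_contra hcon
        push Not at hcon
        exact hb (fun i => hcon i)
      exact Finset.prod_eq_zero (Finset.mem_univ i) (Nat.choose_eq_zero_of_lt (not_le.1 hi))
    rw [hz]
    have h : m' ≠ m + b := by
      rintro rfl
      exact hb (by
        intro i
        simp)
    rw [if_neg h]
    simp

theorem t_TI (hHV : St_HV.{u}) (hHC : St_HC.{u}) : St_TI.{u} := by
  classical
  intro K _ n t a Z hZ d hd'
  let I : Finset ((Fin (n + 1) → K) × (Fin (n + 1) →₀ ℕ)) := Z ×ˢ bx (n + 1) t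
  let V := homogeneousSubmodule (Fin (n + 1)) K d
  let E : V →ₗ[K] (I → K) :=
    { toFun := fun F i => eval i.1.1 (hd i.1.2 (F : MvPolynomial (Fin (n + 1)) K))
      map_add' := by
        intro F G
        ext i
        simp [map_add]
      map_smul' := by
        intro c F
        ext i
        simp [map_smul, MvPolynomial.smul_eval] }
  have hE : LinearMap.ker E = ⊥ := by
    rw [LinearMap.ker_eq_bot']
    intro F hF
    by_contra hne
    have hne' : (F : MvPolynomial (Fin (n + 1)) K) ≠ 0 := by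
      intro h
      exact hne (Subtype.ext h)
    have := hZ F d hne' ((mem_homogeneousSubmodule d _).1 F.2) (by
      intro v hv
      rw [(hHV K (n + 1) v F).2 t]
      intro b hb
      have hmem : (v, b) ∈ I := Finset.mem_product.2 ⟨hv, (TI_mem_bx _ _ _).2 hb⟩
      exact congrFun hF ⟨(v, b), hmem⟩)
    omega
  obtain ⟨R, hR⟩ := LinearMap.exists_leftInverse_of_injective E hE
  refine ⟨fun m v b => if h : (v, b) ∈ I then
    coeff m ((R (Pi.single ⟨(v, b), h⟩ 1) : V) : MvPolynomial (Fin (n + 1)) K) else 0, ?_⟩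
  intro m m' hm hm'
  have hF : (monomial m' (1 : K)) ∈ V := by
    rw [mem_homogeneousSubmodule]
    exact isHomogeneous_monomial _ hm'
  have h1 : R (E ⟨_, hF⟩) = ⟨_, hF⟩ := by
    have := LinearMap.congr_fun hR ⟨_, hF⟩
    simpa using this
  have h2 : E ⟨_, hF⟩ = ∑ i : I, (E ⟨_, hF⟩ i) • (Pi.single i (1 : K) : I → K) := by
    ext j
    simp [Finset.sum_apply, Pi.single_apply]
  have h3 : coeff m ((R (E ⟨_, hF⟩) : V) : MvPolynomial (Fin (n + 1)) K) =
      ∑ i : I, (E ⟨_, hF⟩ i) *
        coeff m ((R (Pi.single i 1) : V) : MvPolynomial (Fin (n + 1)) K) := by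
    conv_lhs => rw [h2]
    rw [map_sum, Submodule.coe_sum, coeff_sum]
    apply Finset.sum_congr rfl
    intro i _
    rw [map_smul, Submodule.coe_smul, coeff_smul, smul_eq_mul]
  rw [h1] at h3
  have h4 : coeff m (monomial m' (1 : K)) = if m = m' then 1 else 0 := by
    rw [coeff_monomial]
    simp [eq_comm]
  have h5 : ∀ i : I, E ⟨_, hF⟩ i =
      (((∏ j, (m' j).choose (i.1.2 j) : ℕ) : K) * ∏ j, i.1.1 j ^ (m' j - i.1.2 j)) := by
    intro i
    show eval i.1.1 (hd i.1.2 (monomial m' (1 : K))) = _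
    rw [TI_hd_monomial hHC, eval_monomial, Finsupp.prod_fintype _ _ (by simp)]
    rfl
  show _ = _
  rw [← h4]
  refine Eq.trans ?_ h3.symm
  rw [← Finset.sum_product' (s := Z) (t := bx (n + 1) t) (f := fun v b =>
    (if h : (v, b) ∈ I then
      coeff m ((R (Pi.single ⟨(v, b), h⟩ 1) : V) : MvPolynomial (Fin (n + 1)) K) else 0) *
      (((∏ i, (m' i).choose (b i) : ℕ) : K) * ∏ i, v i ^ (m' i - b i)))]
  change ∑ x ∈ I, _ = _
  rw [← Finset.sum_coe_sort I]
  apply Finset.sum_congr rfl
  intro i _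
  rw [h5 i, mul_comm]
  congr 1
  have hi : ((i : (Fin (n + 1) → K) × (Fin (n + 1) →₀ ℕ)).1, (i : (Fin (n + 1) → K) × (Fin (n + 1) →₀ ℕ)).2) ∈ I := i.2
  rw [dif_pos hi]

end Pool.Agent.H580C
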