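import Pool.Agent.H580C.CH.Props

set_option autoImplicit false

universe u

namespace Pool.Agent.H580C

open MvPolynomial Pool.Agent.Chud

theorem TN_hd_zero (hHC : St_HC.{u}) (k : Type u) [Field k] (N : ℕ)
    (F : MvPolynomial (Fin N) k) : hd 0 F = F := by
  ext m
  rw [hHC k N 0 m F]
  simp

theorem TN_mu_eq_zero {k : Type u} [Field k] {N : ℕ} (v : Fin N → k) {F : MvPolynomial (Fin N) k}
    (hF : F ≠ 0) (h : eval v F ≠ 0) : mu v F = 0 := by
  by_contra h1
  exact h ((mu_pos_iff v hF).1 (Nat.pos_of_ne_zero h1))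

theorem TN_mu_pow {k : Type u} [Field k] {N : ℕ} (v : Fin N → k) {F : MvPolynomial (Fin N) k}
    (hF : F ≠ 0) (m : ℕ) : mu v (F ^ m) = m * mu v F := by
  induction m with
  | zero =>
    rw [pow_zero, zero_mul]
    exact TN_mu_eq_zero v one_ne_zero (by simp)
  | succ m ih =>
    rw [pow_succ, mu_mul v (pow_ne_zero m hF) hF, ih]
    ring

theorem TN_degree_lt (n c : ℕ) (b : Fin (n + 1) →₀ ℕ) (h0 : b 0 = 0) (hb : ∀ i, b i ≤ c)
    (hne : b ≠ topI n c) : b.degree < n * c := by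
  have h1 : b.degree = ∑ i, b i := by
    rw [Finsupp.degree_eq_sum]
  rw [h1, Fin.sum_univ_succ, h0, zero_add]
  have h2 : ∃ i : Fin n, b i.succ < c := by
    by_contra hcon
    push Not at hcon
    apply hne
    ext i
    unfold topI
    rw [Finsupp.equivFunOnFinite_symm_apply_apply]
    refine Fin.cases ?_ (fun j => ?_) i
    · simp [h0]
    · have := hcon j
      have h3 := hb j.succ
      simp [Fin.succ_ne_zero]
      omega
  have h3 : ∑ i : Fin n, b i.succ < ∑ _i : Fin n, c := by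
    obtain ⟨i, hi⟩ := h2
    exact Finset.sum_lt_sum (fun j _ => hb j.succ) ⟨i, Finset.mem_univ i, hi⟩
  simpa using h3

theorem t_TN (hHC : St_HC.{u}) (hHM : St_HM.{u}) (hHH : St_HH.{u}) (hMX : St_MX.{u}) (hRT : St_RT.{u}) (hLS : St_LS.{u}) : St_TN.{u} := by
  intro k _ _ p e n d a _ _ Z F _hfin hne ha hlow hZ0 hF hFh hFm hdlt
  have hp : 0 < p := (Fact.out : p.Prime).pos
  have hq : 0 < p ^ e := pow_pos hp e
  obtain ⟨b, -, hbq, hbT, hbF, hDvd⟩ := hMX k p e (n + 1) {i | i ≠ 0} F 0 (fun i => by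
    simpa using hq) (fun i _ => rfl) (by rw [TN_hd_zero hHC]; exact hF)
  have hRT' := hRT k p e (n + 1) (d - b.degree) 0 (hd b F) hbF
    (hHH k (n + 1) b d F hFh) hDvd
  generalize p ^ e = q at *
  by_cases hb : b = topI n (q - 1)
  · rw [← hb]; exact hbF
  exfalso
  have hb0 : b 0 = 0 := hbT 0 (by simp)
  have hB : b.degree < n * (q - 1) :=
    TN_degree_lt n (q - 1) b hb0 (fun i => by have := hbq i; omega) hb
  set B : ℕ := b.degree with hBdef
  -- B ≤ d
  have hBd : B ≤ d := by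
    obtain ⟨m, hm⟩ := MvPolynomial.support_nonempty.2 hbF
    rw [MvPolynomial.mem_support_iff, hHC k (n + 1) b m F] at hm
    have h1 : coeff (m + b) F ≠ 0 := right_ne_zero_of_mul hm
    have h2 := hFh h1
    have h3 : (m + b).degree = d := by
      rw [Finsupp.degree_eq_weight_one]
      exact h2
    rw [map_add] at h3
    omega
  obtain ⟨c, d', G, -, hGh, hdeq, hfac, -⟩ := hRT'
  have hG : G ≠ 0 := by
    intro h
    apply hbF
    rw [hfac, h, zero_pow hq.ne', mul_zero]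
  set M : ℕ := n * (q - 1) - B with hM
  have hM1 : 1 ≤ M := by omega
  have hmu : ∀ v ∈ Z, M ≤ q * mu v G := by
    intro v hv
    have h1 := hHM k (n + 1) b v (n * (q - 1)) F (hFm v hv)
    rw [mem_mI_pow_iff v hbF, hfac] at h1
    have hX : (X 0 : MvPolynomial (Fin (n + 1)) k) ≠ 0 := MvPolynomial.X_ne_zero 0
    rw [mu_mul v (pow_ne_zero _ hX) (pow_ne_zero _ hG), TN_mu_pow v hX, TN_mu_pow v hG,
      TN_mu_eq_zero v hX (by simpa using hZ0 v hv), mul_zero, zero_add] at h1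
    exact h1
  set t : ℕ := (M + q - 1) / q with ht
  have ht1 : M ≤ q * t := by
    have h1 := Nat.div_add_mod (M + q - 1) q
    have h2 := Nat.mod_lt (M + q - 1) hq
    rw [← ht] at h1
    omega
  have ht2 : ∀ u : ℕ, M ≤ q * u → t ≤ u := by
    intro u hu
    have : t < u + 1 := by
      rw [ht, Nat.div_lt_iff_lt_mul hq, add_mul, one_mul, mul_comm u q]
      omega
    omega
  clear_value t
  have ht0 : 1 ≤ t := by
    by_contra hcon
    have h8 : t = 0 := Nat.eq_zero_of_not_pos hcon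
    rw [h8, mul_zero] at ht1
    omega
  have hLS' := hLS k (n + 1) 1 a Z hne le_rfl hlow (t - 1) G d' hG hGh (fun v hv => by
    rw [mem_mI_pow_iff v hG]
    have h7 := ht2 _ (hmu v hv)
    omega)
  obtain ⟨a', rfl⟩ : ∃ a', a = a' + 1 := ⟨a - 1, by omega⟩
  obtain ⟨t', ht'⟩ : ∃ t', t = t' + 1 := ⟨t - 1, by omega⟩
  rw [ht'] at hLS' ht1
  simp only [Nat.add_sub_cancel] at hLS' hdlt
  have h5 : q * (a' + 1 + t') ≤ q * d' := Nat.mul_le_mul_left _ hLS'
  have h6 : q * (a' + 1 + t') = q * a' + q * (t' + 1) := by ring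
  omega

end Pool.Agent.H580C
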