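import Pool.Agent.H580C.CH.Props

set_option autoImplicit false

universe u

namespace Pool.Agent.H580C

open MvPolynomial Pool.Agent.Chud

theorem TR_degree {N : ℕ} (b : Fin N →₀ ℕ) : b.degree = ∑ i, b i := by
  rw [Finsupp.degree_eq_sum]

theorem TR_mem_anti {N : ℕ} (d : ℕ) (b : Fin N →₀ ℕ) :
    b ∈ (Finset.univ : Finset (Fin N)).finsuppAntidiag d ↔ b.degree = d := by
  rw [Finset.mem_finsuppAntidiag, TR_degree]
  constructor
  · exact fun h => h.1
  · exact fun h => ⟨h, Finset.subset_univ _⟩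

theorem TR_mem_bx {N : ℕ} (t : ℕ) (b : Fin N →₀ ℕ) : b ∈ bx N t ↔ b.degree < t := by
  classical
  unfold bx
  rw [Finset.mem_biUnion]
  constructor
  · rintro ⟨d, hd, hb⟩
    rw [TR_mem_anti] at hb
    rw [hb]; exact Finset.mem_range.1 hd
  · intro h
    exact ⟨b.degree, Finset.mem_range.2 h, (TR_mem_anti _ _).2 rfl⟩

theorem TR_hd_monomial (hHC : St_HC.{u}) (k : Type u) [Field k] (N : ℕ) (b m' : Fin N →₀ ℕ)
    (c : k) : hd b (monomial m' c) =
      monomial (m' - b) (((∏ i, (m' i).choose (b i) : ℕ) : k) * c) := by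
  classical
  ext m
  rw [hHC, coeff_monomial, coeff_monomial]
  by_cases hb : b ≤ m'
  · have e : (m' = m + b) ↔ (m' - b = m) := by
      constructor
      · intro h; rw [h, add_tsub_cancel_right]
      · intro h; rw [← h, tsub_add_cancel_of_le hb]
    by_cases h : m' = m + b
    · rw [if_pos h, if_pos (e.1 h), h]
      rfl
    · rw [if_neg h, if_neg (fun h' => h (e.2 h')), mul_zero]
  · have h1 : ¬ m' = m + b := by
      intro h; apply hb; rw [h]; exact le_add_self
    have h2 : (∏ i, (m' i).choose (b i) : ℕ) = 0 := by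
      rw [Finsupp.le_def] at hb
      push Not at hb
      obtain ⟨i, hi⟩ := hb
      exact Finset.prod_eq_zero (Finset.mem_univ i) (Nat.choose_eq_zero_of_lt hi)
    rw [if_neg h1, mul_zero, h2, Nat.cast_zero, zero_mul, ite_self]

theorem TR_eval_hd (hHC : St_HC.{u}) (k : Type u) [Field k] (N : ℕ) (b : Fin N →₀ ℕ) (w : Fin N → k)
    (G : MvPolynomial (Fin N) k) (d : ℕ) (hG : G.IsHomogeneous d) :
    eval w (hd b G) = ∑ m' ∈ (Finset.univ : Finset (Fin N)).finsuppAntidiag d,
      (((∏ i, (m' i).choose (b i) : ℕ) : k) * ∏ i, w i ^ (m' i - b i)) * coeff m' G := by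
  classical
  have hs : G = ∑ m' ∈ (Finset.univ : Finset (Fin N)).finsuppAntidiag d,
      monomial m' (coeff m' G) := by
    conv_lhs => rw [G.as_sum]
    refine Finset.sum_subset ?_ ?_
    · intro m hm
      rw [TR_mem_anti]
      by_contra h
      exact (mem_support_iff.1 hm) (hG.coeff_eq_zero h)
    · intro m _ hm
      rw [notMem_support_iff.1 hm, monomial_zero]
  conv_lhs => rw [hs]
  rw [map_sum, map_sum]
  refine Finset.sum_congr rfl fun m' _ => ?_
  rw [TR_hd_monomial hHC, eval_monomial]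
  have : ((m' - b).prod fun i e => w i ^ e) = ∏ i, w i ^ (m' i - b i) := by
    rw [Finsupp.prod_fintype _ _ (fun i => pow_zero _)]
    rfl
  rw [this]
  ring

theorem t_TR (hTI : St_TI.{u}) (hRD : St_RD.{u}) (hHV : St_HV.{0}) (hHC : St_HC.{0}) :
    St_TR.{u} := by
  classical
  intro K _ _ n t a N Z L D hLow
  choose! lam hlam using hTI K n t a Z hLow
  set T : Finset K := ((Finset.range a).biUnion fun d =>
      ((Finset.univ : Finset (Fin (n + 1))).finsuppAntidiag d).biUnion fun m =>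
        Z.biUnion fun v => (bx (n + 1) t).image fun b => lam d m v b) ∪
      ((Z.biUnion fun v => (Finset.univ : Finset (Fin (n + 1))).image fun i => v i) ∪
      ((L.biUnion fun F => F.support.image fun m => coeff m F) ∪
      (D ∪ D.image (fun x => x⁻¹)))) with hT
  obtain ⟨p, hp, k, ik, ia, ic, hN, ⟨φ⟩⟩ := hRD K T N
  set A : Subring K := (Algebra.adjoin ℤ (T : Set K)).toSubring with hA
  have hTA : ∀ x ∈ T, x ∈ A := fun x hx => Algebra.subset_adjoin hx
  set ψ : A →+* k := φ.comp (A.subtype.codRestrict (Algebra.adjoin ℤ (T : Set K))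
    (fun x => x.2)) with hψ
  have m1 : ∀ d < a, ∀ m : Fin (n + 1) →₀ ℕ, m.degree = d → ∀ v ∈ Z, ∀ b ∈ bx (n + 1) t,
      lam d m v b ∈ A := by
    intro d hd m hm v hv b hb
    apply hTA
    rw [hT]
    refine Finset.mem_union_left _ (Finset.mem_biUnion.2 ⟨d, Finset.mem_range.2 hd, ?_⟩)
    refine Finset.mem_biUnion.2 ⟨m, (TR_mem_anti _ _).2 hm, ?_⟩
    exact Finset.mem_biUnion.2 ⟨v, hv, Finset.mem_image.2 ⟨b, hb, rfl⟩⟩
  have m2 : ∀ v ∈ Z, ∀ i, v i ∈ A := by
    intro v hv i
    apply hTA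
    rw [hT]
    refine Finset.mem_union_right _ (Finset.mem_union_left _ ?_)
    exact Finset.mem_biUnion.2 ⟨v, hv, Finset.mem_image.2 ⟨i, Finset.mem_univ _, rfl⟩⟩
  have m3 : ∀ F ∈ L, ∀ m, coeff m F ∈ A := by
    intro F hF m
    by_cases hm : m ∈ F.support
    · apply hTA
      rw [hT]
      refine Finset.mem_union_right _ (Finset.mem_union_right _ (Finset.mem_union_left _ ?_))
      exact Finset.mem_biUnion.2 ⟨F, hF, Finset.mem_image.2 ⟨m, hm, rfl⟩⟩
    · rw [notMem_support_iff.1 hm]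
      exact A.zero_mem
  have m4 : ∀ x ∈ D, x ∈ A ∧ x⁻¹ ∈ A := by
    intro x hx
    constructor
    · apply hTA
      rw [hT]
      refine Finset.mem_union_right _ (Finset.mem_union_right _ (Finset.mem_union_right _ ?_))
      exact Finset.mem_union_left _ hx
    · apply hTA
      rw [hT]
      refine Finset.mem_union_right _ (Finset.mem_union_right _ (Finset.mem_union_right _ ?_))
      exact Finset.mem_union_right _ (Finset.mem_image.2 ⟨x, hx, rfl⟩)
  refine ⟨p, hp, k, ik, ia, ic, A, ψ, hN, m3, m2, fun x hx => (m4 x hx).1, ?_, ?_⟩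
  · intro x hx hx0 h h0
    have e : (⟨x, h⟩ : A) * ⟨x⁻¹, (m4 x hx).2⟩ = 1 := by
      apply Subtype.ext
      exact mul_inv_cancel₀ hx0
    have e2 := congrArg ψ e
    rw [map_mul, h0, zero_mul, map_one] at e2
    exact zero_ne_one e2
  · intro Z' hZ' G d' hG0 hG hv
    by_contra hlt
    push Not at hlt
    apply hG0
    ext m
    rw [coeff_zero]
    by_cases hm : m.degree = d'
    swap
    · exact hG.coeff_eq_zero hm
    -- the images of the data
    have key : ∀ m' : Fin (n + 1) →₀ ℕ, m'.degree = d' →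
        ∑ v ∈ Z.attach, ∑ b ∈ (bx (n + 1) t).attach,
          ψ ⟨lam d' m v.1 b.1, m1 d' hlt m hm v.1 v.2 b.1 b.2⟩ *
            (((∏ i, (m' i).choose (b.1 i) : ℕ) : k) *
              ∏ i, ψ ⟨v.1 i, m2 v.1 v.2 i⟩ ^ (m' i - b.1 i)) =
        if m = m' then 1 else 0 := by
      intro m' hm'
      have h := hlam d' hlt m m' hm hm'
      have hA' : ∑ v ∈ Z.attach, ∑ b ∈ (bx (n + 1) t).attach,
          (⟨lam d' m v.1 b.1, m1 d' hlt m hm v.1 v.2 b.1 b.2⟩ : A) *
            (((∏ i, (m' i).choose (b.1 i) : ℕ) : A) *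
              ∏ i, (⟨v.1 i, m2 v.1 v.2 i⟩ : A) ^ (m' i - b.1 i)) =
          if m = m' then 1 else 0 := by
        apply Subtype.ext
        have e1 : ((if m = m' then 1 else 0 : A) : K) = if m = m' then 1 else 0 := by
          split_ifs <;> rfl
        rw [e1, ← h]
        rw [← Finset.sum_attach Z]
        push_cast
        refine Finset.sum_congr rfl fun v _ => ?_
        rw [← Finset.sum_attach (bx (n + 1) t)]
      have h3 := congrArg ψ hA'
      rw [map_sum] at h3
      have e2 : ψ (if m = m' then 1 else 0) = if m = m' then 1 else 0 := by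
        split_ifs
        · exact map_one ψ
        · exact map_zero ψ
      rw [e2] at h3
      rw [← h3]
      refine Finset.sum_congr rfl fun v _ => ?_
      rw [map_sum]
      refine Finset.sum_congr rfl fun b _ => ?_
      rw [map_mul, map_mul, map_natCast, map_prod]
      simp only [map_pow]
    have hsum : coeff m G = ∑ m' ∈ (Finset.univ : Finset (Fin (n + 1))).finsuppAntidiag d',
        (if m = m' then 1 else 0) * coeff m' G := by
      rw [Finset.sum_eq_single m]
      · rw [if_pos rfl, one_mul]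
      · intro m' _ hne
        rw [if_neg (Ne.symm hne), zero_mul]
      · intro h
        exact absurd ((TR_mem_anti _ _).2 hm) h
    rw [hsum]
    have h4 : ∀ m' ∈ (Finset.univ : Finset (Fin (n + 1))).finsuppAntidiag d',
        ((if m = m' then 1 else 0 : k)) * coeff m' G =
        ∑ v ∈ Z.attach, ∑ b ∈ (bx (n + 1) t).attach,
          ψ ⟨lam d' m v.1 b.1, m1 d' hlt m hm v.1 v.2 b.1 b.2⟩ *
            ((((∏ i, (m' i).choose (b.1 i) : ℕ) : k) *
              ∏ i, ψ ⟨v.1 i, m2 v.1 v.2 i⟩ ^ (m' i - b.1 i)) * coeff m' G) := by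
      intro m' hm'
      rw [← key m' ((TR_mem_anti _ _).1 hm'), Finset.sum_mul]
      refine Finset.sum_congr rfl fun v _ => ?_
      rw [Finset.sum_mul]
      refine Finset.sum_congr rfl fun b _ => ?_
      rw [mul_assoc]
    rw [Finset.sum_congr rfl h4, Finset.sum_comm]
    refine Finset.sum_eq_zero fun v _ => ?_
    rw [Finset.sum_comm]
    refine Finset.sum_eq_zero fun b _ => ?_
    rw [← Finset.mul_sum]
    obtain ⟨hv1, hv2⟩ := hZ' v.1 v.2
    have h5 := TR_eval_hd hHC k (n + 1) b.1 (fun i => ψ ⟨v.1 i, m2 v.1 v.2 i⟩) G d' hG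
    rw [← h5]
    have h6 := ((hHV k (n + 1) (fun i => ψ ⟨v.1 i, m2 v.1 v.2 i⟩) G).2 t).1 (hv _ hv2) b.1
      ((TR_mem_bx _ _).1 b.2)
    rw [h6, mul_zero]

end Pool.Agent.H580C
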