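import Pool.Agent.H580C.CH.Props

set_option autoImplicit false

universe u

namespace Pool.Agent.H580C

open MvPolynomial Pool.Agent.Chud

theorem TS_mu_pow {k : Type*} [Field k] {σ : Type*} [Finite σ] (v : σ → k)
    {F : MvPolynomial σ k} (hF : F ≠ 0) (j : ℕ) : mu v (F ^ j) = j * mu v F := by
  induction j with
  | zero =>
    have h1 := mu_mul v (one_ne_zero (α := MvPolynomial σ k)) (one_ne_zero (α := MvPolynomial σ k))
    rw [mul_one] at h1
    rw [pow_zero]
    omega
  | succ j ih =>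
    rw [pow_succ, mu_mul v (pow_ne_zero _ hF) hF, ih]
    ring

theorem TS_deg (n c : ℕ) : (topI n c).degree = n * c := by
  rw [Finsupp.degree_eq_sum]
  simp [topI, Fin.sum_univ_succ]

theorem t_TS (hHC : St_HC.{u}) (hHM : St_HM.{u}) (hHH : St_HH.{u}) (hHX : St_HX.{u}) (hLU : St_LU) (hKD : St_KD.{u}) (hRT : St_RT.{u}) : St_TS.{u} := by
  intro k _ _ p e n d _ _ Y hY hne
  have hp : p.Prime := Fact.out
  have hq : 0 < p ^ e := pow_pos hp.pos e
  have hdeg := TS_deg n (p ^ e - 1)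
  set b := topI n (p ^ e - 1) with hb
  have hbi : ∀ i : Fin (n + 1), i ≠ 0 → b i = p ^ e - 1 := by
    intro i hi
    simp [hb, topI, hi]
  have hkd : DvdE (p ^ e) {i : Fin (n + 1) | i ≠ 0} (hd b Y) := by
    refine hKD k p e (n + 1) _ _ ?_
    intro c hc hcq hcT
    rw [hHX]
    obtain ⟨i, hi⟩ : ∃ i, c i ≠ 0 := by
      by_contra hcon
      push Not at hcon
      exact hc (Finsupp.ext hcon)
    have hi0 : i ≠ 0 := by
      intro h
      apply hi
      apply hcT
      simp [h]
    have h1 : p ∣ (b i + c i).choose (c i) := by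
      refine (hLU p hp e).1 (b i) (c i) ?_ (hcq i) ?_
      · rw [hbi i hi0]; omega
      · rw [hbi i hi0]; omega
    have h2 : p ∣ ∏ i, (b i + c i).choose (c i) :=
      h1.trans (Finset.dvd_prod_of_mem _ (Finset.mem_univ i))
    have h3 : ((∏ i, (b i + c i).choose (c i) : ℕ) : k) = 0 := (CharP.cast_eq_zero_iff k p _).mpr h2
    rw [h3, C_0, zero_mul]
  have hbd : b.degree ≤ d := by
    obtain ⟨m, hm⟩ := MvPolynomial.exists_coeff_ne_zero hne
    rw [hHC] at hm
    have h1 := hY (right_ne_zero_of_mul hm)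
    have h2 : (m + b).degree = d := by
      rw [← h1, Finsupp.degree_eq_weight_one]
      rfl
    rw [map_add] at h2
    omega
  obtain ⟨c, d', A, hc, hA, hd', hF, -⟩ := hRT k p e (n + 1) (d - b.degree) 0 (hd b Y) hne
    (hHH k _ b d Y hY) hkd
  have hA0 : A ≠ 0 := by
    rintro rfl
    rw [zero_pow hq.ne', mul_zero] at hF
    exact hne hF
  refine ⟨c, d', A, hc, hA0, hA, by omega, hF, ?_⟩
  intro v m hv hm
  have h1 := hHM k _ b v m Y hm
  rw [mem_mI_pow_iff v hne, hF, mu_mul v (pow_ne_zero _ (X_ne_zero 0)) (pow_ne_zero _ hA0),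
    TS_mu_pow v (X_ne_zero 0), TS_mu_pow v hA0] at h1
  have h2 : mu v (X 0 : MvPolynomial (Fin (n + 1)) k) = 0 := by
    by_contra hcon
    have h3 := (mu_pos_iff v (X_ne_zero (R := k) (0 : Fin (n + 1)))).mp (Nat.pos_of_ne_zero hcon)
    rw [eval_X] at h3
    exact hv h3
  rw [h2, mul_zero, zero_add] at h1
  omega

end Pool.Agent.H580C
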