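import Pool.Agent.H580C.CH.Asm
import Pool.Agent.H580C.CH.T_A1
import Pool.Agent.H580C.CH.T_AS
import Pool.Agent.H580C.CH.T_BL
import Pool.Agent.H580C.CH.T_CD
import Pool.Agent.H580C.CH.T_CE
import Pool.Agent.H580C.CH.T_CO
import Pool.Agent.H580C.CH.T_CP
import Pool.Agent.H580C.CH.T_DD
import Pool.Agent.H580C.CH.T_DL
import Pool.Agent.H580C.CH.T_FC
import Pool.Agent.H580C.CH.T_FE
import Pool.Agent.H580C.CH.T_FP
import Pool.Agent.H580C.CH.T_FZ
import Pool.Agent.H580C.CH.T_G0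
import Pool.Agent.H580C.CH.T_G1
import Pool.Agent.H580C.CH.T_G2
import Pool.Agent.H580C.CH.T_G3
import Pool.Agent.H580C.CH.T_G4
import Pool.Agent.H580C.CH.T_G5
import Pool.Agent.H580C.CH.T_G6
import Pool.Agent.H580C.CH.T_HC
import Pool.Agent.H580C.CH.T_HH
import Pool.Agent.H580C.CH.T_HM
import Pool.Agent.H580C.CH.T_HP
import Pool.Agent.H580C.CH.T_HV
import Pool.Agent.H580C.CH.T_HX
import Pool.Agent.H580C.CH.T_KD
import Pool.Agent.H580C.CH.T_LS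
import Pool.Agent.H580C.CH.T_LU
import Pool.Agent.H580C.CH.T_MD
import Pool.Agent.H580C.CH.T_ML
import Pool.Agent.H580C.CH.T_MN
import Pool.Agent.H580C.CH.T_MT
import Pool.Agent.H580C.CH.T_MX
import Pool.Agent.H580C.CH.T_OE
import Pool.Agent.H580C.CH.T_PA
import Pool.Agent.H580C.CH.T_PD
import Pool.Agent.H580C.CH.T_PP
import Pool.Agent.H580C.CH.T_PX
import Pool.Agent.H580C.CH.T_PZ
import Pool.Agent.H580C.CH.T_RD
import Pool.Agent.H580C.CH.T_RE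
import Pool.Agent.H580C.CH.T_RT
import Pool.Agent.H580C.CH.T_SU
import Pool.Agent.H580C.CH.T_TI
import Pool.Agent.H580C.CH.T_TN
import Pool.Agent.H580C.CH.T_TR
import Pool.Agent.H580C.CH.T_TS

/-!
All the statements are proved.
-/

set_option autoImplicit false

universe u

namespace Pool.Agent.H580C

open MvPolynomial Pool.Agent.Chud

theorem p_KD : St_KD.{u} := t_KD t_HC t_LU
theorem p_HX : St_HX.{u} := t_HX t_HC
theorem p_HH : St_HH.{u} := t_HH t_HC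
theorem p_MX : St_MX.{u} := t_MX p_HX t_LU p_KD
theorem p_LS : St_LS.{u} := t_LS t_DL
theorem p_BL : St_BL.{u} := t_BL t_HC t_HM p_HH p_MX t_RT
theorem p_TN : St_TN.{u} := t_TN t_HC t_HM p_HH p_MX t_RT p_LS
theorem p_TS : St_TS.{u} := t_TS t_HC t_HM p_HH p_HX t_LU p_KD t_RT
theorem p_CP : St_CP.{u} := t_CP p_BL p_LS t_SU t_CO
theorem p_ML : St_ML.{u} := t_ML t_HC t_HM p_HH p_MX p_KD t_RT p_LS t_OE
theorem p_MD : St_MD.{u} := t_MD p_ML t_SU t_CE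
theorem p_FE : St_FE.{u} := t_FE p_ML t_FC t_OE
theorem p_FP : St_FP.{u} := t_FP p_FE t_SU t_CE
theorem p_TI : St_TI.{u} := t_TI t_HV t_HC
theorem p_TR : St_TR.{u} := t_TR p_TI t_RD t_HV t_HC
theorem p_MT : St_MT.{u} := t_MT t_HV
theorem p_CD : St_CD.{u} := t_CD p_CP p_CP p_TR p_MT
theorem p_FZ : St_FZ.{u} := t_FZ p_FP p_TR p_MT
theorem p_PX : St_PX.{u} := t_PX p_CP
theorem p_PA : St_PA.{u} := t_PA p_HX t_HP t_LU p_TN p_TS
theorem p_PD : St_PD.{u} := t_PD p_MD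
theorem p_PZ : St_PZ.{u} := t_PZ t_RT
theorem p_PP : St_PP.{u} := t_PP p_PX p_PA p_PD p_PZ t_SU t_CO
theorem p_RE : St_RE.{u} := t_RE p_PP
theorem p_G0 : St_G0.{u} := t_G0 t_DD
theorem p_G1 : St_G1.{u} := t_G1 p_G0
theorem p_G3 : St_G3.{u} := t_G3 t_DD

/-- **Demailly's inequality** for all finite sets of points. -/
theorem demailly {k : Type u} [Field k] [IsAlgClosed k] {N : ℕ} (hN : 1 ≤ N)
    (S : Finset (PP k N)) (hS : S.Nonempty) (t m : ℕ) (ht : 1 ≤ t) :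
    m * (aS S t + N - 1) ≤ aS S m * (t + N - 1) :=
  demailly_of p_CD t_AS hN S hS t m ht

/-- **Equality in Chudnovsky's bound.** -/
theorem equality {k : Type u} [Field k] [IsAlgClosed k] {N : ℕ} (hN : 1 ≤ N)
    (S : Finset (PP k N)) (m : ℕ) (hm : 1 ≤ m)
    (h : (aS S m : ℝ) / m = ((aS S 1 : ℝ) + N - 1) / N) : InHyperplane S ∨ IsStar S :=
  main_of t_MN t_AS (t_A1 t_AS) p_CD p_RE p_FP p_FZ t_DD p_G1 t_G2 p_G3 t_G4 t_G5 t_G6 k N hN S m
    hm h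

end Pool.Agent.H580C
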