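import Pool.Agent.H580C.CH.Props

/-!
Assembly: equality in Chudnovsky's bound, and Demailly's inequality, from the statements.
-/

set_option autoImplicit false

universe u

namespace Pool.Agent.H580C

open MvPolynomial Pool.Agent.Chud

section

variable {k : Type u} [Field k] {N : ℕ}

theorem reps_finite (S : Finset (PP k N)) : (reps S).Finite := by
  classical
  refine ((S.image (fun p => p.rep)).finite_toSet).subset ?_
  rintro v ⟨p, hp, rfl⟩
  simp only [Finset.coe_image, Set.mem_image, Finset.mem_coe]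
  exact ⟨p, hp, rfl⟩

theorem reps_ne_zero (S : Finset (PP k N)) : ∀ v ∈ reps S, v ≠ 0 := by
  rintro v ⟨p, hp, rfl⟩
  exact p.rep_nonzero

theorem reps_nonempty {S : Finset (PP k N)} (h : S.Nonempty) : (reps S).Nonempty := by
  obtain ⟨p, hp⟩ := h
  exact ⟨p.rep, p, hp, rfl⟩

theorem nonempty_of_low {S : Finset (PP k N)} {t a : ℕ} (ha : 1 ≤ a) (h : LowT (reps S) t a) :
    S.Nonempty := by
  by_contra hS
  rw [Finset.not_nonempty_iff_eq_empty] at hS
  subst hS
  have := h 1 0 one_ne_zero (isHomogeneous_one _ _) (by rintro v ⟨p, hp, rfl⟩; simp at hp)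
  omega

theorem rep_injective : Function.Injective (fun p : PP k N => p.rep) := by
  intro p q h
  rw [← p.mk_rep, ← q.mk_rep]
  congr 1

/-- Demailly's inequality for `aS`. -/
theorem demailly_of (hCD : St_CD.{u}) (hAS : St_AS.{u}) [IsAlgClosed k] (hN : 1 ≤ N)
    (S : Finset (PP k N)) (hS : S.Nonempty) (t m : ℕ) (ht : 1 ≤ t) :
    m * (aS S t + N - 1) ≤ aS S m * (t + N - 1) := by
  obtain ⟨⟨F, hF0, hFh, hFv⟩, -⟩ := hAS k N m S hN
  obtain ⟨-, hlow⟩ := hAS k N t S hN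
  refine hCD k N t (aS S t) m (aS S m) (reps S) F hN ht (reps_finite S) (reps_nonempty hS)
    (reps_ne_zero S) hlow hF0 hFh ?_
  rintro v ⟨p, hp, rfl⟩
  exact hFv p hp

end

open Classical in
/-- The configuration from the data. -/
theorem star_of (hG1 : St_G1.{u}) (hG2 : St_G2.{u}) (hG3 : St_G3.{u}) (hG4 : St_G4.{u})
    (hG5 : St_G5.{u}) (hG6 : St_G6.{u}) (k : Type u) [Field k] [IsAlgClosed k] (N a ν : ℕ)
    (S S' : Finset (PP k N)) (F : MvPolynomial (Fin (N + 1)) k)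
    (h FP : PP k N → MvPolynomial (Fin (N + 1)) k) (hE : EG a ν S' F h FP)
    (hF : ∀ p ∈ S, F ∈ mI p.rep ^ (N * ν)) (hsub : S' ⊆ S) : IsStar S := by
  obtain ⟨H, c, hc, hcard, hprod⟩ := hG2 k N (a - 1 + N) ν F hE.hν hE.F0 hE.Fh
    (hG1 k N a ν S' F h FP hE)
  obtain ⟨h3, h3'⟩ := hG3 k N a ν S' F h FP hE H c hc hprod
  have ha := hE.ha
  have h4 := hG4 k N a S' (by omega) hE.low
  have h5 := hG5 k N S' H hE.hN (by omega) h3 h3' (by
    rw [hcard, add_comm (a - 1) N]; exact h4)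
  refine ⟨H, by omega, fun p => (h5 p).1, fun p => ⟨fun hp => ?_, fun hp => ?_⟩⟩
  · have h6 := hG6 k N ν N H c p hc hE.hν (by rw [← hprod]; exact hF p hp)
    exact le_antisymm (h5 p).1 h6
  · exact hsub ((h5 p).2 hp)

theorem main_of (hMN : St_MN.{u}) (hAS : St_AS.{u}) (hA1 : St_A1.{u}) (hCD : St_CD.{u})
    (hRE : St_RE.{u}) (hFP : St_FP.{u}) (hFZ : St_FZ.{u}) (hDD : St_DD.{u})
    (hG1 : St_G1.{u}) (hG2 : St_G2.{u}) (hG3 : St_G3.{u}) (hG4 : St_G4.{u})
    (hG5 : St_G5.{u}) (hG6 : St_G6.{u}) (k : Type u) [Field k] [IsAlgClosed k] (N : ℕ)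
    (hN : 1 ≤ N) (S : Finset (PP k N)) (m : ℕ) (hm : 1 ≤ m)
    (h : (aS S m : ℝ) / m = ((aS S 1 : ℝ) + N - 1) / N) : InHyperplane S ∨ IsStar S := by
  classical
  rcases Nat.lt_or_ge 1 (aS S 1) with ha | ha
  swap
  · exact Or.inl (hA1 k N S hN ha)
  right
  set a := aS S 1 with ha_def
  obtain ⟨-, hlow⟩ := hAS k N 1 S hN
  obtain ⟨⟨F₀, hF₀, hF₀h, hF₀v⟩, -⟩ := hAS k N m S hN
  rw [← ha_def] at hlow
  -- the numerical equality
  have hnum : N * aS S m = (a - 1 + N) * m := by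
    have hm0 : (m : ℝ) ≠ 0 := by positivity
    have hN0 : (N : ℝ) ≠ 0 := by positivity
    rw [div_eq_div_iff hm0 hN0] at h
    have h1 : ((N * aS S m : ℕ) : ℝ) = (((a - 1 + N) * m : ℕ) : ℝ) := by
      push_cast [Nat.cast_sub (by omega : 1 ≤ a)]
      linarith
    exact_mod_cast h1
  obtain ⟨S', hS'S, hlow', g, hg⟩ := hMN k N a S (by omega) hlow
  have hne : S'.Nonempty := nonempty_of_low (by omega) hlow'
  -- the interpolation forms indexed by vectors
  let e : (Fin (N + 1) → k) → PP k N := fun v => if hv : v ≠ 0 then Projectivization.mk k v hv else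
    hne.choose
  have he : ∀ p : PP k N, e p.rep = p := by
    intro p
    simp only [e, dif_pos p.rep_nonzero, p.mk_rep]
  let Z : Finset (Fin (N + 1) → k) := S'.image (fun p => p.rep)
  let Z₀ : Finset (Fin (N + 1) → k) := S.image (fun p => p.rep)
  have hZ : (Z : Set (Fin (N + 1) → k)) = reps S' := by
    ext v
    simp only [Z, Finset.coe_image, Set.mem_image, Finset.mem_coe, reps, Set.mem_setOf_eq]
    exact ⟨fun ⟨p, hp, h⟩ => ⟨p, hp, h.symm⟩, fun ⟨p, hp, h⟩ => ⟨p, hp, h.symm⟩⟩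
  have hF : F₀ ^ N ≠ 0 := pow_ne_zero _ hF₀
  have hFh : (F₀ ^ N).IsHomogeneous ((a - 1 + N) * m) := by
    rw [← hnum, mul_comm]; exact hF₀h.pow N
  have hFv : ∀ v ∈ Z₀, F₀ ^ N ∈ mI v ^ (N * m) := by
    intro v hv
    obtain ⟨p, hp, rfl⟩ := Finset.mem_image.1 hv
    rw [mul_comm, pow_mul]
    exact Ideal.pow_mem_pow (hF₀v p hp) N
  -- the reduced form
  have key : ∃ (ν : ℕ) (F : MvPolynomial (Fin (N + 1)) k), 1 ≤ ν ∧ F ≠ 0 ∧
      F.IsHomogeneous ((a - 1 + N) * ν) ∧ (∀ v ∈ Z₀, F ∈ mI v ^ (N * ν)) ∧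
      ∀ (v₀ : Fin (N + 1) → k) (W : Set (Fin (N + 1) → k)), W.Finite → v₀ ≠ 0 →
        FacId a ν v₀ W := by
    rcases CharP.exists k with ⟨p, hp⟩
    rcases CharP.char_is_prime_or_zero k p with hpp | h0
    · haveI : Fact p.Prime := ⟨hpp⟩
      obtain ⟨ν, F, hν, hpν, hF0, hFh, hFv⟩ := hRE k p N a m Z Z₀ (fun v => g (e v)) (F₀ ^ N) hN ha hm
        (hne.image _) (by
          intro v hv
          obtain ⟨p, hp, rfl⟩ := Finset.mem_image.1 hv
          exact p.rep_nonzero) (Finset.image_subset_image hS'S) (hZ ▸ hlow') (by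
          intro v hv
          obtain ⟨p, hp, rfl⟩ := Finset.mem_image.1 hv
          obtain ⟨h1, h2, h3⟩ := hg p hp
          simp only [he]
          refine ⟨h1, h2, ?_⟩
          intro w hw hwv
          obtain ⟨q, hq, rfl⟩ := Finset.mem_image.1 hw
          exact h3 q hq (fun hqp => hwv (by rw [hqp]))) hF hFh hFv
      exact ⟨ν, F, hν, hF0, hFh, hFv, fun v₀ W _ hv₀ => hFP k p N a ν v₀ W hv₀ (by omega) hν hpν⟩
    · subst h0
      haveI : CharZero k := CharP.charP_to_charZero k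
      exact ⟨m, F₀ ^ N, hm, hF, hFh, hFv, fun v₀ W hW hv₀ => hFZ k N a m v₀ W hW hv₀ (by omega) hm⟩
  obtain ⟨ν, F, hν, hF0, hFh', hFv', hfac⟩ := key
  have hSZ : ∀ p ∈ S, p.rep ∈ Z₀ := fun p hp => Finset.mem_image_of_mem _ hp
  let FP : PP k N → MvPolynomial (Fin (N + 1)) k := fun p => (dir p.rep F).coeff ((a - 1) * ν)
  have hE : EG a ν S' F g FP := by
    refine ⟨hN, ha, hν, hlow', hF0, hFh', fun p hp => hFv' _ (hSZ p (hS'S hp)),
      fun p hp => (hg p hp).1, fun p hp => (hg p hp).2.1, fun p hp => (hg p hp).2.2, ?_, ?_, ?_⟩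
    · intro p hp
      have h1 := hfac p.rep (reps (S'.erase p)) (reps_finite _) p.rep_nonzero (by
        have : insert p.rep (reps (S'.erase p)) = reps S' := by
          ext v
          simp only [Set.mem_insert_iff, reps, Set.mem_setOf_eq, Finset.mem_erase]
          constructor
          · rintro (h | ⟨q, ⟨-, hq⟩, h⟩)
            · exact ⟨p, hp, h⟩
            · exact ⟨q, hq, h⟩
          · rintro ⟨q, hq, h⟩
            by_cases hqp : q = p
            · left; rw [h, hqp]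
            · right; exact ⟨q, ⟨hqp, hq⟩, h⟩
        rw [this]; exact hlow') F (g p) hFh' (by
          intro v hv
          rcases hv with rfl | ⟨q, hq, rfl⟩
          · exact hFv' _ (hSZ p (hS'S hp))
          · exact hFv' _ (hSZ q (hS'S (Finset.mem_of_mem_erase hq)))) (hg p hp).1 (by
          rintro v ⟨q, hq, rfl⟩
          exact (hg p hp).2.2 q (Finset.mem_of_mem_erase hq) (Finset.ne_of_mem_erase hq))
      rw [(hg p hp).2.1, one_pow, map_one, one_mul] at h1
      exact h1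
    · intro p hp
      obtain ⟨d1, d2, -, -, -⟩ := hDD k (N + 1) p.rep F
      refine d2 _ ?_
      have := d1 ((a - 1 + N) * ν) (N * ν) p.rep_nonzero hFh' (hFv' _ (hSZ p (hS'S hp)))
      refine this.trans (le_of_eq ?_)
      rw [add_mul, Nat.add_sub_cancel]
    · intro T hT a' hlowT G d m' hG0 hGh hGv
      have := hCD k N 1 a' m' d (reps T) G hN le_rfl (reps_finite T) (reps_nonempty hT)
        (reps_ne_zero T) hlowT hG0 hGh (by
          rintro v ⟨p, hp, rfl⟩
          exact hGv p hp)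
      rwa [Nat.add_sub_cancel_left] at this
  exact star_of hG1 hG2 hG3 hG4 hG5 hG6 k N a ν S S' F g FP hE
    (fun p hp => hFv' _ (hSZ p hp)) hS'S

end Pool.Agent.H580C
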