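import Mathlib
import Pool.Agent.Chud.Defs
import Pool.Agent.Chud.Tools
import Pool.Agent.Chud.PA
import Pool.Agent.Chud.PB

/-!
Definitions for the inequalities of Chudnovsky and Demailly and for the case of equality.
-/

set_option autoImplicit false

namespace Pool.Agent.H580C

open MvPolynomial Pool.Agent.Chud

section

variable {k : Type*} [Field k] {σ : Type*}

/-- Taylor expansion `F(x+y)`, a polynomial in `y` with coefficients polynomials in `x`. -/
noncomputable def taylor : MvPolynomial σ k →ₐ[k] MvPolynomial σ (MvPolynomial σ k) :=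
  aeval (fun i => C (X i) + X i)

/-- Hasse derivative (divided partial derivative) of multi-order `b`: the coefficient of `y ^ b` in
`F(x+y)`. -/
noncomputable def hd (b : σ →₀ ℕ) : MvPolynomial σ k →ₗ[k] MvPolynomial σ k :=
  ((MvPolynomial.lcoeff (MvPolynomial σ k) b).restrictScalars k).comp
    (taylor (k := k) (σ := σ)).toLinearMap

theorem hd_apply (b : σ →₀ ℕ) (F : MvPolynomial σ k) : hd b F = coeff b (taylor F) := rfl

/-- `F(x+tv)` as a polynomial in `t`. -/
noncomputable def dir (v : σ → k) : MvPolynomial σ k →ₐ[k] Polynomial (MvPolynomial σ k) :=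
  aeval (fun i => Polynomial.C (X i) + Polynomial.C (C (v i)) * Polynomial.X)

/-- Every nonzero form which vanishes to order at least `t` at every `v ∈ Z` has degree at
least `a`. -/
def LowT (Z : Set (σ → k)) (t a : ℕ) : Prop :=
  ∀ (F : MvPolynomial σ k) (d : ℕ), F ≠ 0 → F.IsHomogeneous d → (∀ v ∈ Z, F ∈ mI v ^ t) → a ≤ d

/-- The exponents of the variables `x_i`, `i ∈ T`, in all the monomials of `F` are divisible
by `q`. -/
def DvdE (q : ℕ) (T : Set σ) (F : MvPolynomial σ k) : Prop := ∀ m ∈ F.support, ∀ i ∈ T, q ∣ m i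

/-- linear substitution: `(sub e F)(v) = F (e v)` -/
noncomputable def sub [Fintype σ] [DecidableEq σ] (e : (σ → k) ≃ₗ[k] (σ → k)) :
    MvPolynomial σ k →ₐ[k] MvPolynomial σ k :=
  aeval (fun i => ∑ j, C (e (Pi.single j 1) i) * X j)

end

/-- the representatives of the points of `S` -/
def reps {k : Type*} [Field k] {N : ℕ} (S : Finset (PP k N)) : Set (Fin (N + 1) → k) :=
  {v | ∃ p ∈ S, v = p.rep}

end Pool.Agent.H580C
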