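import Pool.Agent.H580C.CH.Defs
import Pool.Agent.Chud.PB2
import Pool.Agent.Chud.PD1
import Pool.Agent.Chud.PE1
import Pool.Agent.Chud.PE2
import Pool.Agent.Chud.PE3

/-!
The statements of the tasks.
-/

set_option autoImplicit false

universe u

namespace Pool.Agent.H580C

open MvPolynomial Pool.Agent.Chud

/-- the first standard basis vector -/
abbrev e0 (k : Type u) [Field k] (n : ℕ) : Fin (n + 1) → k := Pi.single 0 1

/-- the multi-index `(0, c, …, c)` -/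
noncomputable def topI (n c : ℕ) : Fin (n + 1) →₀ ℕ :=
  Finsupp.equivFunOnFinite.symm (fun i => if i = 0 then 0 else c)

/-! ### Hasse derivatives -/

def St_HC : Prop := ∀ (k : Type u) [Field k] (N : ℕ) (b m : Fin N →₀ ℕ)
  (F : MvPolynomial (Fin N) k),
  coeff m (hd b F) = ((∏ i, (m i + b i).choose (b i) : ℕ) : k) * coeff (m + b) F

def St_HM : Prop := ∀ (k : Type u) [Field k] (N : ℕ) (b : Fin N →₀ ℕ) (v : Fin N → k) (m : ℕ)
  (F : MvPolynomial (Fin N) k), F ∈ mI v ^ m → hd b F ∈ mI v ^ (m - b.degree)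

def St_HH : Prop := ∀ (k : Type u) [Field k] (N : ℕ) (b : Fin N →₀ ℕ) (d : ℕ)
  (F : MvPolynomial (Fin N) k), F.IsHomogeneous d → (hd b F).IsHomogeneous (d - b.degree)

def St_HX : Prop := ∀ (k : Type u) [Field k] (N : ℕ) (b c : Fin N →₀ ℕ)
  (F : MvPolynomial (Fin N) k),
  hd c (hd b F) = C (((∏ i, (b i + c i).choose (c i) : ℕ) : k)) * hd (b + c) F

/-- Taylor coefficients at `v` and the order at `v` -/
def St_HV : Prop := ∀ (k : Type u) [Field k] (N : ℕ) (v : Fin N → k) (F : MvPolynomial (Fin N) k),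
  (∀ b : Fin N →₀ ℕ, coeff b (trans v F) = eval v (hd b F)) ∧
  (∀ m : ℕ, F ∈ mI v ^ m ↔ ∀ b : Fin N →₀ ℕ, b.degree < m → eval v (hd b F) = 0)

/-- Hasse derivatives of multi-order `< q` are linear over `q`-th powers -/
def St_HP : Prop := ∀ (k : Type u) [Field k] (p e N : ℕ) [Fact p.Prime] [CharP k p]
  (b : Fin N →₀ ℕ) (G X : MvPolynomial (Fin N) k), (∀ i, b i < p ^ e) →
  hd b (G ^ (p ^ e) * X) = G ^ (p ^ e) * hd b X

/-- binomial coefficients modulo `p` (Lucas) -/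
def St_LU : Prop := ∀ (p : ℕ), p.Prime → ∀ e : ℕ,
  (∀ b c : ℕ, b < p ^ e → c < p ^ e → p ^ e ≤ b + c → p ∣ (b + c).choose c) ∧
  (∀ m : ℕ, ¬ p ∣ m.choose (m % p ^ e)) ∧
  (∀ e' : ℕ, ¬ p ∣ (p ^ (e' + e) - 1).choose (p ^ e - 1))

/-- the common kernel of the Hasse derivatives of multi-order `< q` -/
def St_KD : Prop := ∀ (k : Type u) [Field k] (p e N : ℕ) [Fact p.Prime] [CharP k p]
  (T : Set (Fin N)) (F : MvPolynomial (Fin N) k),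
  (∀ c : Fin N →₀ ℕ, c ≠ 0 → (∀ i, c i < p ^ e) → (∀ i, i ∉ T → c i = 0) → hd c F = 0) →
  DvdE (p ^ e) T F

/-- a last nonvanishing Hasse derivative -/
def St_MX : Prop := ∀ (k : Type u) [Field k] (p e N : ℕ) [Fact p.Prime] [CharP k p]
  (T : Set (Fin N)) (F : MvPolynomial (Fin N) k) (b₀ : Fin N →₀ ℕ),
  (∀ i, b₀ i < p ^ e) → (∀ i, i ∉ T → b₀ i = 0) → hd b₀ F ≠ 0 →
  ∃ b : Fin N →₀ ℕ, b₀ ≤ b ∧ (∀ i, b i < p ^ e) ∧ (∀ i, i ∉ T → b i = 0) ∧ hd b F ≠ 0 ∧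
    DvdE (p ^ e) T (hd b F)

/-- extraction of `q`-th roots -/
def St_RT : Prop := ∀ (k : Type u) [Field k] [IsAlgClosed k] (p e N d : ℕ) [Fact p.Prime]
  [CharP k p] (i₀ : Fin N) (F : MvPolynomial (Fin N) k), F ≠ 0 → F.IsHomogeneous d →
  DvdE (p ^ e) {i | i ≠ i₀} F →
  ∃ (c d' : ℕ) (G : MvPolynomial (Fin N) k), c < p ^ e ∧ G.IsHomogeneous d' ∧
    d = c + p ^ e * d' ∧ F = X i₀ ^ c * G ^ (p ^ e) ∧ (DvdE (p ^ e) Set.univ F → c = 0)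

/-! ### degrees and multiplicities -/

/-- lowering the degree and all the multiplicities by one -/
def St_DL : Prop := ∀ (k : Type u) [Field k] [IsAlgClosed k] (N d : ℕ)
  (F : MvPolynomial (Fin N) k), F ≠ 0 → F.IsHomogeneous d → 1 ≤ d →
  ∃ G : MvPolynomial (Fin N) k, G ≠ 0 ∧ G.IsHomogeneous (d - 1) ∧
    ∀ (v : Fin N → k) (m : ℕ), F ∈ mI v ^ (m + 1) → G ∈ mI v ^ m

def St_LS : Prop := ∀ (k : Type u) [Field k] [IsAlgClosed k] (N t a : ℕ) (Z : Set (Fin N → k)),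
  Z.Nonempty → 1 ≤ t → LowT Z t a → ∀ j, LowT Z (t + j) (a + j)

/-- the basic lemma -/
def St_BL : Prop := ∀ (k : Type u) [Field k] [IsAlgClosed k] (p e n d m : ℕ) [Fact p.Prime]
  [CharP k p] (Z : Set (Fin (n + 1) → k)) (F : MvPolynomial (Fin (n + 1)) k),
  (∀ v ∈ Z, v 0 ≠ 0) → F ≠ 0 → F.IsHomogeneous d → (∀ v ∈ Z, F ∈ mI v ^ m) →
  ∃ (B d' : ℕ) (g : MvPolynomial (Fin (n + 1)) k), B ≤ n * (p ^ e - 1) ∧ g ≠ 0 ∧
    g.IsHomogeneous d' ∧ p ^ e * d' + B ≤ d ∧ ∀ v ∈ Z, m ≤ p ^ e * mu v g + B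

/-- nonvanishing of the top derivative -/
def St_TN : Prop := ∀ (k : Type u) [Field k] [IsAlgClosed k] (p e n d a : ℕ) [Fact p.Prime]
  [CharP k p] (Z : Set (Fin (n + 1) → k)) (F : MvPolynomial (Fin (n + 1)) k),
  Z.Finite → Z.Nonempty → 1 ≤ a → LowT Z 1 a →
  (∀ v ∈ Z, v 0 ≠ 0) → F ≠ 0 → F.IsHomogeneous d → (∀ v ∈ Z, F ∈ mI v ^ (n * (p ^ e - 1))) →
  d < p ^ e * (a - 1) + n * (p ^ e - 1) → hd (topI n (p ^ e - 1)) F ≠ 0

/-- the structure of the top derivative -/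
def St_TS : Prop := ∀ (k : Type u) [Field k] [IsAlgClosed k] (p e n d : ℕ) [Fact p.Prime]
  [CharP k p] (Y : MvPolynomial (Fin (n + 1)) k), Y.IsHomogeneous d →
  hd (topI n (p ^ e - 1)) Y ≠ 0 →
  ∃ (c d' : ℕ) (A : MvPolynomial (Fin (n + 1)) k), c < p ^ e ∧ A ≠ 0 ∧ A.IsHomogeneous d' ∧
    d = c + p ^ e * d' + n * (p ^ e - 1) ∧ hd (topI n (p ^ e - 1)) Y = X 0 ^ c * A ^ (p ^ e) ∧
    ∀ (v : Fin (n + 1) → k) (m : ℕ), v 0 ≠ 0 → Y ∈ mI v ^ m →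
      m ≤ p ^ e * mu v A + n * (p ^ e - 1)

/-- linear substitutions -/
def St_SU : Prop := ∀ (k : Type u) [Field k] (N : ℕ) (e : (Fin N → k) ≃ₗ[k] (Fin N → k)),
  Function.Injective (sub e) ∧
  (∀ (F : MvPolynomial (Fin N) k) (d : ℕ), F.IsHomogeneous d → (sub e F).IsHomogeneous d) ∧
  (∀ (F : MvPolynomial (Fin N) k) (v : Fin N → k), eval v (sub e F) = eval (e v) F) ∧
  (∀ (F : MvPolynomial (Fin N) k) (v : Fin N → k) (m : ℕ),
    sub e F ∈ mI v ^ m ↔ F ∈ mI (e v) ^ m) ∧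
  (∀ (F : MvPolynomial (Fin N) k) (v : Fin N → k) (j : ℕ),
    (dir v (sub e F)).coeff j = sub e ((dir (e v) F).coeff j)) ∧
  (∀ (F : MvPolynomial (Fin N) k), sub e.symm (sub e F) = F)

def St_CO : Prop := ∀ (k : Type u) [Field k] [Infinite k] (n : ℕ) (Z : Set (Fin (n + 1) → k)),
  Z.Finite → (∀ v ∈ Z, v ≠ 0) →
  ∃ e : (Fin (n + 1) → k) ≃ₗ[k] (Fin (n + 1) → k), ∀ v ∈ Z, e.symm v 0 ≠ 0

def St_CE : Prop := ∀ (k : Type u) [Field k] (n : ℕ) (v : Fin (n + 1) → k), v ≠ 0 →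
  ∃ e : (Fin (n + 1) → k) ≃ₗ[k] (Fin (n + 1) → k), e (e0 k n) = v

/-- Demailly's inequality in positive characteristic -/
def St_CP : Prop := ∀ (k : Type u) [Field k] [IsAlgClosed k] (p : ℕ) [Fact p.Prime] [CharP k p]
  (n t a m d : ℕ) (Z : Set (Fin (n + 1) → k)) (F : MvPolynomial (Fin (n + 1)) k),
  1 ≤ n → 1 ≤ t → Z.Finite → Z.Nonempty → (∀ v ∈ Z, v ≠ 0) → LowT Z t a →
  F ≠ 0 → F.IsHomogeneous d → (∀ v ∈ Z, F ∈ mI v ^ m) → m * (a + n - 1) ≤ d * (t + n - 1)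

/-- Demailly's inequality -/
def St_CD : Prop := ∀ (k : Type u) [Field k] [IsAlgClosed k]
  (n t a m d : ℕ) (Z : Set (Fin (n + 1) → k)) (F : MvPolynomial (Fin (n + 1)) k),
  1 ≤ n → 1 ≤ t → Z.Finite → Z.Nonempty → (∀ v ∈ Z, v ≠ 0) → LowT Z t a →
  F ≠ 0 → F.IsHomogeneous d → (∀ v ∈ Z, F ∈ mI v ^ m) → m * (a + n - 1) ≤ d * (t + n - 1)

/-! ### the case of equality: the factorisation -/

/-- orders at `e₀` of forms -/
def St_OE : Prop := ∀ (k : Type u) [Field k] (n d m : ℕ) (F : MvPolynomial (Fin (n + 1)) k),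
  F.IsHomogeneous d → (F ∈ mI (e0 k n) ^ m ↔ ∀ c ∈ F.support, c 0 + m ≤ d)

def St_ML : Prop := ∀ (k : Type u) [Field k] [IsAlgClosed k] (p e n a : ℕ) [Fact p.Prime]
  [CharP k p] (Z : Set (Fin (n + 1) → k)) (A : MvPolynomial (Fin (n + 1)) k),
  1 ≤ a → LowT (insert (e0 k n) Z) 1 a → A.IsHomogeneous ((a - 1) * p ^ e + n * (p ^ e - 1)) →
  (∀ v ∈ Z, A ∈ mI v ^ (n * (p ^ e - 1) + 1)) → A ∈ mI (e0 k n) ^ (n * (p ^ e - 1)) →
  DvdE (p ^ e) {0} A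

/-- the main lemma at an arbitrary point -/
def St_MD : Prop := ∀ (k : Type u) [Field k] [IsAlgClosed k] (p e n a : ℕ) [Fact p.Prime]
  [CharP k p] (v₀ : Fin (n + 1) → k) (Z : Set (Fin (n + 1) → k))
  (A : MvPolynomial (Fin (n + 1)) k),
  1 ≤ e → 1 ≤ a → v₀ ≠ 0 → LowT (insert v₀ Z) 1 a →
  A.IsHomogeneous ((a - 1) * p ^ e + n * (p ^ e - 1)) →
  (∀ v ∈ Z, A ∈ mI v ^ (n * (p ^ e - 1) + 1)) → A ∈ mI v₀ ^ (n * (p ^ e - 1)) →
  (dir v₀ A).coeff 1 = 0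

/-- comparison of the parts of top degree in `x_0` -/
def St_FC : Prop := ∀ (k : Type u) [Field k] (n q D : ℕ)
  (F H U V : MvPolynomial (Fin (n + 1)) k), D < q → F * U = H * V → DvdE q {0} U →
  DvdE q {0} V → (∀ c ∈ F.support, c 0 ≤ D) → H.IsHomogeneous D →
  (dir (e0 k n) F).coeff D * U = C (eval (e0 k n) H) * V

/-- the factorisation identity for the point `v₀` -/
def FacId {k : Type u} [Field k] {n : ℕ} (a ν : ℕ) (v₀ : Fin (n + 1) → k)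
    (Z : Set (Fin (n + 1) → k)) : Prop :=
  LowT (insert v₀ Z) 1 a → ∀ (F h : MvPolynomial (Fin (n + 1)) k),
    F.IsHomogeneous ((a - 1 + n) * ν) → (∀ v ∈ insert v₀ Z, F ∈ mI v ^ (n * ν)) →
    h.IsHomogeneous (a - 1) → (∀ v ∈ Z, eval v h = 0) →
    C ((eval v₀ h) ^ ν) * F = (dir v₀ F).coeff ((a - 1) * ν) * h ^ ν

def St_FE : Prop := ∀ (k : Type u) [Field k] [IsAlgClosed k] (p n a ν : ℕ) [Fact p.Prime]
  [CharP k p] (Z : Set (Fin (n + 1) → k)), 1 ≤ a → 1 ≤ ν → ¬ p ∣ ν → FacId a ν (e0 k n) Z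

def St_FP : Prop := ∀ (k : Type u) [Field k] [IsAlgClosed k] (p n a ν : ℕ) [Fact p.Prime]
  [CharP k p] (v₀ : Fin (n + 1) → k) (Z : Set (Fin (n + 1) → k)), v₀ ≠ 0 → 1 ≤ a → 1 ≤ ν →
  ¬ p ∣ ν → FacId a ν v₀ Z

/-- the finite set of the multi-indices of degree less than `t` -/
def bx (N t : ℕ) : Finset (Fin N →₀ ℕ) :=
  (Finset.range t).biUnion fun d => (Finset.univ : Finset (Fin N)).finsuppAntidiag d

/-- interpolation: the coefficients of the forms of degree `d < a` are linear combinations of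
their Taylor coefficients of order `< t` at the points of `Z` -/
def St_TI : Prop := ∀ (K : Type u) [Field K] (n t a : ℕ) (Z : Finset (Fin (n + 1) → K)),
  LowT (Z : Set (Fin (n + 1) → K)) t a → ∀ d < a,
  ∃ lam : (Fin (n + 1) →₀ ℕ) → (Fin (n + 1) → K) → (Fin (n + 1) →₀ ℕ) → K,
    ∀ m m' : Fin (n + 1) →₀ ℕ, m.degree = d → m'.degree = d →
      ∑ v ∈ Z, ∑ b ∈ bx (n + 1) t,
        lam m v b * (((∏ i, (m' i).choose (b i) : ℕ) : K) * ∏ i, v i ^ (m' i - b i)) =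
      if m = m' then 1 else 0

/-- transfer of orders and of directional coefficients under ring homomorphisms -/
def St_MT : Prop := ∀ (A : Type u) [CommRing A] (K : Type u) [Field K] (k : Type) [Field k]
  (ι : A →+* K) (φ : A →+* k), Function.Injective ι → ∀ (N : ℕ) (v : Fin N → A)
  (F : MvPolynomial (Fin N) A),
  (∀ m : ℕ, map ι F ∈ mI (fun i => ι (v i)) ^ m → map φ F ∈ mI (fun i => φ (v i)) ^ m) ∧
  (∀ D : ℕ, ∃ P : MvPolynomial (Fin N) A,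
    map ι P = (dir (fun i => ι (v i)) (map ι F)).coeff D ∧
    map φ P = (dir (fun i => φ (v i)) (map φ F)).coeff D)

/-- a homomorphism from a finitely generated ring of characteristic zero to a field of large
characteristic -/
def St_RD : Prop := ∀ (K : Type u) [Field K] [CharZero K] (T : Finset K) (N : ℕ),
  ∃ (p : ℕ) (_ : Fact p.Prime) (k : Type) (_ : Field k) (_ : IsAlgClosed k) (_ : CharP k p),
    N < p ∧ Nonempty (Algebra.adjoin ℤ (T : Set K) →+* k)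

/-- transfer of `LowT Z 1 a` and of the data to positive characteristic: from a family of
finitely many polynomials and vectors over `K` with `LowT`, a reduction -/
def St_TR : Prop := ∀ (K : Type u) [Field K] [CharZero K] (n t a N : ℕ)
  (Z : Finset (Fin (n + 1) → K)) (L : Finset (MvPolynomial (Fin (n + 1)) K)) (D : Finset K),
  LowT (Z : Set (Fin (n + 1) → K)) t a →
  ∃ (p : ℕ) (_ : Fact p.Prime) (k : Type) (_ : Field k) (_ : IsAlgClosed k) (_ : CharP k p)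
    (A : Subring K) (φ : A →+* k), N < p ∧
    (∀ F ∈ L, ∀ m, coeff m F ∈ A) ∧ (∀ v ∈ Z, ∀ i, v i ∈ A) ∧ (∀ x ∈ D, x ∈ A) ∧
    (∀ x ∈ D, x ≠ 0 → ∀ h : x ∈ A, φ ⟨x, h⟩ ≠ 0) ∧
    ∀ Z' : Set (Fin (n + 1) → k),
      (∀ v ∈ Z, ∃ h : ∀ i, v i ∈ A, (fun i => φ ⟨v i, h i⟩) ∈ Z') → LowT Z' t a

/-- the factorisation identity in characteristic zero -/
def St_FZ : Prop := ∀ (k : Type u) [Field k] [CharZero k] (n a ν : ℕ)
  (v₀ : Fin (n + 1) → k) (Z : Set (Fin (n + 1) → k)), Z.Finite → v₀ ≠ 0 → 1 ≤ a → 1 ≤ ν →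
  FacId a ν v₀ Z

/-- the top coefficient in the direction `v` -/
def St_DD : Prop := ∀ (k : Type u) [Field k] (N : ℕ) (v : Fin N → k)
  (F : MvPolynomial (Fin N) k),
  (∀ d m : ℕ, v ≠ 0 → F.IsHomogeneous d → F ∈ mI v ^ m → (dir v F).natDegree ≤ d - m) ∧
  (∀ D : ℕ, (dir v F).natDegree ≤ D → (dir v ((dir v F).coeff D)).natDegree = 0) ∧
  ((dir v F).coeff 0 = F) ∧
  (∀ G : MvPolynomial (Fin N) k, F ≠ 0 → G ∣ F → (dir v F).natDegree = 0 →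
    (dir v G).natDegree = 0) ∧
  ((dir v F).natDegree = 0 → ∀ (x : Fin N → k) (s : k), eval (x + s • v) F = eval x F)

/-- an auxiliary form of small degree -/
def St_PX : Prop := ∀ (k : Type u) [Field k] [IsAlgClosed k] (p e n a ν : ℕ) [Fact p.Prime]
  [CharP k p] (Z : Finset (Fin (n + 1) → k)) (F : MvPolynomial (Fin (n + 1)) k),
  1 ≤ n → 2 ≤ a → 1 ≤ ν → 1 ≤ e → Z.Nonempty → (∀ v ∈ Z, v ≠ 0) →
  F ≠ 0 → F.IsHomogeneous ((a - 1 + n) * ν) → (∀ v ∈ Z, F ∈ mI v ^ (n * ν)) →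
  ∃ Y : MvPolynomial (Fin (n + 1)) k, Y ≠ 0 ∧
    Y.IsHomogeneous ((a - 1 + n) * (p ^ e - 1) + (a - 2)) ∧
    ∀ v ∈ Z, Y ∈ mI v ^ (n * (p ^ e - 1))

/-- the auxiliary forms `A` -/
def St_PA : Prop := ∀ (k : Type u) [Field k] [IsAlgClosed k] (p r e n a : ℕ) [Fact p.Prime]
  [CharP k p] (Z : Finset (Fin (n + 1) → k)) (h : (Fin (n + 1) → k) → MvPolynomial (Fin (n + 1)) k)
  (Y l : MvPolynomial (Fin (n + 1)) k),
  1 ≤ n → 2 ≤ a → a ≤ p ^ e → Z.Nonempty → (∀ v ∈ Z, v 0 ≠ 0) →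
  LowT (Z : Set (Fin (n + 1) → k)) 1 a →
  (∀ v ∈ Z, (h v).IsHomogeneous (a - 1) ∧ eval v (h v) = 1 ∧ ∀ w ∈ Z, w ≠ v → eval w (h v) = 0) →
  Y ≠ 0 → Y.IsHomogeneous ((a - 1 + n) * (p ^ (r + e) - 1) + (a - 2)) →
  (∀ v ∈ Z, Y ∈ mI v ^ (n * (p ^ (r + e) - 1))) → l ≠ 0 → l.IsHomogeneous 1 →
  ∃ v ∈ Z, eval v l ≠ 0 ∧ ∃ A : MvPolynomial (Fin (n + 1)) k, A ≠ 0 ∧
    A.IsHomogeneous ((a - 1) * p ^ r + n * (p ^ r - 1)) ∧
    (∀ w ∈ Z, w ≠ v → A ∈ mI w ^ (n * (p ^ r - 1) + 1)) ∧ A ∈ mI v ^ (n * (p ^ r - 1))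

/-- vanishing of the derivative of `F` in the direction of `v` -/
def St_PD : Prop := ∀ (k : Type u) [Field k] [IsAlgClosed k] (p r e n a ν κ : ℕ) [Fact p.Prime]
  [CharP k p] (Z : Finset (Fin (n + 1) → k)) (v : Fin (n + 1) → k)
  (F A : MvPolynomial (Fin (n + 1)) k),
  1 ≤ r → 1 ≤ a → v ∈ Z → v ≠ 0 → LowT (Z : Set (Fin (n + 1) → k)) 1 a →
  F ≠ 0 → F.IsHomogeneous ((a - 1 + n) * ν) → (∀ w ∈ Z, F ∈ mI w ^ (n * ν)) → A ≠ 0 →
  A.IsHomogeneous ((a - 1) * p ^ r + n * (p ^ r - 1)) →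
  (∀ w ∈ Z, w ≠ v → A ∈ mI w ^ (n * (p ^ r - 1) + 1)) → A ∈ mI v ^ (n * (p ^ r - 1)) →
  ν * κ + p ^ r = p ^ (r + e) → ¬ p ∣ κ → (dir v F).coeff 1 = 0

/-- forms all of whose derivatives vanish are `p`-th powers -/
def St_PZ : Prop := ∀ (k : Type u) [Field k] [IsAlgClosed k] (p n d : ℕ) [Fact p.Prime]
  [CharP k p] (F : MvPolynomial (Fin (n + 1)) k), F ≠ 0 → F.IsHomogeneous d →
  (∀ l : MvPolynomial (Fin (n + 1)) k, l ≠ 0 → l.IsHomogeneous 1 →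
    ∃ v : Fin (n + 1) → k, eval v l ≠ 0 ∧ (dir v F).coeff 1 = 0) →
  ∃ G : MvPolynomial (Fin (n + 1)) k, F = G ^ p

/-- multiplicities divisible by the characteristic -/
def St_PP : Prop := ∀ (k : Type u) [Field k] [IsAlgClosed k] (p n a ν : ℕ) [Fact p.Prime]
  [CharP k p] (Z : Finset (Fin (n + 1) → k)) (h : (Fin (n + 1) → k) → MvPolynomial (Fin (n + 1)) k)
  (F : MvPolynomial (Fin (n + 1)) k),
  1 ≤ n → 2 ≤ a → 1 ≤ ν → p ∣ ν → Z.Nonempty → (∀ v ∈ Z, v ≠ 0) →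
  LowT (Z : Set (Fin (n + 1) → k)) 1 a →
  (∀ v ∈ Z, (h v).IsHomogeneous (a - 1) ∧ eval v (h v) = 1 ∧ ∀ w ∈ Z, w ≠ v → eval w (h v) = 0) →
  F ≠ 0 → F.IsHomogeneous ((a - 1 + n) * ν) → (∀ v ∈ Z, F ∈ mI v ^ (n * ν)) →
  ∃ G : MvPolynomial (Fin (n + 1)) k, F = G ^ p

/-- reduction to an exponent which is not divisible by the characteristic -/
def St_RE : Prop := ∀ (k : Type u) [Field k] [IsAlgClosed k] (p n a ν : ℕ) [Fact p.Prime]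
  [CharP k p] (Z Z₀ : Finset (Fin (n + 1) → k))
  (h : (Fin (n + 1) → k) → MvPolynomial (Fin (n + 1)) k)
  (F : MvPolynomial (Fin (n + 1)) k),
  1 ≤ n → 2 ≤ a → 1 ≤ ν → Z.Nonempty → (∀ v ∈ Z, v ≠ 0) → Z ⊆ Z₀ →
  LowT (Z : Set (Fin (n + 1) → k)) 1 a →
  (∀ v ∈ Z, (h v).IsHomogeneous (a - 1) ∧ eval v (h v) = 1 ∧ ∀ w ∈ Z, w ≠ v → eval w (h v) = 0) →
  F ≠ 0 → F.IsHomogeneous ((a - 1 + n) * ν) → (∀ v ∈ Z₀, F ∈ mI v ^ (n * ν)) →
  ∃ (ν' : ℕ) (F' : MvPolynomial (Fin (n + 1)) k), 1 ≤ ν' ∧ ¬ p ∣ ν' ∧ F' ≠ 0 ∧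
    F'.IsHomogeneous ((a - 1 + n) * ν') ∧ ∀ v ∈ Z₀, F' ∈ mI v ^ (n * ν')

/-! ### the case of equality: the configuration -/

/-- the data of the last part -/
structure EG {k : Type u} [Field k] {N : ℕ} (a ν : ℕ) (S : Finset (PP k N))
    (F : MvPolynomial (Fin (N + 1)) k) (h FP : PP k N → MvPolynomial (Fin (N + 1)) k) : Prop where
  hN : 1 ≤ N
  ha : 2 ≤ a
  hν : 1 ≤ ν
  low : LowT (reps S) 1 a
  F0 : F ≠ 0
  Fh : F.IsHomogeneous ((a - 1 + N) * ν)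
  Fv : ∀ p ∈ S, F ∈ mI p.rep ^ (N * ν)
  hh : ∀ p ∈ S, (h p).IsHomogeneous (a - 1)
  h1 : ∀ p ∈ S, eval p.rep (h p) = 1
  h0 : ∀ p ∈ S, ∀ q ∈ S, q ≠ p → eval q.rep (h p) = 0
  fac : ∀ p ∈ S, F = FP p * h p ^ ν
  dir0 : ∀ p ∈ S, (dir p.rep (FP p)).natDegree = 0
  chud : ∀ S' : Finset (PP k N), S'.Nonempty → ∀ a' : ℕ, LowT (reps S') 1 a' →
    ∀ (G : MvPolynomial (Fin (N + 1)) k) (d m : ℕ), G ≠ 0 → G.IsHomogeneous d →
      (∀ p ∈ S', G ∈ mI p.rep ^ m) → m * (a' + N - 1) ≤ d * N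

/-- every irreducible factor divides `F` at least `ν` times -/
def St_G0 : Prop := ∀ (k : Type u) [Field k] [IsAlgClosed k] (N a ν : ℕ) (S : Finset (PP k N))
  (F : MvPolynomial (Fin (N + 1)) k) (h FP : PP k N → MvPolynomial (Fin (N + 1)) k),
  EG a ν S F h FP → ∀ G : MvPolynomial (Fin (N + 1)) k, Irreducible G → G ∣ F →
    (∃ p ∈ S, eval p.rep G ≠ 0) ∧ G ^ ν ∣ F ∧
    (∃ l : MvPolynomial (Fin (N + 1)) k, l ≠ 0 ∧ l.IsHomogeneous 1 ∧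
      ∀ p ∈ S, eval p.rep G = 0 → eval p.rep l = 0)

/-- the irreducible factors are linear, of multiplicity `ν` -/
def St_G1 : Prop := ∀ (k : Type u) [Field k] [IsAlgClosed k] (N a ν : ℕ) (S : Finset (PP k N))
  (F : MvPolynomial (Fin (N + 1)) k) (h FP : PP k N → MvPolynomial (Fin (N + 1)) k),
  EG a ν S F h FP → ∀ G : MvPolynomial (Fin (N + 1)) k, Irreducible G → G ∣ F →
    G.IsHomogeneous 1 ∧ G ^ ν ∣ F ∧ ¬ G ^ (ν + 1) ∣ F

/-- the product decomposition -/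
def St_G2 : Prop := ∀ (k : Type u) [Field k] (N s ν : ℕ)
  (F : MvPolynomial (Fin (N + 1)) k), 1 ≤ ν → F ≠ 0 → F.IsHomogeneous (s * ν) →
  (∀ G : MvPolynomial (Fin (N + 1)) k, Irreducible G → G ∣ F →
    G.IsHomogeneous 1 ∧ G ^ ν ∣ F ∧ ¬ G ^ (ν + 1) ∣ F) →
  ∃ (H : Finset (PP k N)) (c : k), c ≠ 0 ∧ H.card = s ∧ F = C c * ∏ l ∈ H, lin l ^ ν

open Classical in
/-- every point of `S` lies on exactly `N` of the hyperplanes, which determine it -/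
def St_G3 : Prop := ∀ (k : Type u) [Field k] [IsAlgClosed k] (N a ν : ℕ) (S : Finset (PP k N))
  (F : MvPolynomial (Fin (N + 1)) k) (h FP : PP k N → MvPolynomial (Fin (N + 1)) k),
  EG a ν S F h FP → ∀ (H : Finset (PP k N)) (c : k), c ≠ 0 → F = C c * ∏ l ∈ H, lin l ^ ν →
  (∀ p ∈ S, (H.filter (fun l => OnH l p)).card = N) ∧
  ∀ p ∈ S, ∀ q ∈ S, H.filter (fun l => OnH l p) = H.filter (fun l => OnH l q) → p = q

/-- the number of points -/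
def St_G4 : Prop := ∀ (k : Type u) [Field k] (N a : ℕ) (S : Finset (PP k N)), 1 ≤ a →
  LowT (reps S) 1 a → (N + (a - 1)).choose N ≤ S.card

open Classical in
/-- combinatorics of the hyperplanes -/
def St_G5 : Prop := ∀ (k : Type u) [Field k] (N : ℕ) (S H : Finset (PP k N)), 1 ≤ N →
  N < H.card → (∀ p ∈ S, (H.filter (fun l => OnH l p)).card = N) →
  (∀ p ∈ S, ∀ q ∈ S, H.filter (fun l => OnH l p) = H.filter (fun l => OnH l q) → p = q) →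
  H.card.choose N ≤ S.card →
  ∀ x : PP k N, (H.filter (fun l => OnH l x)).card ≤ N ∧
    ((H.filter (fun l => OnH l x)).card = N → x ∈ S)

open Classical in
/-- multiplicity of a product of hyperplanes -/
def St_G6 : Prop := ∀ (k : Type u) [Field k] (N ν m : ℕ) (H : Finset (PP k N)) (c : k)
  (x : PP k N), c ≠ 0 → 1 ≤ ν → C c * ∏ l ∈ H, lin l ^ ν ∈ mI x.rep ^ (m * ν) →
  m ≤ (H.filter (fun l => OnH l x)).card

/-- minimal subsets and interpolation -/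
def St_MN : Prop := ∀ (k : Type u) [Field k] (N a : ℕ) (S : Finset (PP k N)), 1 ≤ a →
  LowT (reps S) 1 a →
  ∃ S' ⊆ S, LowT (reps S') 1 a ∧ ∃ h : PP k N → MvPolynomial (Fin (N + 1)) k,
    ∀ p ∈ S', (h p).IsHomogeneous (a - 1) ∧ eval p.rep (h p) = 1 ∧
      ∀ q ∈ S', q ≠ p → eval q.rep (h p) = 0

/-- the number `a(S,m)` -/
def St_AS : Prop := ∀ (k : Type u) [Field k] (N m : ℕ) (S : Finset (PP k N)), 1 ≤ N →
  (∃ F : MvPolynomial (Fin (N + 1)) k, F ≠ 0 ∧ F.IsHomogeneous (aS S m) ∧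
    ∀ p ∈ S, VanishAt F m p) ∧ LowT (reps S) m (aS S m)

/-- sets with `a(S,1) ≤ 1` -/
def St_A1 : Prop := ∀ (k : Type u) [Field k] (N : ℕ) (S : Finset (PP k N)), 1 ≤ N →
  aS S 1 ≤ 1 → InHyperplane S

end Pool.Agent.H580C
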