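import Pool.Agent.H580C.CH.Props

set_option autoImplicit false

universe u

namespace Pool.Agent.H580C

open MvPolynomial Pool.Agent.Chud

namespace G0

variable {k : Type u} [Field k]

/-- the directions along which `G` is constant -/
def vsub {N : ℕ} (G : MvPolynomial (Fin N) k) : Submodule k (Fin N → k) where
  carrier := {v | ∀ (x : Fin N → k) (s : k), eval (x + s • v) G = eval x G}
  add_mem' := by
    intro v w hv hw x s
    rw [smul_add, ← add_assoc, hw, hv]
  zero_mem' := by
    intro x s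
    simp
  smul_mem' := by
    intro c v hv x s
    rw [smul_smul, hv]

theorem vsub_ne_top [Infinite k] {N : ℕ} (G : MvPolynomial (Fin N) k) (hG : Irreducible G) :
    vsub G ≠ ⊤ := by
  intro h
  have h1 : G = C (eval 0 G) := by
    apply MvPolynomial.funext
    intro x
    have hx : x ∈ vsub G := by rw [h]; trivial
    have := hx 0 1
    simp only [one_smul, zero_add] at this
    rw [this, eval_C]
  rcases eq_or_ne (eval 0 G) 0 with h0 | h0
  · rw [h0, C_0] at h1
    exact hG.ne_zero h1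
  · apply hG.not_isUnit
    rw [h1]
    exact (IsUnit.mk0 _ h0).map C

theorem exists_form {N : ℕ} (V : Submodule k (Fin N → k)) (hV : V ≠ ⊤) :
    ∃ l : MvPolynomial (Fin N) k, l ≠ 0 ∧ l.IsHomogeneous 1 ∧ ∀ v ∈ V, eval v l = 0 := by
  obtain ⟨f, hf0, hf⟩ := Submodule.exists_le_ker_of_lt_top V (lt_top_iff_ne_top.2 hV)
  have hev : ∀ v : Fin N → k,
      eval v (∑ i, C (f (Pi.single i 1)) * X i : MvPolynomial (Fin N) k) = f v := by
    intro v
    conv_rhs => rw [← Finset.univ_sum_single v]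
    rw [map_sum, map_sum]
    refine Finset.sum_congr rfl fun i _ => ?_
    have : (Pi.single i (v i) : Fin N → k) = v i • Pi.single i 1 := by
      rw [← Pi.single_smul, smul_eq_mul, mul_one]
    simp only [map_mul, eval_C, eval_X]
    rw [this, map_smul, smul_eq_mul, mul_comm]
  refine ⟨∑ i, C (f (Pi.single i 1)) * X i, ?_, ?_, ?_⟩
  · intro h0
    apply hf0
    ext1 i
    ext
    rw [LinearMap.comp_apply, ← hev, h0]
    simp
  · apply IsHomogeneous.sum
    intro i _
    have h1 := (isHomogeneous_C (Fin N) (f (Pi.single i 1))).mul (isHomogeneous_X k i)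
    rwa [zero_add] at h1
  · intro v hv
    rw [hev]
    exact LinearMap.mem_ker.1 (hf hv)

end G0

theorem t_G0 (hDD : St_DD.{u}) : St_G0.{u} := by
  intro k _ _ N a ν S F h FP E G hG hGF
  have hGp : Prime G := hG.prime
  have hGh : G.IsHomogeneous G.totalDegree := homog_of_dvd E.Fh E.F0 hGF
  have hGd : G.totalDegree ≠ 0 := by
    intro h0
    rw [totalDegree_eq_zero_iff_eq_C] at h0
    have h1 : coeff 0 G ≠ 0 := by
      intro h2
      rw [h2, C_0] at h0
      exact hG.ne_zero h0
    apply hG.not_isUnit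
    rw [h0]
    exact (IsUnit.mk0 _ h1).map C
  have hG0 : eval 0 G = 0 := by
    have := hGh.coeff_eq_zero (d := 0) (by simpa using hGd.symm)
    rw [← constantCoeff_eq] at this
    rw [← this]
    simp [constantCoeff_eq, eval_zero]
  have hFP0 : ∀ p ∈ S, FP p ≠ 0 := by
    intro p hp h0
    apply E.F0
    rw [E.fac p hp, h0, zero_mul]
  have hdiv : ∀ p ∈ S, G ∣ FP p ∨ G ∣ h p := by
    intro p hp
    have h1 := hGF
    rw [E.fac p hp] at h1
    rcases hGp.dvd_or_dvd h1 with h2 | h2
    · exact Or.inl h2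
    · exact Or.inr (hGp.dvd_of_dvd_pow h2)
  have hconst : ∀ p ∈ S, G ∣ FP p → ∀ (x : Fin (N + 1) → k) (s : k),
      eval (x + s • p.rep) G = eval x G := by
    intro p hp hd
    have h1 := (hDD k (N + 1) p.rep (FP p)).2.2.2.1 G (hFP0 p hp) hd (E.dir0 p hp)
    exact (hDD k (N + 1) p.rep G).2.2.2.2 h1
  -- α
  have hα : ∀ p ∈ S, eval p.rep G = 0 → p.rep ∈ G0.vsub G := by
    intro p hp h0
    rcases hdiv p hp with h1 | h1
    · exact hconst p hp h1
    · exfalso
      obtain ⟨K, hK⟩ := h1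
      have h2 := E.h1 p hp
      rw [hK, map_mul, h0, zero_mul] at h2
      exact zero_ne_one h2
  -- β
  have hβ : ∀ p ∈ S, eval p.rep G ≠ 0 → G ^ ν ∣ F := by
    intro p hp h0
    rcases hdiv p hp with h1 | h1
    · exfalso
      apply h0
      have h2 := hconst p hp h1 0 1
      rwa [one_smul, zero_add, hG0] at h2
    · rw [E.fac p hp]
      exact Dvd.dvd.mul_left (pow_dvd_pow_of_dvd h1 ν) _
  obtain ⟨l, hl0, hlh, hlv⟩ := G0.exists_form (G0.vsub G) (G0.vsub_ne_top G hG)
  have hex : ∃ p ∈ S, eval p.rep G ≠ 0 := by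
    by_contra hcon
    push Not at hcon
    have h1 := E.low l 1 hl0 hlh (by
      rintro v ⟨p, hp, rfl⟩
      rw [pow_one]
      exact RingHom.mem_ker.2 (hlv _ (hα p hp (hcon p hp))))
    have := E.ha
    omega
  obtain ⟨p, hp, hpG⟩ := hex
  exact ⟨⟨p, hp, hpG⟩, hβ p hp hpG, l, hl0, hlh, fun q hq h0 => hlv _ (hα q hq h0)⟩

end Pool.Agent.H580C
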