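import Pool.Agent.H580C.CH.Props

set_option autoImplicit false

universe u

namespace Pool.Agent.H580C

open MvPolynomial Pool.Agent.Chud

theorem t_LS (hDL : St_DL.{u}) : St_LS.{u} := by
  intro k _ _ N t a Z hZ ht hL j
  induction j with
  | zero => simpa using hL
  | succ j ih =>
    intro F d hF hd hv
    obtain ⟨z, hz⟩ := hZ
    have h1 : t + (j + 1) ≤ mu z F := (mem_mI_pow_iff z hF _).1 (hv z hz)
    have h2 := mu_le_totalDegree z hF
    rw [hd.totalDegree hF] at h2
    obtain ⟨G, hG, hGh, hGv⟩ := hDL k N d F hF hd (by omega)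
    have h3 := ih G (d - 1) hG hGh (fun v hvZ => hGv v (t + j) (hv v hvZ))
    omega

end Pool.Agent.H580C
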