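import Pool.Agent.H580C.CH.Props

set_option autoImplicit false

universe u

namespace Pool.Agent.H580C

open MvPolynomial Pool.Agent.Chud

lemma RE_mu_pow {k : Type u} [Field k] {σ : Type*} [Finite σ] (v : σ → k) {G : MvPolynomial σ k}
    (hG : G ≠ 0) (j : ℕ) : mu v (G ^ j) = j * mu v G := by
  induction j with
  | zero =>
    rw [pow_zero, zero_mul]
    by_contra hne
    have h1 : 0 < mu v (1 : MvPolynomial σ k) := Nat.pos_of_ne_zero hne
    rw [mu_pos_iff v one_ne_zero] at h1
    simp at h1
  | succ j ih =>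
    rw [pow_succ, mu_mul v (pow_ne_zero _ hG) hG, ih]
    ring

theorem t_RE (hPP : St_PP.{u}) : St_RE.{u} := by
  intro k _ _ p n a ν _ _ Z Z₀ h F hn ha hν hZ hZ0 hsub hlow hh
  induction ν using Nat.strong_induction_on generalizing F with
  | _ ν ih =>
    intro hF hFh hFv
    by_cases hpν : p ∣ ν
    · obtain ⟨G, hG⟩ := hPP k p n a ν Z h F hn ha hν hpν hZ hZ0 hlow hh hF hFh
        (fun v hv => hFv v (hsub hv))
      obtain ⟨ν₁, rfl⟩ := hpν
      have hp : p.Prime := Fact.out
      have hν1 : 1 ≤ ν₁ := by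
        rcases Nat.eq_zero_or_pos ν₁ with h0 | h0
        · rw [h0, mul_zero] at hν; omega
        · exact h0
      have hlt : ν₁ < p * ν₁ := by
        have := hp.two_le
        nlinarith
      have hG0 : G ≠ 0 := by
        rintro rfl
        apply hF
        rw [hG, zero_pow hp.ne_zero]
      have hdvd : G ∣ F := by
        rw [hG]
        exact dvd_pow_self G hp.ne_zero
      have hGh := homog_of_dvd hFh hF hdvd
      have hdeg : G.totalDegree = (a - 1 + n) * ν₁ := by
        have h1 := hGh.pow p
        rw [← hG] at h1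
        have h2 := hFh.inj_right h1 hF
        have h3 : p * ((a - 1 + n) * ν₁) = p * G.totalDegree := by
          rw [mul_comm p G.totalDegree, ← h2]; ring
        exact (Nat.eq_of_mul_eq_mul_left hp.pos h3).symm
      rw [hdeg] at hGh
      have hGv : ∀ v ∈ Z₀, G ∈ mI v ^ (n * ν₁) := by
        intro v hv
        rw [mem_mI_pow_iff v hG0]
        have h1 := (mem_mI_pow_iff v hF _).1 (hFv v hv)
        rw [hG, RE_mu_pow v hG0] at h1
        have h2 : p * (n * ν₁) ≤ p * mu v G := by
          calc p * (n * ν₁) = n * (p * ν₁) := by ring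
            _ ≤ _ := h1
        exact Nat.le_of_mul_le_mul_left h2 hp.pos
      exact ih ν₁ hlt G hν1 hG0 hGh hGv
    · exact ⟨ν, F, hν, hpν, hF, hFh, hFv⟩

end Pool.Agent.H580C
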